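import Pool.Agent.Helper89.WD.Stm

/-!
# CAMP: the Campbell formula for injective tuples of a Poisson process (package of helper89,
proof by helper33)
-/

namespace Pool.Agent.Helper89.WD
namespace CAMP

open MeasureTheory Set ProbabilityTheory
open scoped ENNReal

section basic

variable {Ω : Type} [MeasurableSpace Ω] {P : Measure Ω} {d : ℕ} {lam : ℝ} {Z : Ω → Set (E d)}

lemma fin_inter (h : IsPoissonProcess P d lam Z) (ω : Ω) {A : Set (E d)}
    (hA : Bornology.IsBounded A) : (Z ω ∩ A).Finite := by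
  obtain ⟨R, hR⟩ := hA.subset_closedBall 0
  exact (h.locFin ω R).subset (inter_subset_inter_right _ hR)

lemma ncard_iff (h : IsPoissonProcess P d lam Z) (ω : Ω) {A : Set (E d)}
    (hA : Bornology.IsBounded A) (k : ℕ) :
    (Z ω ∩ A).encard = (k : ℕ∞) ↔ (Z ω ∩ A).ncard = k := by
  rw [← (fin_inter h ω hA).cast_ncard_eq]
  exact Nat.cast_inj

lemma meas_ncard (h : IsPoissonProcess P d lam Z) {A : Set (E d)} (hm : MeasurableSet A)
    (hA : Bornology.IsBounded A) : Measurable fun ω => (Z ω ∩ A).ncard := by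
  refine measurable_to_countable' fun k => ?_
  have : (fun ω => (Z ω ∩ A).ncard) ⁻¹' {k} = {ω | (Z ω ∩ A).encard = (k : ℕ∞)} := by
    ext ω
    simp only [mem_preimage, mem_singleton_iff, mem_ofPred_eq]
    exact (ncard_iff h ω hA k).symm
  rw [this]
  exact h.meas A hm k

/-- Poisson weights. -/
noncomputable def pw (a : ℝ) (k : ℕ) : ℝ≥0∞ :=
  ENNReal.ofReal (Real.exp (-a) * a ^ k / k.factorial)

lemma law' (h : IsPoissonProcess P d lam Z) {ι : Type} [Fintype ι] (A : ι → Set (E d))
    (hm : ∀ i, MeasurableSet (A i)) (hA : ∀ i, Bornology.IsBounded (A i))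
    (hd : Pairwise (fun i j => Disjoint (A i) (A j))) (k : ι → ℕ) :
    P {ω | ∀ i, (Z ω ∩ A i).ncard = k i} = ∏ i, pw (lam * (volume (A i)).toReal) (k i) := by
  classical
  let e := Fintype.equivFin ι
  have h1 := h.law (Fintype.card ι) (fun j => A (e.symm j)) (fun j => k (e.symm j))
    (fun j => hm _) (fun j => (hA _).measure_lt_top.ne)
    (fun i j hij => hd (fun h => hij (e.symm.injective h)))
  have h2 : {ω | ∀ i, (Z ω ∩ A i).ncard = k i} =
      {ω | ∀ j, (Z ω ∩ A (e.symm j)).encard = (k (e.symm j) : ℕ∞)} := by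
    ext ω
    simp only [mem_ofPred_eq]
    constructor
    · intro hh j
      exact (ncard_iff h ω (hA _) _).2 (hh _)
    · intro hh i
      have := (ncard_iff h ω (hA _) _).1 (hh (e i))
      simpa using this
  rw [h2, h1, ← Equiv.prod_comp e.symm]
  rfl

lemma law1 (h : IsPoissonProcess P d lam Z) {A : Set (E d)} (hm : MeasurableSet A)
    (hA : Bornology.IsBounded A) (k : ℕ) :
    P {ω | (Z ω ∩ A).ncard = k} = pw (lam * (volume A).toReal) k := by
  have := law' h (ι := Unit) (fun _ => A) (fun _ => hm) (fun _ => hA)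
    (fun i j hij => (hij (Subsingleton.elim i j)).elim) (fun _ => k)
  simpa using this

lemma mean_pw {a : ℝ} (ha : 0 ≤ a) : ∑' k : ℕ, (k : ℝ≥0∞) * pw a k = ENNReal.ofReal a := by
  rw [tsum_eq_zero_add' ENNReal.summable]
  simp only [CharP.cast_eq_zero, zero_mul, zero_add]
  have h1 : ∀ k : ℕ, ((k + 1 : ℕ) : ℝ≥0∞) * pw a (k + 1) = ENNReal.ofReal a * pw a k := by
    intro k
    unfold pw
    rw [← ENNReal.ofReal_natCast, ← ENNReal.ofReal_mul (by positivity),
      ← ENNReal.ofReal_mul ha]
    congr 1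
    have : ((k + 1).factorial : ℝ) = ((k + 1 : ℕ) : ℝ) * (k.factorial : ℝ) := by
      rw [Nat.factorial_succ]; push_cast; ring
    rw [this]
    have h2 : ((k + 1 : ℕ) : ℝ) ≠ 0 := by positivity
    have h3 : (k.factorial : ℝ) ≠ 0 := by positivity
    field_simp
    ring
  rw [tsum_congr h1, ENNReal.tsum_mul_left]
  have h4 : ∑' k : ℕ, pw a k = 1 := by
    unfold pw
    rw [← ENNReal.ofReal_tsum_of_nonneg (fun k => by positivity)]
    · have := (hasSum_one_poissonMeasure ⟨a, ha⟩).tsum_eq
      have h5 : ∑' k : ℕ, Real.exp (-a) * a ^ k / (k.factorial : ℝ) = 1 := by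
        exact this
      rw [h5, ENNReal.ofReal_one]
    · exact (hasSum_one_poissonMeasure ⟨a, ha⟩).summable
  rw [h4, mul_one]

lemma mean1 [IsProbabilityMeasure P] (h : IsPoissonProcess P d lam Z) (hl : 0 < lam)
    {A : Set (E d)} (hm : MeasurableSet A) (hA : Bornology.IsBounded A) :
    ∫⁻ ω, ((Z ω ∩ A).ncard : ℝ≥0∞) ∂P = ENNReal.ofReal lam * volume A := by
  have h1 := meas_ncard h hm hA
  have h2 : ∫⁻ ω, ((Z ω ∩ A).ncard : ℝ≥0∞) ∂P =
      ∫⁻ k : ℕ, (k : ℝ≥0∞) ∂(P.map fun ω => (Z ω ∩ A).ncard) := by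
    rw [lintegral_map (measurable_from_top) h1]
  rw [h2, lintegral_countable']
  have h3 : ∀ k : ℕ, (P.map fun ω => (Z ω ∩ A).ncard) {k} = pw (lam * (volume A).toReal) k := by
    intro k
    rw [Measure.map_apply h1 (measurableSet_singleton k), ← law1 h hm hA k]
    rfl
  simp_rw [h3]
  rw [mean_pw (by positivity), ENNReal.ofReal_mul hl.le,
    ENNReal.ofReal_toReal hA.measure_lt_top.ne]

lemma mean_prod [IsProbabilityMeasure P] (h : IsPoissonProcess P d lam Z) (hl : 0 < lam)
    {ι : Type} [Fintype ι] (A : ι → Set (E d))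
    (hm : ∀ i, MeasurableSet (A i)) (hA : ∀ i, Bornology.IsBounded (A i))
    (hd : Pairwise (fun i j => Disjoint (A i) (A j))) :
    ∫⁻ ω, ∏ i, ((Z ω ∩ A i).ncard : ℝ≥0∞) ∂P = ∏ i, (ENNReal.ofReal lam * volume (A i)) := by
  have hN : ∀ i, Measurable fun ω => (Z ω ∩ A i).ncard := fun i => meas_ncard h (hm i) (hA i)
  have hi : iIndepFun (fun i ω => (Z ω ∩ A i).ncard) P := by
    rw [iIndepFun_iff_map_fun_eq_pi_map (fun i => (hN i).aemeasurable)]
    have : ∀ i, IsProbabilityMeasure (P.map fun ω => (Z ω ∩ A i).ncard) := fun i =>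
      Measure.isProbabilityMeasure_map (hN i).aemeasurable
    refine Measure.ext_of_singleton fun k => ?_
    rw [Measure.pi_singleton, Measure.map_apply (measurable_pi_iff.2 hN)
      (measurableSet_singleton k)]
    have h1 : (fun ω i => (Z ω ∩ A i).ncard) ⁻¹' {k} = {ω | ∀ i, (Z ω ∩ A i).ncard = k i} := by
      ext ω
      simp only [mem_preimage, mem_singleton_iff, mem_ofPred_eq, funext_iff]
    rw [h1, law' h A hm hA hd k]
    refine Finset.prod_congr rfl fun i _ => ?_
    rw [Measure.map_apply (hN i) (measurableSet_singleton _), ← law1 h (hm i) (hA i) (k i)]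
    rfl
  have hi' : iIndepFun (fun i ω => ((Z ω ∩ A i).ncard : ℝ≥0∞)) P :=
    hi.comp (fun _ (n : ℕ) => (n : ℝ≥0∞)) (fun _ => measurable_from_top)
  rw [lintegral_prod_eq_prod_lintegral_of_indepFun Finset.univ _ hi'
    (fun i => (measurable_from_top (f := fun n : ℕ => (n : ℝ≥0∞))).comp (hN i))]
  exact Finset.prod_congr rfl fun i _ => mean1 h hl (hm i) (hA i)

end basic

/-! ### Tuples -/

section tuples

variable {Ω : Type} [MeasurableSpace Ω] {P : Measure Ω} {d : ℕ} {lam : ℝ} {Z : Ω → Set (E d)}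
  {ι : Type} [Fintype ι]

/-- Injective tuples of points of `Z`. -/
def tup (ι : Type) {d : ℕ} (Z : Set (E d)) : Set (ι → E d) :=
  {x : ι → E d | Function.Injective x ∧ ∀ i, x i ∈ Z}

lemma Zcount (h : IsPoissonProcess P d lam Z) (ω : Ω) : (Z ω).Countable := by
  have : Z ω = ⋃ n : ℕ, Z ω ∩ Metric.closedBall 0 (n : ℝ) := by
    rw [← inter_iUnion, Metric.iUnion_closedBall_nat, inter_univ]
  rw [this]
  exact countable_iUnion fun n => (h.locFin ω n).countable

lemma tup_countable (h : IsPoissonProcess P d lam Z) (ω : Ω) : (tup ι (Z ω)).Countable := by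
  refine (Set.countable_univ_pi (fun _ : ι => Zcount h ω)).mono ?_
  intro x hx i _
  exact hx.2 i

/-- The counting measure of the injective tuples. -/
noncomputable def nu (ι : Type) [Fintype ι] {d : ℕ} (Z : Set (E d)) : Measure (ι → E d) :=
  Measure.count.restrict (tup ι Z)

lemma nu_apply (h : IsPoissonProcess P d lam Z) (ω : Ω) {S : Set (ι → E d)}
    (hS : MeasurableSet S) : nu ι (Z ω) S = cnt (Z ω) S := by
  unfold nu cnt
  rw [Measure.restrict_apply hS,
    Measure.count_apply (hS.inter (tup_countable h ω).measurableSet), inter_comm]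
  rfl

lemma cnt_box {Z : Set (E d)} (A : ι → Set (E d))
    (hd : Pairwise (fun i j => Disjoint (A i) (A j))) (hf : ∀ i, (Z ∩ A i).Finite) :
    cnt Z (pi univ A) = ∏ i, ((Z ∩ A i).ncard : ℝ≥0∞) := by
  classical
  have h1 : {x : ι → E d | Function.Injective x ∧ ∀ i, x i ∈ Z} ∩ pi univ A =
      ((Fintype.piFinset fun i => (hf i).toFinset : Finset (ι → E d)) : Set (ι → E d)) := by
    ext x
    simp only [mem_inter_iff, mem_ofPred_eq, mem_pi, mem_univ, true_implies, Finset.mem_coe,
      Fintype.mem_piFinset, Finite.mem_toFinset]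
    constructor
    · rintro ⟨⟨_, h2⟩, h3⟩ i
      exact ⟨h2 i, h3 i⟩
    · intro hx
      refine ⟨⟨?_, fun i => (hx i).1⟩, fun i => (hx i).2⟩
      intro i j hij
      by_contra hne
      exact (Set.disjoint_left.1 (hd hne)) (hx i).2 (hij ▸ (hx j).2)
  unfold cnt
  rw [h1, encard_coe_eq_coe_finsetCard, Fintype.card_piFinset]
  have h2 : ∀ i, (hf i).toFinset.card = (Z ∩ A i).ncard := fun i =>
    (Set.ncard_eq_toFinset_card _ (hf i)).symm
  simp_rw [h2]
  rw [ENat.toENNReal_coe, Nat.cast_prod]

lemma nu_box (h : IsPoissonProcess P d lam Z) (ω : Ω) {A : ι → Set (E d)}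
    (hm : ∀ i, MeasurableSet (A i)) (hA : ∀ i, Bornology.IsBounded (A i))
    (hd : Pairwise (fun i j => Disjoint (A i) (A j))) :
    nu ι (Z ω) (pi univ A) = ∏ i, ((Z ω ∩ A i).ncard : ℝ≥0∞) := by
  rw [nu_apply h ω (MeasurableSet.univ_pi hm), cnt_box A hd (fun i => fin_inter h ω (hA i))]

lemma restrict_box (h : IsPoissonProcess P d lam Z) (ω : Ω) {B : ι → Set (E d)}
    (hm : ∀ i, MeasurableSet (B i)) (hA : ∀ i, Bornology.IsBounded (B i))
    (hd : Pairwise (fun i j => Disjoint (B i) (B j))) {C : ι → Set (E d)}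
    (hC : ∀ i, MeasurableSet (C i)) :
    (nu ι (Z ω)).restrict (pi univ B) (pi univ C) =
      ∏ i, ((Z ω ∩ (C i ∩ B i)).ncard : ℝ≥0∞) := by
  rw [Measure.restrict_apply (MeasurableSet.univ_pi hC), ← pi_inter_distrib,
    nu_box h ω (fun i => (hC i).inter (hm i)) (fun i => (hA i).subset inter_subset_right)
      (fun i j hij => (hd hij).mono inter_subset_right inter_subset_right)]

lemma finite_box (h : IsPoissonProcess P d lam Z) (ω : Ω) {B : ι → Set (E d)}
    (hm : ∀ i, MeasurableSet (B i)) (hA : ∀ i, Bornology.IsBounded (B i))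
    (hd : Pairwise (fun i j => Disjoint (B i) (B j))) :
    IsFiniteMeasure ((nu ι (Z ω)).restrict (pi univ B)) := by
  refine ⟨?_⟩
  rw [Measure.restrict_apply_univ, nu_box h ω hm hA hd]
  exact ENNReal.prod_lt_top fun i _ => ENNReal.natCast_lt_top _

lemma measurable_restrict (h : IsPoissonProcess P d lam Z) {B : ι → Set (E d)}
    (hm : ∀ i, MeasurableSet (B i)) (hA : ∀ i, Bornology.IsBounded (B i))
    (hd : Pairwise (fun i j => Disjoint (B i) (B j))) :
    Measurable fun ω => (nu ι (Z ω)).restrict (pi univ B) := by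
  have hfin := fun ω => finite_box h ω hm hA hd
  have key : ∀ C : ι → Set (E d), (∀ i, MeasurableSet (C i)) →
      Measurable fun ω => (nu ι (Z ω)).restrict (pi univ B) (pi univ C) := by
    intro C hC
    simp_rw [fun ω => restrict_box h ω hm hA hd hC]
    refine Finset.measurable_prod _ fun i _ => ?_
    exact (measurable_from_top (f := fun n : ℕ => (n : ℝ≥0∞))).comp
      (meas_ncard h ((hC i).inter (hm i)) ((hA i).subset inter_subset_right))
  refine Measurable.measure_of_isPiSystem generateFrom_pi.symm isPiSystem_pi ?_ ?_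
  · rintro s ⟨C, hC, rfl⟩
    exact key C (fun i => hC i (mem_univ i))
  · have := key (fun _ => univ) (fun _ => MeasurableSet.univ)
    rwa [pi_univ] at this

lemma mean_restrict [IsProbabilityMeasure P] (h : IsPoissonProcess P d lam Z) (hl : 0 < lam)
    {B : ι → Set (E d)} (hm : ∀ i, MeasurableSet (B i)) (hA : ∀ i, Bornology.IsBounded (B i))
    (hd : Pairwise (fun i j => Disjoint (B i) (B j))) {S : Set (ι → E d)}
    (hS : MeasurableSet S) :
    ∫⁻ ω, nu ι (Z ω) (S ∩ pi univ B) ∂P =
      ENNReal.ofReal lam ^ Fintype.card ι * volume (S ∩ pi univ B) := by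
  have hmeas := measurable_restrict h hm hA hd
  have hfinvol : volume (pi univ B) < ⊤ := by
    rw [volume_pi_pi]
    exact ENNReal.prod_lt_top fun i _ => (hA i).measure_lt_top
  have : IsFiniteMeasure ((volume : Measure (ι → E d)).restrict (pi univ B)) :=
    ⟨by rwa [Measure.restrict_apply_univ]⟩
  have hc : ENNReal.ofReal lam ^ Fintype.card ι ≠ ⊤ := ENNReal.pow_ne_top ENNReal.ofReal_ne_top
  have : IsFiniteMeasure ((ENNReal.ofReal lam ^ Fintype.card ι) •
      (volume : Measure (ι → E d)).restrict (pi univ B)) := by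
    refine ⟨?_⟩
    rw [Measure.smul_apply, smul_eq_mul]
    exact ENNReal.mul_lt_top hc.lt_top (measure_lt_top _ _)
  have key : ∀ C : ι → Set (E d), (∀ i, MeasurableSet (C i)) →
      ((ENNReal.ofReal lam ^ Fintype.card ι) •
        (volume : Measure (ι → E d)).restrict (pi univ B)) (pi univ C) =
      (P.bind fun ω => (nu ι (Z ω)).restrict (pi univ B)) (pi univ C) := by
    intro C hC
    rw [Measure.bind_apply (MeasurableSet.univ_pi hC) hmeas.aemeasurable]
    simp_rw [fun ω => restrict_box h ω hm hA hd hC]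
    rw [mean_prod h hl (fun i => C i ∩ B i) (fun i => (hC i).inter (hm i))
      (fun i => (hA i).subset inter_subset_right)
      (fun i j hij => (hd hij).mono inter_subset_right inter_subset_right),
      Finset.prod_mul_distrib, Finset.prod_const, Finset.card_univ, Measure.smul_apply,
      smul_eq_mul, Measure.restrict_apply (MeasurableSet.univ_pi hC), ← pi_inter_distrib,
      volume_pi_pi]
  have hext : (ENNReal.ofReal lam ^ Fintype.card ι) •
        (volume : Measure (ι → E d)).restrict (pi univ B) =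
      P.bind fun ω => (nu ι (Z ω)).restrict (pi univ B) := by
    refine ext_of_generate_finite _ generateFrom_pi.symm isPiSystem_pi ?_ ?_
    · rintro s ⟨C, hC, rfl⟩
      exact key C (fun i => hC i (mem_univ i))
    · have := key (fun _ => univ) (fun _ => MeasurableSet.univ)
      rwa [pi_univ] at this
  have h1 := congrArg (fun m : Measure (ι → E d) => m S) hext
  simp only [Measure.smul_apply, smul_eq_mul] at h1
  rw [Measure.bind_apply hS hmeas.aemeasurable, Measure.restrict_apply hS] at h1
  rw [h1]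
  refine lintegral_congr fun ω => ?_
  rw [Measure.restrict_apply hS]

lemma cover (d : ℕ) (ι : Type) [Fintype ι] : ∃ A : ℕ → ι → Set (E d),
    (∀ n i, MeasurableSet (A n i)) ∧ (∀ n i, Bornology.IsBounded (A n i)) ∧
    (∀ n, Pairwise (fun i j => Disjoint (A n i) (A n j))) ∧
    {x : ι → E d | Function.Injective x} ⊆ ⋃ n, pi univ (A n) := by
  classical
  have h1 : ∀ x : ι → E d, ∃ B : ι → Set (E d), Function.Injective x →
      ((∀ i, MeasurableSet (B i)) ∧ (∀ i, Bornology.IsBounded (B i)) ∧
      (Pairwise (fun i j => Disjoint (B i) (B j))) ∧ pi univ B ∈ nhds x) := by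
    intro x
    obtain ⟨U, hU, hUd⟩ := (Set.finite_range x).t2_separation
    refine ⟨fun i => U (x i) ∩ Metric.ball (x i) 1, fun hx => ⟨fun i => ?_, fun i => ?_, ?_, ?_⟩⟩
    · exact (hU _).2.measurableSet.inter measurableSet_ball
    · exact Metric.isBounded_ball.subset inter_subset_right
    · intro i j hij
      exact (hUd (mem_range_self i) (mem_range_self j) (fun hh => hij (hx hh))).mono
        inter_subset_left inter_subset_left
    · refine set_pi_mem_nhds finite_univ fun i _ => ?_
      exact Filter.inter_mem ((hU _).2.mem_nhds (hU _).1) (Metric.ball_mem_nhds _ one_pos)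
  choose B hB using h1
  obtain ⟨t, hts, htc, hcov⟩ := TopologicalSpace.countable_cover_nhdsWithin
    (s := {x : ι → E d | Function.Injective x}) (f := fun x => pi univ (B x))
    (fun x hx => mem_nhdsWithin_of_mem_nhds (hB x hx).2.2.2)
  rcases t.eq_empty_or_nonempty with rfl | hne
  · refine ⟨fun _ _ => ∅, fun _ _ => MeasurableSet.empty, fun _ _ => Bornology.isBounded_empty,
      fun _ _ _ _ => disjoint_bot_left, ?_⟩
    intro x hx
    have := hcov hx
    simp at this
  · obtain ⟨g, rfl⟩ := htc.exists_eq_range hne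
    refine ⟨fun n => B (g n), fun n => (hB _ (hts (mem_range_self n))).1,
      fun n => (hB _ (hts (mem_range_self n))).2.1,
      fun n => (hB _ (hts (mem_range_self n))).2.2.1, ?_⟩
    intro x hx
    have := hcov hx
    simpa using this

lemma null_noninj (hd : 1 ≤ d) :
    (volume : Measure (ι → E d)) {x | ¬ Function.Injective x} = 0 := by
  classical
  have h1 : {x : ι → E d | ¬ Function.Injective x} ⊆
      ⋃ p : {p : ι × ι // p.1 ≠ p.2}, {x : ι → E d | x p.1.1 = x p.1.2} := by
    intro x hx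
    simp only [Function.Injective, mem_ofPred_eq] at hx
    push Not at hx
    obtain ⟨i, j, hij, hne⟩ := hx
    exact mem_iUnion.2 ⟨⟨(i, j), hne⟩, hij⟩
  refine measure_mono_null h1 ((measure_iUnion_null_iff).2 ?_)
  rintro ⟨⟨i, j⟩, hij⟩
  simp only at hij
  let L : (ι → E d) →ₗ[ℝ] E d := (LinearMap.proj (R := ℝ) (φ := fun _ : ι => E d) i) -
    (LinearMap.proj (R := ℝ) (φ := fun _ : ι => E d) j)
  have h2 : {x : ι → E d | x i = x j} = (LinearMap.ker L : Submodule ℝ (ι → E d)) := by
    ext x
    simp [L, sub_eq_zero]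
  change volume {x : ι → E d | x i = x j} = 0
  rw [h2]
  refine Measure.addHaar_submodule _ _ ?_
  intro htop
  let e : E d := EuclideanSpace.single ⟨0, hd⟩ 1
  have h3 : (Pi.single i e : ι → E d) ∈ LinearMap.ker L := by rw [htop]; trivial
  have h4 : e = 0 := by
    have := LinearMap.mem_ker.1 h3
    simpa [L, Pi.single_eq_of_ne hij.symm] using this
  have h5 : ‖e‖ = 1 := by simp [e]
  rw [h4, norm_zero] at h5
  exact zero_ne_one h5

lemma decomp {X : Type} [MeasurableSpace X] (m : Measure X) (B : ℕ → Set X)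
    (hB : ∀ n, MeasurableSet (B n)) (h0 : m (⋃ n, B n)ᶜ = 0) {S : Set X}
    (hS : MeasurableSet S) : m S = ∑' n, m ((S ∩ disjointed B n) ∩ B n) := by
  have h1 : ∀ n, (S ∩ disjointed B n) ∩ B n = S ∩ disjointed B n := fun n =>
    inter_eq_left.2 (inter_subset_right.trans (disjointed_subset B n))
  simp_rw [h1]
  rw [← measure_iUnion (fun i j hij => ((disjoint_disjointed B hij).mono inter_subset_right
    inter_subset_right)) (fun n => hS.inter (.disjointed hB n)), ← inter_iUnion,
    iUnion_disjointed]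
  exact (measure_inter_conull h0).symm

end tuples

end CAMP

open MeasureTheory Set ProbabilityTheory
open scoped ENNReal

open CAMP in
theorem camp : S_camp := by
  intro Ω _ P _ d lam Z hd hl h ι _ S hS
  obtain ⟨A, hAm, hAb, hAd, hcov⟩ := cover d ι
  set B : ℕ → Set (ι → E d) := fun n => pi univ (A n) with hBdef
  have hBm : ∀ n, MeasurableSet (B n) := fun n => MeasurableSet.univ_pi (hAm n)
  have hnu : ∀ ω, cnt (Z ω) S = ∑' n, nu ι (Z ω) ((S ∩ disjointed B n) ∩ B n) := by
    intro ω
    rw [← nu_apply h ω hS]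
    refine decomp (nu ι (Z ω)) B hBm ?_ hS
    unfold nu
    rw [Measure.restrict_apply (MeasurableSet.iUnion hBm).compl]
    have : (⋃ n, B n)ᶜ ∩ tup ι (Z ω) = ∅ := by
      ext x
      simp only [mem_inter_iff, mem_compl_iff, mem_empty_iff_false, iff_false, not_and]
      intro hx hx2
      exact hx (hcov hx2.1)
    rw [this, measure_empty]
  have hvol : volume S = ∑' n, volume ((S ∩ disjointed B n) ∩ B n) := by
    refine decomp volume B hBm ?_ hS
    refine measure_mono_null ?_ (null_noninj (d := d) (ι := ι) hd)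
    intro x hx hinj
    exact hx (hcov hinj)
  have hmn : ∀ n, Measurable fun ω => nu ι (Z ω) ((S ∩ disjointed B n) ∩ B n) := by
    intro n
    have h1 := measurable_restrict h (hAm n) (hAb n) (hAd n)
    have h2 := (Measure.measurable_coe (hS.inter (.disjointed hBm n))).comp h1
    have h3 : (fun ω => nu ι (Z ω) ((S ∩ disjointed B n) ∩ B n)) =
        (fun μ : Measure (ι → E d) => μ (S ∩ disjointed B n)) ∘
          fun ω => (nu ι (Z ω)).restrict (pi univ (A n)) := by
      funext ω
      exact (Measure.restrict_apply (hS.inter (.disjointed hBm n))).symm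
    rw [h3]
    exact h2
  constructor
  · simp_rw [hnu]
    exact Measurable.tsum hmn
  · simp_rw [hnu]
    rw [lintegral_tsum (fun n => (hmn n).aemeasurable), hvol, ← ENNReal.tsum_mul_left]
    refine tsum_congr fun n => ?_
    rw [mean_restrict h hl (hAm n) (hAb n) (hAd n) (hS.inter (.disjointed hBm n)),
      ENNReal.ofReal_pow hl.le]

end Pool.Agent.Helper89.WD
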