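import Mathlib

/-!
# Width of the typical Poisson-Voronoi cell in high dimension: definitions
-/

namespace Pool.Agent.Helper89.WD

open MeasureTheory Set
open scoped ENNReal

/-- `ℝ^d` with the Euclidean norm and Lebesgue measure. -/
abbrev E (d : ℕ) : Type := EuclideanSpace ℝ (Fin d)

/-- `Z` is a homogeneous Poisson point process on `ℝ^d` of intensity `lam`: a locally finite
random set, the numbers of points of `Z` in Borel sets are measurable, and for pairwise disjoint
Borel sets of finite volume they are independent Poisson variables with means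
`lam * volume`. -/
structure IsPoissonProcess {Ω : Type} [MeasurableSpace Ω] (P : Measure Ω) (d : ℕ) (lam : ℝ)
    (Z : Ω → Set (E d)) : Prop where
  locFin : ∀ (ω : Ω) (R : ℝ), (Z ω ∩ Metric.closedBall 0 R).Finite
  meas : ∀ A : Set (E d), MeasurableSet A → ∀ k : ℕ,
    MeasurableSet {ω | (Z ω ∩ A).encard = (k : ℕ∞)}
  law : ∀ (n : ℕ) (A : Fin n → Set (E d)) (k : Fin n → ℕ), (∀ i, MeasurableSet (A i)) →
    (∀ i, volume (A i) ≠ ⊤) → Pairwise (fun i j => Disjoint (A i) (A j)) →
    P {ω | ∀ i, (Z ω ∩ A i).encard = (k i : ℕ∞)} =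
      ∏ i, ENNReal.ofReal (Real.exp (-(lam * (volume (A i)).toReal)) *
        (lam * (volume (A i)).toReal) ^ (k i) / (k i).factorial)

/-- The Voronoi cell of the origin in the tessellation of `Z ∪ {0}`. -/
def cell {d : ℕ} (Z : Set (E d)) : Set (E d) := {x | ∀ z ∈ Z, ‖x‖ ≤ ‖x - z‖}

/-- The width of `K` in the direction `u`. -/
noncomputable def widthDir {d : ℕ} (u : E d) (K : Set (E d)) : ℝ :=
  sSup ((fun x => inner ℝ u x) '' K) - sInf ((fun x => inner ℝ u x) '' K)

/-- The width of `K`. -/
noncomputable def width {d : ℕ} (K : Set (E d)) : ℝ :=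
  sInf {w | ∃ u : E d, ‖u‖ = 1 ∧ w = widthDir u K}

/-- The volume of the unit ball of `ℝ^d`. -/
noncomputable def kappa (d : ℕ) : ℝ := (volume (Metric.ball (0 : E d) 1)).toReal

/-- The normalised width of the typical cell. -/
noncomputable def W (d : ℕ) (lam : ℝ) (Z : Set (E d)) : ℝ :=
  (lam * kappa d) ^ (1 / (d : ℝ)) * width (cell Z)

end Pool.Agent.Helper89.WD
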