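import Pool.Agent.Helper89.WD.Stm

namespace Pool.Agent.Helper89.WD

open MeasureTheory Set
open scoped ENNReal

lemma cfg_nonneg {ε v : ℝ} (h : Cfg ε v) : 0 ≤ v := by
  obtain ⟨n, G, α, γ, -, -, h1, -, -, h2⟩ := h
  rw [← h2]
  exact Finset.sum_nonneg fun i _ => (h1 i).1.trans (h1 i).2

lemma cfg_mono {ε ε' v : ℝ} (hε : 0 ≤ ε) (hle : ε ≤ ε') (h : Cfg ε v) : Cfg ε' v := by
  obtain ⟨n, G, α, γ, a, b, c, e, f, g⟩ := h
  exact ⟨n, G, α, γ, a, b, c, e, f.trans (by gcongr), g⟩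

lemma zero_mem_cell {d : ℕ} (Z : Set (E d)) : (0 : E d) ∈ cell Z := by
  intro z _
  simp

lemma widthDir_bounds {d : ℕ} {K : Set (E d)} (hK : K ⊆ Metric.closedBall 0 4) (h0 : (0 : E d) ∈ K)
    {u : E d} (hu : ‖u‖ = 1) : 0 ≤ widthDir u K ∧ widthDir u K ≤ 8 := by
  have hb : ∀ x ∈ K, |inner ℝ u x| ≤ 4 := by
    intro x hx
    have h1 := hK hx
    rw [Metric.mem_closedBall, dist_zero_right] at h1
    calc |inner ℝ u x| ≤ ‖u‖ * ‖x‖ := abs_real_inner_le_norm u x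
      _ ≤ 4 := by rw [hu, one_mul]; exact h1
  have hne : ((fun x => inner ℝ u x) '' K).Nonempty := ⟨_, 0, h0, rfl⟩
  have hz : (0 : ℝ) ∈ ((fun x => inner ℝ u x) '' K) := ⟨0, h0, by simp⟩
  have ha : BddAbove ((fun x => inner ℝ u x) '' K) := by
    refine ⟨4, ?_⟩
    rintro _ ⟨x, hx, rfl⟩
    exact (abs_le.1 (hb x hx)).2
  have hbb : BddBelow ((fun x => inner ℝ u x) '' K) := by
    refine ⟨-4, ?_⟩
    rintro _ ⟨x, hx, rfl⟩
    exact (abs_le.1 (hb x hx)).1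
  have h1 : sSup ((fun x => inner ℝ u x) '' K) ≤ 4 := by
    refine csSup_le hne ?_
    rintro _ ⟨x, hx, rfl⟩
    exact (abs_le.1 (hb x hx)).2
  have h2 : -4 ≤ sInf ((fun x => inner ℝ u x) '' K) := by
    refine le_csInf hne ?_
    rintro _ ⟨x, hx, rfl⟩
    exact (abs_le.1 (hb x hx)).1
  have h3 : 0 ≤ sSup ((fun x => inner ℝ u x) '' K) := le_csSup ha hz
  have h4 : sInf ((fun x => inner ℝ u x) '' K) ≤ 0 := csInf_le hbb hz
  unfold widthDir
  constructor <;> linarith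

lemma width_le_eight {d : ℕ} (hd : 1 ≤ d) {K : Set (E d)} (hK : K ⊆ Metric.closedBall 0 4)
    (h0 : (0 : E d) ∈ K) : width K ≤ 8 := by
  have hbb : BddBelow {w | ∃ u : E d, ‖u‖ = 1 ∧ w = widthDir u K} := by
    refine ⟨0, ?_⟩
    rintro w ⟨u, hu, rfl⟩
    exact (widthDir_bounds hK h0 hu).1
  have hu : ‖EuclideanSpace.single (⟨0, hd⟩ : Fin d) (1 : ℝ)‖ = 1 := by simp
  refine (csInf_le hbb ⟨_, hu, rfl⟩).trans (widthDir_bounds hK h0 hu).2

lemma low_prob (h1 : S_first) (h3 : S_out) (h4 : S_low) (ε : ℝ) (hε : 0 < ε) (η : ℝ) (hη : 0 < η) :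
    ∃ d₀ : ℕ, 1 ≤ d₀ ∧ ∀ d ≥ d₀, ∀ (Ω : Type) [MeasurableSpace Ω] (P : Measure Ω)
      [IsProbabilityMeasure P] (Z : Ω → Set (E d)), IsPoissonProcess P d (kappa d)⁻¹ Z →
      P {ω | ¬ (cell (Z ω) ⊆ Metric.closedBall 0 4 ∧
        ∃ v, Cfg ε v ∧ v ≤ width (cell (Z ω)) + ε)} ≤ ENNReal.ofReal η := by
  obtain ⟨N, R, δ, hδ, hδ1, hL⟩ := h4 ε hε
  have hη2 : 0 < η / (2 * ((N : ℝ) + 1)) := by positivity
  choose d1 hd1 using fun n : ℕ => h1 n R δ (η / (2 * ((N : ℝ) + 1))) hδ hη2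
  obtain ⟨d3, hd3⟩ := h3 (η / 2) (by positivity)
  refine ⟨max 1 (max d3 ((Finset.range (N + 1)).sup d1)), le_max_left _ _, ?_⟩
  intro d hd Ω _ P _ Z hZ
  have hd0 : 1 ≤ d := (le_max_left _ _).trans hd
  have hd3' : d3 ≤ d := ((le_max_left _ _).trans (le_max_right _ _)).trans hd
  have hd1' : ∀ n ∈ Finset.range (N + 1), d1 n ≤ d := fun n hn =>
    (Finset.le_sup hn).trans (((le_max_right _ _).trans (le_max_right _ _)).trans hd)
  have hsub : {ω | ¬ (cell (Z ω) ⊆ Metric.closedBall 0 4 ∧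
        ∃ v, Cfg ε v ∧ v ≤ width (cell (Z ω)) + ε)} ⊆
      {ω | ¬ cell (Z ω) ⊆ Metric.closedBall 0 4} ∪
      ⋃ n ∈ Finset.range (N + 1), {ω | ∃ x : Fin n → E d, Function.Injective x ∧
        (∀ i, x i ∈ Z ω ∧ ‖x i‖ ≤ R) ∧ (gr x).det < 1 - δ} := by
    intro ω hω
    by_contra hc
    rw [mem_union, not_or] at hc
    obtain ⟨hc1, hc2⟩ := hc
    have hc1' : cell (Z ω) ⊆ Metric.closedBall 0 4 := by
      by_contra h
      exact hc1 h
    apply hω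
    refine ⟨hc1', hL d hd0 (Z ω) hc1' ?_⟩
    intro n hn x hx hxR
    by_contra hdet
    apply hc2
    simp only [mem_iUnion]
    exact ⟨n, Finset.mem_range.2 (by omega), x, hx, hxR, by linarith⟩
  calc P _ ≤ P ({ω | ¬ cell (Z ω) ⊆ Metric.closedBall 0 4} ∪
      ⋃ n ∈ Finset.range (N + 1), {ω | ∃ x : Fin n → E d, Function.Injective x ∧
        (∀ i, x i ∈ Z ω ∧ ‖x i‖ ≤ R) ∧ (gr x).det < 1 - δ}) := measure_mono hsub
    _ ≤ P {ω | ¬ cell (Z ω) ⊆ Metric.closedBall 0 4} + P (⋃ n ∈ Finset.range (N + 1),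
        {ω | ∃ x : Fin n → E d, Function.Injective x ∧
        (∀ i, x i ∈ Z ω ∧ ‖x i‖ ≤ R) ∧ (gr x).det < 1 - δ}) := measure_union_le _ _
    _ ≤ ENNReal.ofReal (η / 2) + ∑ n ∈ Finset.range (N + 1),
        P {ω | ∃ x : Fin n → E d, Function.Injective x ∧
        (∀ i, x i ∈ Z ω ∧ ‖x i‖ ≤ R) ∧ (gr x).det < 1 - δ} :=
        add_le_add (hd3 d hd3' Ω P Z hZ) (measure_biUnion_finset_le _ _)
    _ ≤ ENNReal.ofReal (η / 2) + ∑ n ∈ Finset.range (N + 1),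
        ENNReal.ofReal (η / (2 * ((N : ℝ) + 1))) := by
        gcongr with n hn
        exact hd1 n d (hd1' n hn) Ω P Z hZ
    _ = ENNReal.ofReal η := by
        rw [← ENNReal.ofReal_sum_of_nonneg (fun _ _ => hη2.le), ← ENNReal.ofReal_add (by positivity)
          (Finset.sum_nonneg fun _ _ => hη2.le)]
        congr 1
        rw [Finset.sum_const, Finset.card_range, nsmul_eq_mul]
        push_cast
        field_simp
        ring

lemma up_prob (h2 : S_second) (h3 : S_out) (h5 : S_upg) (h6 : S_pert) (ε v : ℝ) (hε : 0 < ε)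
    (hv : Cfg ε v) (e : ℝ) (he : 0 < e) (η : ℝ) (hη : 0 < η) :
    ∃ d₀ : ℕ, ∀ d ≥ d₀, ∀ (Ω : Type) [MeasurableSpace Ω] (P : Measure Ω)
      [IsProbabilityMeasure P] (Z : Ω → Set (E d)), IsPoissonProcess P d (kappa d)⁻¹ Z →
      P {ω | ¬ width (cell (Z ω)) ≤ v + 8 * ε + e} ≤ ENNReal.ofReal η := by
  obtain ⟨n, G, α, γ, hG, hD, hdiag, hαγ, hQ1, hQ2, hsum⟩ := h6 ε v (e / 2) hε (by positivity) hv
  have hGii : ∀ i, 1 ≤ G i i := by
    intro i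
    have h := hD {i} ⟨i, Finset.mem_singleton_self i⟩
    have h' : D G {i} = G i i := by
      unfold D
      have hu : ∀ a : (({i} : Finset (Fin n)) : Type), (a : Fin n) = i := fun a =>
        Finset.mem_singleton.1 a.2
      rw [Matrix.det_unique, Matrix.submatrix_apply, hu]
    rw [h'] at h
    exact h.le
  obtain ⟨δ, hδ, hU⟩ := h5 n G α γ (2 * ε) (e / 2) (by positivity) (by positivity) hGii hαγ hQ1 hQ2
  obtain ⟨d2, hd2⟩ := h2 n G hG hD hdiag δ hδ (η / 2) (by positivity)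
  obtain ⟨d3, hd3⟩ := h3 (η / 2) (by positivity)
  refine ⟨max d2 d3, ?_⟩
  intro d hd Ω _ P _ Z hZ
  have hsub : {ω | ¬ width (cell (Z ω)) ≤ v + 8 * ε + e} ⊆
      {ω | ¬ ∃ x : Fin n → E d, (∀ i, x i ∈ Z ω) ∧ x ∈ T G δ d} ∪
      {ω | ¬ cell (Z ω) ⊆ Metric.closedBall 0 4} := by
    intro ω hω
    by_contra hc
    rw [mem_union, not_or] at hc
    obtain ⟨hc1, hc2⟩ := hc
    have hc1' : ∃ x : Fin n → E d, (∀ i, x i ∈ Z ω) ∧ x ∈ T G δ d := by
      by_contra h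
      exact hc1 h
    have hc2' : cell (Z ω) ⊆ Metric.closedBall 0 4 := by
      by_contra h
      exact hc2 h
    apply hω
    have := hU d (Z ω) hc2' hc1'
    linarith
  calc P _ ≤ _ := measure_mono hsub
    _ ≤ _ := measure_union_le _ _
    _ ≤ ENNReal.ofReal (η / 2) + ENNReal.ofReal (η / 2) :=
        add_le_add (hd2 d ((le_max_left _ _).trans hd) Ω P Z hZ)
          (hd3 d ((le_max_right _ _).trans hd) Ω P Z hZ)
    _ = ENNReal.ofReal η := by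
        rw [← ENNReal.ofReal_add (by positivity) (by positivity)]
        congr 1
        ring

theorem final (h1 : S_first) (h2 : S_second) (h3 : S_out) (h4 : S_low) (h5 : S_upg) (h6 : S_pert)
    (h7 : S_scale) : S_final := by
  refine ⟨⨆ k : ℕ, sInf {v | Cfg (1 / ((k : ℝ) + 1)) v}, ?_⟩
  intro Ω _ P _ lam Z hlam hZ
  have hZ' : ∀ d, ∀ hd : 1 ≤ d, ∃ Z' : Ω d → Set (E d),
      IsPoissonProcess (P d) d (kappa d)⁻¹ Z' ∧
      ∀ ω, W d (lam d) (Z d ω) = width (cell (Z' ω)) := fun d hd =>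
    h7 (Ω d) (P d) d (lam d) (Z d) hd (hlam d hd) (hZ d hd)
  choose Z' hP hW using hZ'
  have hbdd : ∀ k : ℕ, BddBelow {v | Cfg (1 / ((k : ℝ) + 1)) v} := fun k =>
    ⟨0, fun v hv => cfg_nonneg hv⟩
  have hk : ∀ k : ℕ, ∃ v, Cfg (1 / ((k : ℝ) + 1)) v ∧ v ≤ 9 := by
    intro k
    have hk1 : 0 < 1 / ((k : ℝ) + 1) := by positivity
    obtain ⟨d₀, hd1, hd0⟩ := low_prob h1 h3 h4 (1 / ((k : ℝ) + 1)) hk1 (1 / 2) (by norm_num)
    have h := hd0 d₀ le_rfl (Ω d₀) (P d₀) (Z' d₀ hd1) (hP d₀ hd1)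
    have hne : ∃ ω, (cell (Z' d₀ hd1 ω) ⊆ Metric.closedBall 0 4 ∧
        ∃ v, Cfg (1 / ((k : ℝ) + 1)) v ∧
          v ≤ width (cell (Z' d₀ hd1 ω)) + 1 / ((k : ℝ) + 1)) := by
      by_contra hc
      push Not at hc
      have huniv : {ω | ¬ (cell (Z' d₀ hd1 ω) ⊆ Metric.closedBall 0 4 ∧
        ∃ v, Cfg (1 / ((k : ℝ) + 1)) v ∧
          v ≤ width (cell (Z' d₀ hd1 ω)) + 1 / ((k : ℝ) + 1))} = univ := by
        apply eq_univ_of_forall
        intro ω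
        rintro ⟨ha, v, hv, hvw⟩
        exact absurd hvw (not_le.2 (hc ω ha v hv))
      rw [huniv, measure_univ] at h
      have h' : (1 : ℝ≥0∞) ≤ ENNReal.ofReal (1 / 2) := h
      rw [← ENNReal.ofReal_one, ENNReal.ofReal_le_ofReal_iff (by norm_num)] at h'
      norm_num at h'
    obtain ⟨ω, hω, v, hv, hvw⟩ := hne
    refine ⟨v, hv, hvw.trans ?_⟩
    have h8 := width_le_eight hd1 hω (zero_mem_cell _)
    have h9 : 1 / ((k : ℝ) + 1) ≤ 1 := by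
      rw [div_le_one (by positivity)]
      have : (0 : ℝ) ≤ k := Nat.cast_nonneg k
      linarith
    linarith
  have hle9 : ∀ k : ℕ, sInf {v | Cfg (1 / ((k : ℝ) + 1)) v} ≤ 9 := by
    intro k
    obtain ⟨v, hv, hv9⟩ := hk k
    exact (csInf_le (hbdd k) hv).trans hv9
  have hBA : BddAbove (range fun k : ℕ => sInf {v | Cfg (1 / ((k : ℝ) + 1)) v}) := by
    refine ⟨9, ?_⟩
    rintro _ ⟨k, rfl⟩
    exact hle9 k
  have hmono : Monotone fun k : ℕ => sInf {v | Cfg (1 / ((k : ℝ) + 1)) v} := by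
    intro k l hkl
    obtain ⟨v, hv, -⟩ := hk l
    refine csInf_le_csInf (hbdd k) ⟨v, hv⟩ ?_
    intro w hw
    refine cfg_mono (by positivity) ?_ hw
    have : (k : ℝ) ≤ l := by exact_mod_cast hkl
    exact one_div_le_one_div_of_le (by positivity) (by linarith)
  set c : ℝ := ⨆ k : ℕ, sInf {v | Cfg (1 / ((k : ℝ) + 1)) v} with hc
  intro ε hε
  rw [ENNReal.tendsto_atTop_zero]
  intro η hη
  obtain ⟨r, hr0, hrη⟩ := ENNReal.lt_iff_exists_nnreal_btwn.1 hη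
  have hr0' : (0 : ℝ) < r := by
    have : (0 : NNReal) < r := by exact_mod_cast hr0
    exact_mod_cast this
  -- choice of `k`
  obtain ⟨k1, hk1⟩ : ∃ k : ℕ, c - ε / 4 < sInf {v | Cfg (1 / ((k : ℝ) + 1)) v} := by
    exact exists_lt_of_lt_ciSup (by rw [← hc]; linarith)
  obtain ⟨k2, hk2⟩ : ∃ k : ℕ, 1 / ((k : ℝ) + 1) < ε / 16 :=
    exists_nat_one_div_lt (by positivity)
  set k := max k1 k2 with hkdef
  have hkc : c - ε / 4 < sInf {v | Cfg (1 / ((k : ℝ) + 1)) v} :=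
    lt_of_lt_of_le hk1 (hmono (le_max_left k1 k2))
  have hkε : 1 / ((k : ℝ) + 1) < ε / 16 := by
    refine lt_of_le_of_lt ?_ hk2
    have : (k2 : ℝ) ≤ k := by exact_mod_cast le_max_right k1 k2
    exact one_div_le_one_div_of_le (by positivity) (by linarith)
  have hkpos : 0 < 1 / ((k : ℝ) + 1) := by positivity
  have hle : sInf {v | Cfg (1 / ((k : ℝ) + 1)) v} ≤ c := le_ciSup hBA k
  obtain ⟨v, hv, hvlt⟩ : ∃ v, Cfg (1 / ((k : ℝ) + 1)) v ∧ v < c + ε / 8 := by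
    have hne : {v | Cfg (1 / ((k : ℝ) + 1)) v}.Nonempty := by
      obtain ⟨v, hv, -⟩ := hk k
      exact ⟨v, hv⟩
    obtain ⟨v, hv, hv2⟩ := exists_lt_of_csInf_lt hne
      (show sInf {v | Cfg (1 / ((k : ℝ) + 1)) v} < c + ε / 8 by linarith)
    exact ⟨v, hv, hv2⟩
  obtain ⟨dl, hdl1, hdl⟩ := low_prob h1 h3 h4 (1 / ((k : ℝ) + 1)) hkpos (r / 2) (by positivity)
  obtain ⟨du, hdu⟩ := up_prob h2 h3 h5 h6 (1 / ((k : ℝ) + 1)) v hkpos hv (ε / 8) (by positivity)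
    (r / 2) (by positivity)
  refine ⟨max dl du, ?_⟩
  intro d hd
  have hd1 : 1 ≤ d := hdl1.trans ((le_max_left _ _).trans hd)
  have hA := hdl d ((le_max_left _ _).trans hd) (Ω d) (P d) (Z' d hd1) (hP d hd1)
  have hB := hdu d ((le_max_right _ _).trans hd) (Ω d) (P d) (Z' d hd1) (hP d hd1)
  have hsub : {ω | ε < |W d (lam d) (Z d ω) - c|} ⊆
      {ω | ¬ (cell (Z' d hd1 ω) ⊆ Metric.closedBall 0 4 ∧
        ∃ v, Cfg (1 / ((k : ℝ) + 1)) v ∧
          v ≤ width (cell (Z' d hd1 ω)) + 1 / ((k : ℝ) + 1))} ∪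
      {ω | ¬ width (cell (Z' d hd1 ω)) ≤ v + 8 * (1 / ((k : ℝ) + 1)) + ε / 8} := by
    intro ω hω
    by_contra hcon
    rw [mem_union, not_or] at hcon
    obtain ⟨hc1, hc2⟩ := hcon
    have hc1' : (cell (Z' d hd1 ω) ⊆ Metric.closedBall 0 4 ∧
        ∃ v, Cfg (1 / ((k : ℝ) + 1)) v ∧
          v ≤ width (cell (Z' d hd1 ω)) + 1 / ((k : ℝ) + 1)) := by
      by_contra h
      exact hc1 h
    have hc2' : width (cell (Z' d hd1 ω)) ≤ v + 8 * (1 / ((k : ℝ) + 1)) + ε / 8 := by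
      by_contra h
      exact hc2 h
    obtain ⟨-, v', hv', hvw'⟩ := hc1'
    have hinf : sInf {v | Cfg (1 / ((k : ℝ) + 1)) v} ≤ v' := csInf_le (hbdd k) hv'
    have hω' : ε < |W d (lam d) (Z d ω) - c| := hω
    rw [hW d hd1 ω] at hω'
    rcases lt_abs.1 hω' with h | h <;> linarith
  calc P d _ ≤ _ := measure_mono hsub
    _ ≤ _ := measure_union_le _ _
    _ ≤ ENNReal.ofReal (r / 2) + ENNReal.ofReal (r / 2) := add_le_add hA hB
    _ = ENNReal.ofReal r := by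
        rw [← ENNReal.ofReal_add (by positivity) (by positivity)]
        congr 1
        ring
    _ = r := ENNReal.ofReal_coe_nnreal
    _ ≤ η := hrη.le

end Pool.Agent.Helper89.WD
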