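import Pool.Agent.Helper89.WD.Stm

namespace Pool.Agent.Helper89.WD

open MeasureTheory Set
open scoped ENNReal

lemma kappa_pos (d : ℕ) : 0 < kappa d := by
  unfold kappa
  refine ENNReal.toReal_pos ?_ ?_
  · exact (Metric.measure_ball_pos volume (0 : E d) one_pos).ne'
  · exact measure_ball_lt_top.ne

lemma continuous_det_gr (n d : ℕ) : Continuous fun x : Fin n → E d => (gr x).det := by
  apply Continuous.matrix_det
  apply continuous_matrix
  intro i j
  show Continuous fun x : Fin n → E d => inner ℝ (x i) (x j)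
  exact Continuous.inner (continuous_apply i) (continuous_apply j)

theorem first (hc : S_camp) (h1 : S_vone) : S_first := by
  intro n R δ η hδ hη
  obtain ⟨d₀, hd₀⟩ := h1 n R δ η hδ hη
  refine ⟨max 1 d₀, ?_⟩
  intro d hd Ω _ P _ Z hZ
  have hd1 : 1 ≤ d := (le_max_left _ _).trans hd
  have hv := hd₀ d ((le_max_right _ _).trans hd)
  set S : Set (Fin n → E d) := {x | (∀ i, ‖x i‖ ≤ R) ∧ (gr x).det ≤ 1 - δ} with hS
  have hSm : MeasurableSet S := by
    have h1 : IsClosed S := by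
      have : S = (⋂ i, {x : Fin n → E d | ‖x i‖ ≤ R}) ∩ {x | (gr x).det ≤ 1 - δ} := by
        ext x
        simp [hS]
      rw [this]
      refine IsClosed.inter (isClosed_iInter fun i => ?_) ?_
      · exact isClosed_le (continuous_norm.comp (continuous_apply i)) continuous_const
      · exact isClosed_le (continuous_det_gr n d) continuous_const
    exact h1.measurableSet
  have hk := kappa_pos d
  obtain ⟨hm, hI⟩ := hc Ω P d (kappa d)⁻¹ Z hd1 (inv_pos.2 hk) hZ (Fin n) S hSm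
  have hsub : {ω | ∃ x : Fin n → E d, Function.Injective x ∧ (∀ i, x i ∈ Z ω ∧ ‖x i‖ ≤ R) ∧
      (gr x).det < 1 - δ} ⊆ {ω | (1 : ℝ≥0∞) ≤ cnt (Z ω) S} := by
    rintro ω ⟨x, hx, hxZ, hdet⟩
    have hmem : x ∈ ({x : Fin n → E d | Function.Injective x ∧ ∀ i, x i ∈ Z ω} ∩ S) :=
      ⟨⟨hx, fun i => (hxZ i).1⟩, fun i => (hxZ i).2, hdet.le⟩
    have h2 : (1 : ℕ∞) ≤ ({x : Fin n → E d | Function.Injective x ∧ ∀ i, x i ∈ Z ω} ∩ S).encard := by
      rw [Set.one_le_encard_iff_nonempty]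
      exact ⟨x, hmem⟩
    show (1 : ℝ≥0∞) ≤ cnt (Z ω) S
    unfold cnt
    exact_mod_cast h2
  calc P _ ≤ P {ω | (1 : ℝ≥0∞) ≤ cnt (Z ω) S} := measure_mono hsub
    _ ≤ ∫⁻ ω, cnt (Z ω) S ∂P := by
        have := mul_meas_ge_le_lintegral (μ := P) hm 1
        simpa using this
    _ = ENNReal.ofReal ((kappa d)⁻¹ ^ n) * volume S := by
        rw [hI, Fintype.card_fin]
    _ ≤ ENNReal.ofReal ((kappa d)⁻¹ ^ n) * ENNReal.ofReal (η * kappa d ^ n) := by
        gcongr
    _ = ENNReal.ofReal η := by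
        rw [← ENNReal.ofReal_mul (by positivity)]
        congr 1
        rw [inv_pow]
        field_simp

end Pool.Agent.Helper89.WD
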