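import Pool.Agent.Helper89.WD.Stm2

/-!
# LOW-1: the greedy lemma
-/

set_option autoImplicit false

namespace Pool.Agent.Helper89.WD

open Set

namespace Low1

variable {d : ℕ} {Z : Set (E d)}

theorem mem_cell_iff (hZ : ∀ z ∈ Z, 1 / 2 ≤ ‖z‖) (x : E d) :
    x ∈ cell Z ↔ ∀ z ∈ Z, inner ℝ ((2 / ‖z‖ ^ 2) • z) x ≤ 1 := by
  refine forall₂_congr fun z hz => ?_
  have h0 : 0 < ‖z‖ := by have := hZ z hz; linarith
  rw [inner_smul_left, conj_trivial, ← pow_le_pow_iff_left₀ (norm_nonneg _) (norm_nonneg _)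
    two_ne_zero, norm_sub_sq_real, div_mul_eq_mul_div, div_le_one (by positivity),
    real_inner_comm]
  constructor <;> intro h <;> linarith

theorem zero_mem_cell : (0 : E d) ∈ cell Z := by
  intro z _
  rw [norm_zero]
  exact norm_nonneg _

theorem small_mem_cell (hZ : ∀ z ∈ Z, 1 / 2 ≤ ‖z‖) {x : E d} (hx : ‖x‖ ≤ 1 / 4) :
    x ∈ cell Z := by
  intro z hz
  have h1 := hZ z hz
  have h2 := norm_sub_norm_le z x
  rw [norm_sub_rev] at h2
  linarith

/-- The value in the direction `u`. -/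
noncomputable def sv (u : E d) (Z : Set (E d)) : ℝ := sSup ((fun x => inner ℝ u x) '' cell Z)

theorem sv_bdd (hV : cell Z ⊆ Metric.closedBall 0 4) {u : E d} (hu : ‖u‖ = 1) :
    ∀ r ∈ (fun x => inner ℝ u x) '' cell Z, r ≤ 4 := by
  rintro _ ⟨x, hx, rfl⟩
  have h1 := hV hx
  rw [Metric.mem_closedBall, dist_zero_right] at h1
  have h2 := real_inner_le_norm u x
  rw [hu, one_mul] at h2
  exact h2.trans h1

theorem le_sv (hV : cell Z ⊆ Metric.closedBall 0 4) {u : E d} (hu : ‖u‖ = 1) {x : E d}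
    (hx : x ∈ cell Z) : inner ℝ u x ≤ sv u Z :=
  le_csSup ⟨4, fun r hr => sv_bdd hV hu r hr⟩ ⟨x, hx, rfl⟩

theorem sv_le (hV : cell Z ⊆ Metric.closedBall 0 4) {u : E d} (hu : ‖u‖ = 1) : sv u Z ≤ 4 :=
  csSup_le ⟨_, 0, zero_mem_cell, rfl⟩ (sv_bdd hV hu)

theorem sv_pos (hV : cell Z ⊆ Metric.closedBall 0 4) (hZ : ∀ z ∈ Z, 1 / 2 ≤ ‖z‖) {u : E d}
    (hu : ‖u‖ = 1) : 0 < sv u Z := by
  have h1 := le_sv hV hu (small_mem_cell hZ (x := (1 / 4 : ℝ) • u) (by
    rw [norm_smul, hu, Real.norm_of_nonneg (by norm_num), mul_one]))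
  rw [inner_smul_right, real_inner_self_eq_norm_sq, hu] at h1
  linarith

/-- The possible steps. -/
def Stp (Z : Set (E d)) (y : E d) : Prop := y = 0 ∨ ∃ z ∈ Z, y = (2 / ‖z‖ ^ 2) • z

theorem step (hV : cell Z ⊆ Metric.closedBall 0 4) (hZ : ∀ z ∈ Z, 1 / 2 ≤ ‖z‖) {u : E d}
    (hu : ‖u‖ = 1) (w : E d) {η : ℝ} (hη : 0 < η) :
    ∃ y, Stp Z y ∧ inner ℝ u w - η ≤ sv u Z * inner ℝ y w := by
  by_contra hcon
  push Not at hcon
  have hs := sv_pos hV hZ hu
  have h0 := hcon 0 (Or.inl rfl)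
  rw [inner_zero_left, mul_zero] at h0
  set M := (inner ℝ u w - η) / sv u Z with hM
  have hM0 : 0 < M := div_pos h0 hs
  have hmem : M⁻¹ • w ∈ cell Z := by
    rw [mem_cell_iff hZ]
    intro z hz
    have h1 := hcon _ (Or.inr ⟨z, hz, rfl⟩)
    rw [inner_smul_right, inv_mul_le_iff₀ hM0, mul_one, hM, le_div_iff₀ hs, mul_comm]
    exact h1.le
  have h2 := le_sv hV hu hmem
  rw [inner_smul_right, inv_mul_le_iff₀ hM0, hM, div_mul_cancel₀ _ hs.ne'] at h2
  linarith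

theorem norm_stp (hZ : ∀ z ∈ Z, 1 / 2 ≤ ‖z‖) {y : E d} (hy : Stp Z y) : ‖y‖ ≤ 4 := by
  rcases hy with rfl | ⟨z, hz, rfl⟩
  · rw [norm_zero]; norm_num
  · have h1 := hZ z hz
    have h0 : 0 < ‖z‖ := by linarith
    rw [norm_smul, Real.norm_of_nonneg (by positivity)]
    have e : 2 / ‖z‖ ^ 2 * ‖z‖ = 2 / ‖z‖ := by
      field_simp
    rw [e, div_le_iff₀ h0]
    linarith

end Low1

open Low1

theorem l1 : S_l1 := by
  intro d Z hV hZ u hu m
  show ∃ y : Fin m → E d, (∀ k, Stp Z (y k)) ∧ ‖∑ k, (sv u Z • y k - u)‖ ^ 2 ≤ 290 * m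
  induction m with
  | zero =>
    refine ⟨fun i => i.elim0, fun i => i.elim0, ?_⟩
    simp
  | succ m ih =>
    obtain ⟨y, h1, h2⟩ := ih
    set D := ∑ k, (sv u Z • y k - u) with hD
    obtain ⟨y₀, h3, h4⟩ := step hV hZ hu (-D) (show (0 : ℝ) < 1 / 2 by norm_num)
    refine ⟨Fin.snoc y y₀, fun k => ?_, ?_⟩
    · refine Fin.lastCases ?_ (fun k => ?_) k
      · rw [Fin.snoc_last]
        exact h3
      · rw [Fin.snoc_castSucc]
        exact h1 k
    · rw [Fin.sum_univ_castSucc]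
      simp only [Fin.snoc_castSucc, Fin.snoc_last]
      rw [← hD, norm_add_sq_real]
      have h5 : inner ℝ D (sv u Z • y₀ - u) ≤ 1 / 2 := by
        rw [inner_neg_right, inner_neg_right, mul_neg] at h4
        rw [inner_sub_right, inner_smul_right, real_inner_comm y₀ D, real_inner_comm u D]
        linarith
      have h6 : ‖sv u Z • y₀ - u‖ ≤ 17 := by
        refine (norm_sub_le _ _).trans ?_
        rw [norm_smul, Real.norm_of_nonneg (sv_pos hV hZ hu).le, hu]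
        have := norm_stp hZ h3
        have := sv_le hV hu
        have := sv_pos hV hZ hu
        nlinarith [norm_nonneg y₀]
      have h7 : ‖sv u Z • y₀ - u‖ ^ 2 ≤ 17 ^ 2 := pow_le_pow_left₀ (norm_nonneg _) h6 2
      push_cast
      linarith

end Pool.Agent.Helper89.WD
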