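import Pool.Agent.Helper89.WD.Stm2

namespace Pool.Agent.Helper89.WD

open MeasureTheory Set
open scoped ENNReal

/-- `z ↦ 2 z / ‖z‖ ^ 2`. -/
noncomputable def hat {d : ℕ} (z : E d) : E d := (2 / ‖z‖ ^ 2) • z

lemma hat_zero {d : ℕ} : hat (0 : E d) = 0 := by simp [hat]

lemma norm_hat {d : ℕ} (z : E d) : ‖hat z‖ = 2 / ‖z‖ := by
  by_cases hz : z = 0
  · simp [hz, hat_zero]
  have h : 0 < ‖z‖ := norm_pos_iff.2 hz
  rw [hat, norm_smul, Real.norm_of_nonneg (by positivity)]
  field_simp

lemma hat_hat {d : ℕ} (z : E d) : hat (hat z) = z := by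
  by_cases hz : z = 0
  · simp [hz, hat_zero]
  have h : 0 < ‖z‖ := norm_pos_iff.2 hz
  rw [hat, norm_hat, hat, smul_smul]
  have : 2 / (2 / ‖z‖) ^ 2 * (2 / ‖z‖ ^ 2) = 1 := by
    field_simp
  rw [this, one_smul]

lemma gr_eq {n d : ℕ} (x : Fin n → E d) : gr x = Matrix.gram ℝ x := rfl

lemma Q_gr {n d : ℕ} (x : Fin n → E d) (γ : Fin n → ℝ) :
    Q (gr x) γ = ‖∑ i, γ i • hat (x i)‖ ^ 2 := by
  rw [← real_inner_self_eq_norm_sq, sum_inner]
  unfold Q
  refine Finset.sum_congr rfl fun i _ => ?_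
  rw [inner_sum]
  refine Finset.sum_congr rfl fun j _ => ?_
  rw [hat, hat, inner_smul_left, inner_smul_right, inner_smul_left, inner_smul_right]
  simp only [gr, Matrix.of_apply, real_inner_self_eq_norm_sq, RCLike.conj_to_real]
  by_cases hi : ‖x i‖ = 0
  · simp [hi]
  by_cases hj : ‖x j‖ = 0
  · simp [hj]
  field_simp
  ring

lemma Q_smul {n : ℕ} (G : Matrix (Fin n) (Fin n) ℝ) (γ : Fin n → ℝ) (c : ℝ) (hc : c ≠ 0) :
    Q (c⁻¹ • G) γ = c * Q G γ := by
  unfold Q
  rw [Finset.mul_sum]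
  refine Finset.sum_congr rfl fun i _ => ?_
  rw [Finset.mul_sum]
  refine Finset.sum_congr rfl fun j _ => ?_
  simp only [Matrix.smul_apply, smul_eq_mul]
  by_cases hi : G i i = 0
  · simp [hi]
  by_cases hj : G j j = 0
  · simp [hj]
  field_simp

lemma Q_mul {n : ℕ} (G : Matrix (Fin n) (Fin n) ℝ) (γ : Fin n → ℝ) (c : ℝ) :
    Q G (fun i => c * γ i) = c ^ 2 * Q G γ := by
  unfold Q
  rw [Finset.mul_sum]
  refine Finset.sum_congr rfl fun i _ => ?_
  rw [Finset.mul_sum]
  refine Finset.sum_congr rfl fun j _ => ?_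
  ring

/-- Weights on a finite set from the samples. -/
lemma weights {d m : ℕ} (Z : Set (E d)) (y : Fin m → E d) (hy : ∀ k, y k = 0 ∨ ∃ z ∈ Z, y k = hat z)
    (R : ℝ) (hR : 0 < R) (F : Finset (E d))
    (hF : ∀ k, hat (y k) ∈ Z → ‖hat (y k)‖ ≤ R → hat (y k) ∈ F)
    (s : ℝ) (hs : 0 ≤ s) (hs4 : s ≤ 4) (hm : 0 < m) :
    ∃ α : E d → ℝ, (∀ z, 0 ≤ α z) ∧ ∑ z ∈ F, α z ≤ s ∧
      ‖∑ z ∈ F, α z • hat z - (s / m) • ∑ k, y k‖ ≤ 8 / R := by
  classical
  have hm' : (0 : ℝ) < m := by exact_mod_cast hm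
  set s0 : Finset (Fin m) := Finset.univ.filter (fun k => hat (y k) ∈ F) with hs0
  refine ⟨fun z => s / m * ((s0.filter (fun k => hat (y k) = z)).card : ℝ), ?_, ?_, ?_⟩
  · intro z
    positivity
  · rw [← Finset.mul_sum]
    have h1 : ∑ z ∈ F, ((s0.filter (fun k => hat (y k) = z)).card : ℝ) = (s0.card : ℝ) := by
      rw [← Nat.cast_sum]
      congr 1
      rw [Finset.card_eq_sum_card_fiberwise (f := fun k => hat (y k)) (t := F)]
      intro k hk
      simpa [hs0] using hk
    rw [h1]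
    have h2 : (s0.card : ℝ) ≤ m := by
      have : s0.card ≤ Fintype.card (Fin m) := Finset.card_le_univ _
      rw [Fintype.card_fin] at this
      exact_mod_cast this
    calc s / m * (s0.card : ℝ) ≤ s / m * m := by gcongr
      _ = s := by field_simp
  · have h1 : ∑ z ∈ F, (s / m * ((s0.filter (fun k => hat (y k) = z)).card : ℝ)) • hat z =
        (s / m) • ∑ k ∈ s0, y k := by
      have h2 : ∑ k ∈ s0, y k = ∑ z ∈ F, ∑ k ∈ s0.filter (fun k => hat (y k) = z), y k := by
        rw [Finset.sum_fiberwise_of_maps_to]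
        intro k hk
        simpa [hs0] using hk
      rw [h2, Finset.smul_sum]
      refine Finset.sum_congr rfl fun z _ => ?_
      have h3 : ∑ k ∈ s0.filter (fun k => hat (y k) = z), y k =
          ∑ k ∈ s0.filter (fun k => hat (y k) = z), hat z := by
        refine Finset.sum_congr rfl fun k hk => ?_
        rw [Finset.mem_filter] at hk
        rw [← hk.2, hat_hat]
      rw [h3, Finset.sum_const, mul_smul, ← Nat.cast_smul_eq_nsmul ℝ]
    rw [h1]
    have h4 : ∑ k, y k = ∑ k ∈ s0, y k + ∑ k ∈ Finset.univ.filter (fun k => ¬ hat (y k) ∈ F), y k := by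
      rw [hs0, Finset.sum_filter_add_sum_filter_not]
    have h5 : (s / m) • ∑ k ∈ s0, y k - (s / m) • ∑ k, y k =
        -((s / m) • ∑ k ∈ Finset.univ.filter (fun k => ¬ hat (y k) ∈ F), y k) := by
      rw [h4, smul_add]
      abel
    rw [h5, norm_neg, norm_smul, Real.norm_of_nonneg (by positivity)]
    have h6 : ‖∑ k ∈ Finset.univ.filter (fun k => ¬ hat (y k) ∈ F), y k‖ ≤ m * (2 / R) := by
      calc _ ≤ ∑ k ∈ Finset.univ.filter (fun k => ¬ hat (y k) ∈ F), ‖y k‖ := norm_sum_le _ _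
        _ ≤ ∑ k ∈ Finset.univ.filter (fun k => ¬ hat (y k) ∈ F), (2 / R) := by
            refine Finset.sum_le_sum fun k hk => ?_
            rw [Finset.mem_filter] at hk
            rcases hy k with h | ⟨z, hz, hzk⟩
            · rw [h, norm_zero]
              positivity
            · have hzz : hat (y k) = z := by rw [hzk, hat_hat]
              have hzR : R < ‖z‖ := by
                by_contra hcon
                exact hk.2 (hF k (by rw [hzz]; exact hz) (by rw [hzz]; exact not_lt.1 hcon))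
              rw [hzk, norm_hat]
              exact div_le_div_of_nonneg_left (by norm_num) hR hzR.le
        _ ≤ m * (2 / R) := by
            rw [Finset.sum_const, nsmul_eq_mul]
            gcongr
            have : (Finset.univ.filter (fun k => ¬ hat (y k) ∈ F)).card ≤ Fintype.card (Fin m) :=
              Finset.card_le_univ _
            rw [Fintype.card_fin] at this
            exact_mod_cast this
    calc s / m * ‖∑ k ∈ Finset.univ.filter (fun k => ¬ hat (y k) ∈ F), y k‖
        ≤ s / m * (m * (2 / R)) := by gcongr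
      _ = s * (2 / R) := by field_simp
      _ ≤ 4 * (2 / R) := by gcongr
      _ = 8 / R := by ring

lemma D_gr {n d : ℕ} (x : Fin n → E d) (S : Finset (Fin n)) :
    D (gr x) S = (gr (fun k : Fin S.card => x (S.equivFin.symm k))).det := by
  unfold D
  have : gr (fun k : Fin S.card => x (S.equivFin.symm k)) =
      ((gr x).submatrix (fun i : S => (i : Fin n)) (fun i : S => (i : Fin n))).submatrix
        S.equivFin.symm S.equivFin.symm := rfl
  rw [this, Matrix.det_submatrix_equiv_self]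

lemma D_smul {n : ℕ} (G : Matrix (Fin n) (Fin n) ℝ) (S : Finset (Fin n)) (c : ℝ) :
    D (c • G) S = c ^ S.card * D G S := by
  unfold D
  rw [Matrix.submatrix_smul, Pi.smul_apply, Pi.smul_apply, Matrix.det_smul, Fintype.card_coe]

theorem low2 (h1 : S_l1) : S_low := by
  classical
  intro ε hε
  -- the parameters
  set x : ℝ := min (1 / 4) (ε / 64) with hx
  have hx0 : 0 < x := by rw [hx]; positivity
  have hx4 : x ≤ 1 / 4 := min_le_left _ _
  have hxε : x ≤ ε / 64 := min_le_right _ _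
  obtain ⟨m0, hm0⟩ := exists_nat_ge (1160 / x ^ 2)
  set m : ℕ := m0 + 1 with hm
  have hmpos : 0 < m := Nat.succ_pos _
  have hm' : (0 : ℝ) < m := by exact_mod_cast hmpos
  have hmx : 1160 / x ^ 2 ≤ m := hm0.trans (by rw [hm]; push_cast; linarith)
  refine ⟨2 * m, 16 / x, x, hx0, by linarith, ?_⟩
  intro d hd Z hV hdet
  have hR : 0 < 16 / x := by positivity
  have hR1 : 1 ≤ 16 / x := by
    rw [one_le_div hx0]
    linarith
  -- all points have norm at least `1/2`
  have hhalf : ∀ z ∈ Z, 1 / 2 ≤ ‖z‖ := by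
    intro z hz
    by_cases hzR : ‖z‖ ≤ 16 / x
    · have h := hdet 1 (by omega) (fun _ => z) (fun a b _ => Subsingleton.elim a b)
        (fun _ => ⟨hz, hzR⟩)
      rw [Matrix.det_unique] at h
      have h2 : gr (fun _ : Fin 1 => z) default default = ‖z‖ ^ 2 := by
        simp [gr]
      rw [h2] at h
      nlinarith [norm_nonneg z]
    · linarith [not_le.1 hzR]
  have h0 : (0 : E d) ∈ cell Z := by
    intro z _
    simp
  have hb : ∀ u : E d, ‖u‖ = 1 → ∀ v ∈ cell Z, |inner ℝ u v| ≤ 4 := by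
    intro u hu v hv
    have h1 := hV hv
    rw [Metric.mem_closedBall, dist_zero_right] at h1
    calc |inner ℝ u v| ≤ ‖u‖ * ‖v‖ := abs_real_inner_le_norm u v
      _ ≤ 4 := by rw [hu, one_mul]; exact h1
  have hs : ∀ u : E d, ‖u‖ = 1 → 0 ≤ sSup ((fun x => inner ℝ u x) '' cell Z) ∧
      sSup ((fun x => inner ℝ u x) '' cell Z) ≤ 4 := by
    intro u hu
    constructor
    · refine le_csSup ⟨4, ?_⟩ ⟨0, h0, by simp⟩
      rintro _ ⟨v, hv, rfl⟩
      exact (abs_le.1 (hb u hu v hv)).2
    · refine csSup_le ⟨_, 0, h0, rfl⟩ ?_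
      rintro _ ⟨v, hv, rfl⟩
      exact (abs_le.1 (hb u hu v hv)).2
  -- the direction
  have hne : {w | ∃ u : E d, ‖u‖ = 1 ∧ w = widthDir u (cell Z)}.Nonempty := by
    refine ⟨_, EuclideanSpace.single (⟨0, hd⟩ : Fin d) (1 : ℝ), by simp, rfl⟩
  obtain ⟨_, ⟨u, hu, rfl⟩, huw⟩ := exists_lt_of_csInf_lt hne
    (show width (cell Z) < width (cell Z) + ε / 2 by linarith)
  have hu' : ‖-u‖ = 1 := by rw [norm_neg, hu]
  set s : ℝ := sSup ((fun x => inner ℝ u x) '' cell Z) with hsdef
  set t : ℝ := sSup ((fun x => inner ℝ (-u) x) '' cell Z) with htdef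
  have hst : widthDir u (cell Z) = s + t := by
    have h3 : sInf ((fun x => inner ℝ u x) '' cell Z) = -t := by
      rw [Real.sInf_def, htdef]
      congr 2
      ext w
      simp only [mem_neg, mem_image, inner_neg_left]
      constructor
      · rintro ⟨v, hv, hw⟩
        exact ⟨v, hv, by linarith⟩
      · rintro ⟨v, hv, hw⟩
        exact ⟨v, hv, by linarith⟩
    unfold widthDir
    rw [h3]
    ring
  obtain ⟨hs0, hs4⟩ := hs u hu
  obtain ⟨ht0, ht4⟩ := hs (-u) hu'
  obtain ⟨y, hy, hyn⟩ := h1 d Z hV hhalf u hu m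
  obtain ⟨y', hy', hyn'⟩ := h1 d Z hV hhalf (-u) hu' m
  -- the finite set of points
  set F : Finset (E d) := (Finset.univ.image (fun k => hat (y k)) ∪
    Finset.univ.image (fun k => hat (y' k))).filter (fun z => z ∈ Z ∧ ‖z‖ ≤ 16 / x) with hF
  have hFcard : F.card ≤ 2 * m := by
    calc F.card ≤ (Finset.univ.image (fun k => hat (y k)) ∪
        Finset.univ.image (fun k => hat (y' k))).card := Finset.card_filter_le _ _
      _ ≤ (Finset.univ.image (fun k => hat (y k))).card +
          (Finset.univ.image (fun k => hat (y' k))).card := Finset.card_union_le _ _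
      _ ≤ m + m := by
          refine add_le_add (Finset.card_image_le.trans ?_) (Finset.card_image_le.trans ?_) <;>
          simp
      _ = 2 * m := by ring
  obtain ⟨α, hα0, hαs, hαn⟩ := weights Z y hy (16 / x) hR F (by
    intro k hk1 hk2
    rw [hF, Finset.mem_filter, Finset.mem_union]
    exact ⟨Or.inl (Finset.mem_image_of_mem _ (Finset.mem_univ k)), hk1, hk2⟩) s hs0 hs4 hmpos
  obtain ⟨β, hβ0, hβs, hβn⟩ := weights Z y' hy' (16 / x) hR F (by
    intro k hk1 hk2
    rw [hF, Finset.mem_filter, Finset.mem_union]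
    exact ⟨Or.inr (Finset.mem_image_of_mem (fun k => hat (y' k)) (Finset.mem_univ k)), hk1, hk2⟩)
    t ht0 ht4 hmpos
  -- the sampling error
  have hsamp : ∀ (w : E d) (r : ℝ) (q : Fin m → E d), ‖∑ k, (r • q k - w)‖ ^ 2 ≤ 290 * m →
      ‖(r / m) • ∑ k, q k - w‖ ≤ x / 2 := by
    intro w r q hq
    have h2 : (r / m) • ∑ k, q k - w = (1 / (m : ℝ)) • ∑ k, (r • q k - w) := by
      rw [Finset.sum_sub_distrib, Finset.sum_const, Finset.card_univ, Fintype.card_fin,
        ← Finset.smul_sum, smul_sub, smul_smul, ← Nat.cast_smul_eq_nsmul ℝ, smul_smul]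
      congr 1
      · congr 1
        ring
      · rw [one_div_mul_cancel hm'.ne', one_smul]
    rw [h2, norm_smul, Real.norm_of_nonneg (by positivity)]
    refine abs_le_of_sq_le_sq' ?_ (by positivity) |>.2
    rw [mul_pow]
    calc (1 / (m : ℝ)) ^ 2 * ‖∑ k, (r • q k - w)‖ ^ 2 ≤ (1 / (m : ℝ)) ^ 2 * (290 * (m : ℝ)) := by
          gcongr
      _ = 290 / (m : ℝ) := by field_simp
      _ ≤ (x / 2) ^ 2 := by
          rw [div_le_iff₀ hm']
          have h3 : 1160 ≤ m * x ^ 2 := by
            rwa [div_le_iff₀ (by positivity)] at hmx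
          nlinarith
  have hA : ‖∑ z ∈ F, α z • hat z - u‖ ≤ x := by
    have h2 := hsamp u s y hyn
    have h3 : ∑ z ∈ F, α z • hat z - u = (∑ z ∈ F, α z • hat z - (s / m) • ∑ k, y k) +
      ((s / m) • ∑ k, y k - u) := by abel
    rw [h3]
    refine (norm_add_le _ _).trans ?_
    have h4 : 8 / (16 / x) = x / 2 := by field_simp; norm_num
    rw [h4] at hαn
    linarith
  have hB : ‖∑ z ∈ F, β z • hat z - (-u)‖ ≤ x := by
    have h2 := hsamp (-u) t y' hyn'
    have h3 : ∑ z ∈ F, β z • hat z - (-u) = (∑ z ∈ F, β z • hat z - (t / m) • ∑ k, y' k) +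
      ((t / m) • ∑ k, y' k - (-u)) := by abel
    rw [h3]
    refine (norm_add_le _ _).trans ?_
    have h4 : 8 / (16 / x) = x / 2 := by field_simp; norm_num
    rw [h4] at hβn
    linarith
  -- indexing
  set n := F.card with hn
  set p : Fin n → E d := fun i => (F.equivFin.symm i : E d) with hp
  have hpF : ∀ i, p i ∈ F := fun i => (F.equivFin.symm i).2
  have hpZ : ∀ i, p i ∈ Z ∧ ‖p i‖ ≤ 16 / x := by
    intro i
    have := hpF i
    rw [hF, Finset.mem_filter] at this
    exact this.2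
  have hpinj : Function.Injective p := by
    intro a b hab
    exact F.equivFin.symm.injective (Subtype.ext hab)
  have hsumF : ∀ {M : Type} [AddCommMonoid M] (f : E d → M), ∑ i, f (p i) = ∑ z ∈ F, f z := by
    intro M _ f
    rw [← Finset.sum_coe_sort F f]
    exact Equiv.sum_comp F.equivFin.symm (fun z : F => f z)
  have hr0 : 0 < 1 - x := by linarith
  set r : ℝ := Real.sqrt (1 - x) with hr
  have hrpos : 0 < r := Real.sqrt_pos.2 hr0
  have hr2 : r ^ 2 = 1 - x := Real.sq_sqrt hr0.le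
  have hrx : 1 - x ≤ r := by
    rw [hr]
    apply Real.le_sqrt_of_sq_le
    nlinarith
  set lam : ℝ := 1 / ((1 - x) * r) with hlam
  have hlampos : 0 < lam := by positivity
  refine ⟨∑ i, lam * (α (p i) + β (p i)), ⟨n, (1 - x)⁻¹ • gr p, fun i => lam * α (p i),
    fun i => lam * (α (p i) + β (p i)), ?_, ?_, ?_, ?_, ?_, rfl⟩, ?_⟩
  · rw [gr_eq]
    exact (Matrix.posSemidef_gram ℝ p).smul (inv_nonneg.2 hr0.le)
  · intro S
    rw [D_smul, D_gr]
    by_cases hS : S.card = 0
    · have h2 : (gr (fun k : Fin S.card => p (S.equivFin.symm k))).det = 1 := by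
        haveI : IsEmpty (Fin S.card) := by rw [hS]; infer_instance
        exact Matrix.det_isEmpty
      rw [h2, hS]
      norm_num
    · have h2 : 1 - x ≤ (gr (fun k : Fin S.card => p (S.equivFin.symm k))).det := by
        apply hdet S.card
        · refine le_trans ?_ hFcard
          have := Finset.card_le_univ S
          rwa [Fintype.card_fin] at this
        · intro a b hab
          exact S.equivFin.symm.injective (Subtype.ext (hpinj hab))
        · intro i
          exact hpZ _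
      have h3 : (1 - x)⁻¹ ≤ (1 - x)⁻¹ ^ S.card := by
        apply le_self_pow₀ _ hS
        rw [one_le_inv₀ hr0]
        linarith
      calc (1 : ℝ) = (1 - x)⁻¹ * (1 - x) := by field_simp
        _ ≤ (1 - x)⁻¹ ^ S.card * (gr (fun k : Fin S.card => p (S.equivFin.symm k))).det := by
            gcongr
  · intro i
    refine ⟨mul_nonneg hlampos.le (hα0 _), ?_⟩
    exact mul_le_mul_of_nonneg_left (by linarith [hβ0 (p i)]) hlampos.le
  · rw [Q_smul _ _ _ hr0.ne', Q_mul, Q_gr, hsumF (fun z => α z • hat z)]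
    have h2 : 1 - x ≤ ‖∑ z ∈ F, α z • hat z‖ := by
      have h3 : ‖u‖ ≤ ‖∑ z ∈ F, α z • hat z‖ + ‖∑ z ∈ F, α z • hat z - u‖ := by
        have := norm_sub_norm_le u (∑ z ∈ F, α z • hat z)
        rw [norm_sub_rev] at this
        linarith
      rw [hu] at h3
      linarith
    have h4 : (1 - x) * (lam ^ 2 * (1 - x) ^ 2) = 1 := by
      rw [hlam, div_pow, mul_pow, hr2]
      field_simp
    calc (1 : ℝ) = (1 - x) * (lam ^ 2 * (1 - x) ^ 2) := h4.symm
      _ ≤ (1 - x) * (lam ^ 2 * ‖∑ z ∈ F, α z • hat z‖ ^ 2) := by gcongr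
  · rw [Q_smul _ _ _ hr0.ne', Q_mul, Q_gr]
    have h2 : ∑ i, (α (p i) + β (p i)) • hat (p i) = ∑ z ∈ F, (α z + β z) • hat z :=
      hsumF (fun z => (α z + β z) • hat z)
    rw [h2]
    have h3 : ‖∑ z ∈ F, (α z + β z) • hat z‖ ≤ 2 * x := by
      have h4 : ∑ z ∈ F, (α z + β z) • hat z = (∑ z ∈ F, α z • hat z - u) +
          (∑ z ∈ F, β z • hat z - (-u)) := by
        simp only [add_smul, Finset.sum_add_distrib]
        abel
      rw [h4]
      refine (norm_add_le _ _).trans ?_
      linarith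
    have h5 : (1 - x) * lam ^ 2 = 1 / (1 - x) ^ 2 := by
      rw [hlam, div_pow, mul_pow, hr2]
      field_simp
    calc (1 - x) * (lam ^ 2 * ‖∑ z ∈ F, (α z + β z) • hat z‖ ^ 2)
        = 1 / (1 - x) ^ 2 * ‖∑ z ∈ F, (α z + β z) • hat z‖ ^ 2 := by rw [← h5]; ring
      _ ≤ 1 / (3 / 4) ^ 2 * (2 * x) ^ 2 := by
          gcongr
          linarith
      _ ≤ ε ^ 2 := by nlinarith
  · have h2 : ∑ i, lam * (α (p i) + β (p i)) = lam * (∑ z ∈ F, α z + ∑ z ∈ F, β z) := by
      rw [← Finset.mul_sum, hsumF (fun z => α z + β z), Finset.sum_add_distrib]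
    rw [h2]
    have h3 : lam ≤ 1 + 4 * x := by
      have h4 : (1 - x) ^ 2 ≤ (1 - x) * r := by
        rw [sq]
        gcongr
      calc lam ≤ 1 / (1 - x) ^ 2 := by
            rw [hlam]
            gcongr
        _ ≤ 1 + 4 * x := by
            rw [div_le_iff₀ (by positivity)]
            nlinarith
    have h5 : lam * (∑ z ∈ F, α z + ∑ z ∈ F, β z) ≤ lam * (s + t) := by gcongr
    have h6 : lam * (s + t) ≤ (1 + 4 * x) * (s + t) := by
      apply mul_le_mul_of_nonneg_right h3
      linarith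
    rw [hst] at huw
    have h7 : x * (s + t) ≤ ε / 64 * 8 := by
      apply mul_le_mul hxε (by linarith) (by linarith) (by positivity)
    have h8 : (1 + 4 * x) * (s + t) = (s + t) + 4 * (x * (s + t)) := by ring
    rw [h8] at h6
    linarith

end Pool.Agent.Helper89.WD
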