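import Pool.Agent.Helper89.WD.First

namespace Pool.Agent.Helper89.WD

open MeasureTheory Set
open scoped ENNReal

namespace Out

lemma mem_cell_iff {d : ℕ} (Z : Set (E d)) (x : E d) :
    x ∈ cell Z ↔ ∀ z ∈ Z, 2 * inner ℝ x z ≤ ‖z‖ ^ 2 := by
  constructor
  · intro h z hz
    have h1 : ‖x‖ ≤ ‖x - z‖ := h z hz
    have h2 : ‖x‖ ^ 2 ≤ ‖x - z‖ ^ 2 := by gcongr
    rw [norm_sub_sq_real] at h2
    linarith
  · intro h z hz
    have h1 := h z hz
    have h2 : ‖x‖ ^ 2 ≤ ‖x - z‖ ^ 2 := by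
      rw [norm_sub_sq_real]
      linarith
    exact (pow_le_pow_iff_left₀ (norm_nonneg _) (norm_nonneg _) (by norm_num)).1 h2

lemma smul_mem_cell {d : ℕ} (Z : Set (E d)) (x : E d) (hx : x ∈ cell Z) {t : ℝ} (ht0 : 0 ≤ t)
    (ht1 : t ≤ 1) : t • x ∈ cell Z := by
  rw [mem_cell_iff] at hx ⊢
  intro z hz
  have h := hx z hz
  rw [real_inner_smul_left]
  have h2 : 0 ≤ ‖z‖ ^ 2 := by positivity
  calc 2 * (t * inner ℝ x z) = t * (2 * inner ℝ x z) := by ring
    _ ≤ t * ‖z‖ ^ 2 := by gcongr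
    _ ≤ 1 * ‖z‖ ^ 2 := by gcongr
    _ = ‖z‖ ^ 2 := one_mul _

lemma net (d : ℕ) : ∃ s : Finset (E d), s.card ≤ 5 ^ d ∧
    ∀ x : E d, ‖x‖ = 2 → ∃ c ∈ s, ‖x - c‖ < 1 := by
  classical
  set N : Set ℕ := {n | ∃ s : Finset (E d), (∀ c ∈ s, ‖c‖ ≤ 2) ∧
    (∀ c ∈ s, ∀ e ∈ s, c ≠ e → 1 ≤ ‖c - e‖) ∧ s.card = n} with hN
  have hne : N.Nonempty := ⟨0, ∅, by simp, by simp, by simp⟩
  have hb : ∀ n ∈ N, n ≤ 5 ^ d := by
    rintro n ⟨s, h1, h2, rfl⟩
    have := Besicovitch.card_le_of_separated s h1 h2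
    rwa [finrank_euclideanSpace_fin] at this
  have hBA : BddAbove N := ⟨5 ^ d, hb⟩
  obtain ⟨s, h1, h2, h3⟩ := Nat.sSup_mem hne hBA
  refine ⟨s, h3 ▸ hb _ (Nat.sSup_mem hne hBA), ?_⟩
  intro x hx
  by_contra hcon
  push Not at hcon
  have hxs : x ∉ s := by
    intro hxs
    have := hcon x hxs
    rw [sub_self, norm_zero] at this
    linarith
  have hmem : s.card + 1 ∈ N := by
    refine ⟨insert x s, ?_, ?_, Finset.card_insert_of_notMem hxs⟩
    · intro c hc
      rcases Finset.mem_insert.1 hc with rfl | hc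
      · exact hx.le
      · exact h1 c hc
    · intro c hc e he hce
      rcases Finset.mem_insert.1 hc with hc' | hc'
      · rcases Finset.mem_insert.1 he with he' | he'
        · exact absurd (hc'.trans he'.symm) hce
        · rw [hc']
          exact hcon e he'
      · rcases Finset.mem_insert.1 he with he' | he'
        · rw [norm_sub_rev, he']
          exact hcon c hc'
        · exact h2 c hc' e he' hce
  have := le_csSup hBA hmem
  omega

lemma void {Ω : Type} [MeasurableSpace Ω] (P : Measure Ω) (d : ℕ) (Z : Ω → Set (E d))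
    (hZ : IsPoissonProcess P d (kappa d)⁻¹ Z) (a : E d) :
    P {ω | (Z ω ∩ Metric.ball a 2).encard = 0} = ENNReal.ofReal (Real.exp (-(2 ^ d))) := by
  have hk := kappa_pos d
  have hvol : volume (Metric.ball a 2) = ENNReal.ofReal (kappa d * 2 ^ d) := by
    rw [Measure.addHaar_ball_of_pos _ _ (by norm_num), finrank_euclideanSpace_fin]
    unfold kappa
    rw [ENNReal.ofReal_mul ENNReal.toReal_nonneg, ENNReal.ofReal_toReal measure_ball_lt_top.ne,
      mul_comm]
  have h := hZ.law 1 (fun _ => Metric.ball a 2) (fun _ => 0) (fun _ => measurableSet_ball)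
    (fun _ => measure_ball_lt_top.ne) (fun i j hij => absurd (Subsingleton.elim i j) hij)
  have h2 : {ω | ∀ i : Fin 1, (Z ω ∩ (fun _ : Fin 1 => Metric.ball a 2) i).encard =
      (((fun _ : Fin 1 => 0) i : ℕ) : ℕ∞)} = {ω | (Z ω ∩ Metric.ball a 2).encard = 0} := by
    ext ω
    simp
  rw [h2] at h
  rw [h]
  simp only [Finset.univ_unique, Finset.prod_singleton, pow_zero, Nat.factorial_zero, Nat.cast_one,
    mul_one, div_one]
  rw [hvol, ENNReal.toReal_ofReal (by positivity)]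
  congr 3
  field_simp

end Out

theorem out : S_out := by
  intro η hη
  have ht : Filter.Tendsto (fun d : ℕ => ((2 : ℝ) ^ d) ^ 3 * Real.exp (-((2 : ℝ) ^ d)))
      Filter.atTop (nhds 0) :=
    (Real.tendsto_pow_mul_exp_neg_atTop_nhds_zero 3).comp
      (tendsto_pow_atTop_atTop_of_one_lt (by norm_num : (1 : ℝ) < 2))
  obtain ⟨d₀, hd₀⟩ := Filter.eventually_atTop.1 (ht.eventually (gt_mem_nhds hη))
  refine ⟨d₀, ?_⟩
  intro d hd Ω _ P _ Z hZ
  have hη' := hd₀ d hd
  obtain ⟨s, hs, hnet⟩ := Out.net d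
  have hsub : {ω | ¬ cell (Z ω) ⊆ Metric.closedBall 0 4} ⊆
      ⋃ c ∈ s, {ω | (Z ω ∩ Metric.ball ((2 : ℝ) • c) 2).encard = 0} := by
    intro ω hω
    by_contra hcon
    simp only [mem_iUnion, not_exists] at hcon
    apply hω
    intro x hx
    by_contra hx4
    rw [Metric.mem_closedBall, dist_zero_right, not_le] at hx4
    have hx0 : 0 < ‖x‖ := by linarith
    have hx' : (4 / ‖x‖) • x ∈ cell (Z ω) :=
      Out.smul_mem_cell (Z ω) x hx (by positivity) (by rw [div_le_one hx0]; exact hx4.le)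
    have hn : ‖(4 / ‖x‖) • x‖ = 4 := by
      rw [norm_smul, Real.norm_of_nonneg (by positivity)]
      field_simp
    have hn2 : ‖(1 / 2 : ℝ) • ((4 / ‖x‖) • x)‖ = 2 := by
      rw [norm_smul, hn]
      norm_num
    obtain ⟨c, hc, hcx⟩ := hnet _ hn2
    have h1 := hcon c hc
    have h2 : (Z ω ∩ Metric.ball ((2 : ℝ) • c) 2).Nonempty := by
      rw [← Set.encard_ne_zero]
      exact h1
    obtain ⟨z, hz, hzc⟩ := h2
    rw [Metric.mem_ball, dist_eq_norm] at hzc
    have h3 : ‖(4 / ‖x‖) • x - (2 : ℝ) • c‖ < 2 := by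
      have : (4 / ‖x‖) • x - (2 : ℝ) • c = (2 : ℝ) • ((1 / 2 : ℝ) • ((4 / ‖x‖) • x) - c) := by
        rw [smul_sub, smul_smul]
        norm_num
      rw [this, norm_smul, Real.norm_of_nonneg (by norm_num)]
      linarith
    have h4 := hx' z hz
    rw [hn] at h4
    have h5 : ‖(4 / ‖x‖) • x - z‖ ≤ ‖(4 / ‖x‖) • x - (2 : ℝ) • c‖ + ‖z - (2 : ℝ) • c‖ := by
      have : (4 / ‖x‖) • x - z = ((4 / ‖x‖) • x - (2 : ℝ) • c) - (z - (2 : ℝ) • c) := by abel
      rw [this]
      exact norm_sub_le _ _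
    linarith
  calc P _ ≤ P (⋃ c ∈ s, {ω | (Z ω ∩ Metric.ball ((2 : ℝ) • c) 2).encard = 0}) :=
        measure_mono hsub
    _ ≤ ∑ c ∈ s, P {ω | (Z ω ∩ Metric.ball ((2 : ℝ) • c) 2).encard = 0} :=
        measure_biUnion_finset_le _ _
    _ = ∑ c ∈ s, ENNReal.ofReal (Real.exp (-(2 ^ d))) := by
        refine Finset.sum_congr rfl fun c _ => ?_
        exact Out.void P d Z hZ _
    _ = ENNReal.ofReal (s.card * Real.exp (-(2 ^ d))) := by
        rw [Finset.sum_const, nsmul_eq_mul, ENNReal.ofReal_mul (by positivity),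
          ENNReal.ofReal_natCast]
    _ ≤ ENNReal.ofReal η := by
        apply ENNReal.ofReal_le_ofReal
        refine le_trans ?_ hη'.le
        gcongr
        calc (s.card : ℝ) ≤ ((5 ^ d : ℕ) : ℝ) := by exact_mod_cast hs
          _ = (5 : ℝ) ^ d := by push_cast; rfl
          _ ≤ (8 : ℝ) ^ d := by gcongr; norm_num
          _ = ((2 : ℝ) ^ d) ^ 3 := by
              rw [← pow_mul, mul_comm, pow_mul]
              norm_num

end Pool.Agent.Helper89.WD
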