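import Pool.Agent.Helper89.WD.Stm

/-!
# PERT: perturbation of configurations
-/

set_option autoImplicit false

namespace Pool.Agent.Helper89.WD

open Filter Topology

namespace Pert

variable {n : ℕ}

/-- The perturbed matrix. -/
noncomputable def Gs (G : Matrix (Fin n) (Fin n) ℝ) (τ σ : ℝ) : Matrix (Fin n) (Fin n) ℝ :=
  (1 + τ) • G + σ • Matrix.diagonal (fun i : Fin n => ((i : ℕ) : ℝ) + 1)

theorem Gs_zero (G : Matrix (Fin n) (Fin n) ℝ) (τ : ℝ) : Gs G τ 0 = (1 + τ) • G := by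
  unfold Gs
  rw [zero_smul, add_zero]

theorem Gs_apply (G : Matrix (Fin n) (Fin n) ℝ) (τ σ : ℝ) (i j : Fin n) :
    Gs G τ σ i j = (1 + τ) * G i j +
      σ * (Matrix.diagonal (fun i : Fin n => ((i : ℕ) : ℝ) + 1) i j) := rfl

theorem cont_Gs (G : Matrix (Fin n) (Fin n) ℝ) (τ : ℝ) (i j : Fin n) :
    Continuous fun σ => Gs G τ σ i j := by
  simp only [Gs_apply]
  fun_prop

theorem cont_D (G : Matrix (Fin n) (Fin n) ℝ) (τ : ℝ) (S : Finset (Fin n)) :
    Continuous fun σ => D (Gs G τ σ) S := by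
  unfold D
  exact Continuous.matrix_det (continuous_matrix fun i j => cont_Gs G τ _ _)

theorem D_zero (G : Matrix (Fin n) (Fin n) ℝ) (τ : ℝ) (S : Finset (Fin n)) :
    D (Gs G τ 0) S = (1 + τ) ^ S.card * D G S := by
  unfold D
  rw [Gs_zero]
  have e : ((1 + τ) • G).submatrix (fun i : S => (i : Fin n)) (fun i : S => (i : Fin n)) =
      (1 + τ) • G.submatrix (fun i : S => (i : Fin n)) (fun i : S => (i : Fin n)) := rfl
  rw [e, Matrix.det_smul, Fintype.card_coe]

theorem diag_pos {G : Matrix (Fin n) (Fin n) ℝ} (h : ∀ S : Finset (Fin n), 1 ≤ D G S)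
    (i : Fin n) : 1 ≤ G i i := by
  have h1 := h {i}
  unfold D at h1
  rw [Matrix.det_unique] at h1
  have e : ((default : ({i} : Finset (Fin n))) : Fin n) = i := Finset.mem_singleton.1
    (default : ({i} : Finset (Fin n))).2
  rw [Matrix.submatrix_apply, e] at h1
  exact h1

theorem tendsto_Q {G : Matrix (Fin n) (Fin n) ℝ} (hG : ∀ i, 1 ≤ G i i) {τ : ℝ} (hτ : 0 < τ)
    (γ : Fin n → ℝ) : Tendsto (fun σ => Q (Gs G τ σ) γ) (𝓝 0) (𝓝 (Q G γ / (1 + τ))) := by
  have h0 : ∀ i, Gs G τ 0 i i ≠ 0 := by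
    intro i
    rw [Gs_zero, Matrix.smul_apply, smul_eq_mul]
    have := hG i
    positivity
  have h1 : Q G γ / (1 + τ) = Q (Gs G τ 0) γ := by
    unfold Q
    rw [Finset.sum_div]
    refine Finset.sum_congr rfl fun i _ => ?_
    rw [Finset.sum_div]
    refine Finset.sum_congr rfl fun j _ => ?_
    rw [Gs_zero]
    simp only [Matrix.smul_apply, smul_eq_mul]
    have hi : G i i ≠ 0 := by have := hG i; positivity
    have hj : G j j ≠ 0 := by have := hG j; positivity
    have ht : (1 + τ) ≠ 0 := by positivity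
    field_simp
  rw [h1]
  unfold Q
  refine tendsto_finsetSum _ fun i _ => tendsto_finsetSum _ fun j _ => ?_
  refine Tendsto.const_mul _ (Tendsto.div ?_ ?_ (mul_ne_zero (h0 i) (h0 j)))
  · exact ((cont_Gs G τ i j).tendsto 0).const_mul 4
  · exact ((cont_Gs G τ i i).tendsto 0).mul ((cont_Gs G τ j j).tendsto 0)

theorem Q_scale (G : Matrix (Fin n) (Fin n) ℝ) (l : ℝ) (γ : Fin n → ℝ) :
    Q G (fun i => l * γ i) = l ^ 2 * Q G γ := by
  unfold Q
  rw [Finset.mul_sum]
  refine Finset.sum_congr rfl fun i _ => ?_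
  rw [Finset.mul_sum]
  refine Finset.sum_congr rfl fun j _ => ?_
  ring

end Pert

open Pert

theorem pert : S_pert := by
  intro ε v η hε hη hC
  obtain ⟨n, G, α, γ, hpsd, hD, hαγ, hα, hγ, hv⟩ := hC
  have hG := diag_pos hD
  have hγ0 : ∀ i, 0 ≤ γ i := fun i => (hαγ i).1.trans (hαγ i).2
  have hv0 : 0 ≤ v := by
    rw [← hv]
    exact Finset.sum_nonneg fun i _ => hγ0 i
  set τ := min 1 (η / (v + 1)) with hτ
  have hτ0 : 0 < τ := lt_min one_pos (by positivity)
  have hτ1 : τ ≤ 1 := min_le_left _ _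
  have hτv : τ * v ≤ η := by
    have h1 : τ ≤ η / (v + 1) := min_le_right _ _
    rw [le_div_iff₀ (by linarith)] at h1
    nlinarith
  -- the conditions for small `σ`
  have e1 : ∀ᶠ σ in 𝓝 (0 : ℝ), ∀ S : Finset (Fin n), S.Nonempty → 1 < D (Gs G τ σ) S := by
    rw [eventually_all]
    intro S
    by_cases hS : S.Nonempty
    · have h1 : 1 < D (Gs G τ 0) S := by
        rw [D_zero]
        have h2 : 1 < (1 + τ) ^ S.card := one_lt_pow₀ (by linarith) hS.card_pos.ne'
        have h3 := hD S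
        nlinarith
      filter_upwards [((cont_D G τ S).tendsto 0).eventually_const_lt h1] with σ hσ _
      exact hσ
    · exact Eventually.of_forall fun σ h => absurd h hS
  have e2 : ∀ᶠ σ in 𝓝[>] (0 : ℝ), ∀ i j, i ≠ j → Gs G τ σ i i ≠ Gs G τ σ j j := by
    rw [eventually_all]
    intro i
    rw [eventually_all]
    intro j
    by_cases hij : i = j
    · exact Eventually.of_forall fun σ h => absurd hij h
    · by_cases hg : G i i = G j j
      · filter_upwards [self_mem_nhdsWithin] with σ hσ _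
        have hσ0 : (0 : ℝ) < σ := hσ
        rw [Gs_apply, Gs_apply, Matrix.diagonal_apply_eq, Matrix.diagonal_apply_eq, hg]
        intro h
        have h1 : ((i : ℕ) : ℝ) = ((j : ℕ) : ℝ) := by
          have h2 := add_left_cancel h
          have h3 := mul_left_cancel₀ hσ0.ne' h2
          linarith
        exact hij (Fin.ext (by exact_mod_cast h1))
      · have h1 : Gs G τ 0 i i ≠ Gs G τ 0 j j := by
          rw [Gs_zero, Matrix.smul_apply, Matrix.smul_apply, smul_eq_mul, smul_eq_mul]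
          intro h
          exact hg (mul_left_cancel₀ (by positivity) h)
        have h2 : ∀ᶠ σ in 𝓝 (0 : ℝ), Gs G τ σ i i ≠ Gs G τ σ j j :=
          (isOpen_ne_fun (cont_Gs G τ i i) (cont_Gs G τ j j)).mem_nhds h1
        filter_upwards [nhdsWithin_le_nhds h2] with σ hσ _
        exact hσ
  have e3 : ∀ᶠ σ in 𝓝 (0 : ℝ), 1 / (1 + τ) ^ 2 < Q (Gs G τ σ) α := by
    refine (tendsto_Q hG hτ0 α).eventually_const_lt ?_
    have h1 : 1 / (1 + τ) ^ 2 < 1 / (1 + τ) := by
      apply one_div_lt_one_div_of_lt (by positivity)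
      nlinarith
    refine h1.trans_le ?_
    exact div_le_div_of_nonneg_right hα (by positivity)
  have e4 : ∀ᶠ σ in 𝓝 (0 : ℝ), Q (Gs G τ σ) γ < ε ^ 2 := by
    refine (tendsto_Q hG hτ0 γ).eventually_lt_const ?_
    rw [div_lt_iff₀ (by positivity)]
    have : 0 < ε ^ 2 * τ := by positivity
    nlinarith
  have f1 : ∀ᶠ σ in 𝓝[>] (0 : ℝ), ∀ S : Finset (Fin n), S.Nonempty → 1 < D (Gs G τ σ) S :=
    nhdsWithin_le_nhds e1
  have f3 : ∀ᶠ σ in 𝓝[>] (0 : ℝ), 1 / (1 + τ) ^ 2 < Q (Gs G τ σ) α := nhdsWithin_le_nhds e3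
  have f4 : ∀ᶠ σ in 𝓝[>] (0 : ℝ), Q (Gs G τ σ) γ < ε ^ 2 := nhdsWithin_le_nhds e4
  have f5 : ∀ᶠ σ in 𝓝[>] (0 : ℝ), 0 < σ := self_mem_nhdsWithin
  obtain ⟨σ, ⟨⟨⟨⟨h1, h2⟩, h3⟩, h4⟩, hσ⟩⟩ := ((((f1.and e2).and f3).and f4).and f5).exists
  refine ⟨n, Gs G τ σ, fun i => (1 + τ) * α i, fun i => (1 + τ) * γ i, ?_, h1, h2, ?_, ?_, ?_, ?_⟩
  · refine Matrix.PosDef.posSemidef_add (hpsd.smul (by positivity)) ?_
    refine Matrix.PosDef.smul ?_ hσ
    exact Matrix.PosDef.diagonal fun i => by positivity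
  · intro i
    have := hαγ i
    constructor
    · exact mul_nonneg (by positivity) this.1
    · exact mul_le_mul_of_nonneg_left this.2 (by positivity)
  · rw [Q_scale]
    have h6 := mul_lt_mul_of_pos_left h3 (show 0 < (1 + τ) ^ 2 by positivity)
    rw [mul_one_div_cancel (by positivity)] at h6
    exact h6.le
  · rw [Q_scale, mul_pow]
    have h6 : (1 + τ) ^ 2 ≤ 2 ^ 2 := pow_le_pow_left₀ (by positivity) (by linarith) 2
    have h7 : (1 + τ) ^ 2 * Q (Gs G τ σ) γ ≤ (1 + τ) ^ 2 * ε ^ 2 :=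
      mul_le_mul_of_nonneg_left h4.le (by positivity)
    exact h7.trans (mul_le_mul_of_nonneg_right h6 (by positivity))
  · rw [← Finset.mul_sum, hv]
    linarith

end Pool.Agent.Helper89.WD
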