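import Pool.Agent.Helper89.WD.First

namespace Pool.Agent.Helper89.WD

open MeasureTheory Set
open scoped ENNReal Pointwise

namespace Sc

variable {d : ℕ}

lemma cell_smul {t : ℝ} (ht : 0 < t) (Z : Set (E d)) :
    cell ((fun z : E d => t • z) '' Z) = (fun z : E d => t • z) '' cell Z := by
  ext x
  constructor
  · intro hx
    refine ⟨t⁻¹ • x, ?_, by simp [smul_smul, ht.ne']⟩
    intro z hz
    have h := hx (t • z) ⟨z, hz, rfl⟩
    have h1 : x = t • (t⁻¹ • x) := by simp [smul_smul, ht.ne']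
    have h2 : ‖t • (t⁻¹ • x)‖ ≤ ‖t • (t⁻¹ • x) - t • z‖ := by rwa [← h1]
    rw [← smul_sub, norm_smul t (t⁻¹ • x), norm_smul t (t⁻¹ • x - z),
      Real.norm_of_nonneg ht.le] at h2
    exact le_of_mul_le_mul_left h2 ht
  · rintro ⟨y, hy, rfl⟩
    rintro _ ⟨z, hz, rfl⟩
    show ‖t • y‖ ≤ ‖t • y - t • z‖
    rw [← smul_sub, norm_smul, norm_smul, Real.norm_of_nonneg ht.le]
    exact mul_le_mul_of_nonneg_left (hy z hz) ht.le

lemma widthDir_smul {t : ℝ} (ht : 0 < t) (u : E d) (K : Set (E d)) :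
    widthDir u ((fun z : E d => t • z) '' K) = t * widthDir u K := by
  have h : (fun x => inner ℝ u x) '' ((fun z : E d => t • z) '' K) =
      t • ((fun x => inner ℝ u x) '' K) := by
    ext w
    simp only [mem_image, Set.mem_smul_set, smul_eq_mul, exists_exists_and_eq_and, inner_smul_right]
  unfold widthDir
  rw [h, Real.sSup_smul_of_nonneg ht.le, Real.sInf_smul_of_nonneg ht.le, smul_eq_mul, smul_eq_mul]
  ring

lemma width_smul {t : ℝ} (ht : 0 < t) (K : Set (E d)) :
    width ((fun z : E d => t • z) '' K) = t * width K := by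
  have h : {w | ∃ u : E d, ‖u‖ = 1 ∧ w = widthDir u ((fun z : E d => t • z) '' K)} =
      t • {w | ∃ u : E d, ‖u‖ = 1 ∧ w = widthDir u K} := by
    ext w
    simp only [Set.mem_ofPred_eq, Set.mem_smul_set, smul_eq_mul, widthDir_smul ht]
    constructor
    · rintro ⟨u, hu, rfl⟩
      exact ⟨_, ⟨u, hu, rfl⟩, rfl⟩
    · rintro ⟨_, ⟨u, hu, rfl⟩, rfl⟩
      exact ⟨u, hu, rfl⟩
  unfold width
  rw [h, Real.sInf_smul_of_nonneg ht.le, smul_eq_mul]

lemma encard_smul {t : ℝ} (ht : 0 < t) (Z A : Set (E d)) :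
    (((fun z : E d => t • z) '' Z) ∩ A).encard = (Z ∩ (fun z : E d => t • z) ⁻¹' A).encard := by
  rw [← Set.image_inter_preimage]
  exact Function.Injective.encard_image (smul_right_injective _ ht.ne') _

end Sc

theorem scale : S_scale := by
  intro Ω _ P d lam Z hd hlam h
  have hk := kappa_pos d
  set t : ℝ := (lam * kappa d) ^ (1 / (d : ℝ)) with htdef
  have hlk : 0 < lam * kappa d := mul_pos hlam hk
  have ht : 0 < t := Real.rpow_pos_of_pos hlk _
  have hd0 : (d : ℝ) ≠ 0 := by
    have : d ≠ 0 := by omega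
    exact_mod_cast this
  have htd : t ^ d = lam * kappa d := by
    rw [htdef, ← Real.rpow_natCast, ← Real.rpow_mul hlk.le, one_div_mul_cancel hd0, Real.rpow_one]
  refine ⟨fun ω => (fun z : E d => t • z) '' Z ω, ⟨?_, ?_, ?_⟩, ?_⟩
  · intro ω R
    refine ((h.locFin ω (R / t)).image (fun z : E d => t • z)).subset ?_
    rintro _ ⟨⟨z, hz, rfl⟩, hR⟩
    refine ⟨z, ⟨hz, ?_⟩, rfl⟩
    rw [Metric.mem_closedBall, dist_zero_right] at hR ⊢
    rw [le_div_iff₀ ht, mul_comm]
    simpa [norm_smul, abs_of_pos ht] using hR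
  · intro A hA k
    have h1 := h.meas ((fun z : E d => t • z) ⁻¹' A) (hA.preimage (measurable_const_smul t)) k
    simpa only [Sc.encard_smul ht] using h1
  · intro n A k hA hfin hdis
    have hvol : ∀ i, volume ((fun z : E d => t • z) ⁻¹' A i) =
        ENNReal.ofReal ((t ^ d)⁻¹) * volume (A i) := by
      intro i
      rw [Measure.addHaar_preimage_smul _ ht.ne', finrank_euclideanSpace_fin,
        abs_of_pos (by positivity)]
    have h1 := h.law n (fun i => (fun z : E d => t • z) ⁻¹' A i) k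
      (fun i => (hA i).preimage (measurable_const_smul t))
      (fun i => by
        show volume ((fun z : E d => t • z) ⁻¹' A i) ≠ ⊤
        rw [hvol i]
        exact ENNReal.mul_ne_top ENNReal.ofReal_ne_top (hfin i))
      (fun i j hij => (hdis hij).preimage _)
    simp only [Sc.encard_smul ht]
    rw [h1]
    refine Finset.prod_congr rfl fun i _ => ?_
    have h2 : lam * (volume ((fun z : E d => t • z) ⁻¹' A i)).toReal =
        (kappa d)⁻¹ * (volume (A i)).toReal := by
      rw [hvol i, ENNReal.toReal_mul, ENNReal.toReal_ofReal (by positivity), htd]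
      field_simp
    rw [h2]
  · intro ω
    show W d lam (Z ω) = width (cell ((fun z : E d => t • z) '' Z ω))
    rw [Sc.cell_smul ht, Sc.width_smul ht]
    rfl

end Pool.Agent.Helper89.WD
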