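import Pool.Agent.Helper89.WD.Stm

/-!
# SECOND: the second moment method (helper90)
-/

namespace Pool.Agent.Helper89.WD

open MeasureTheory Set
open scoped ENNReal

namespace Sec

/-- pairs of tuples which agree exactly on `S` -/
def pairSet {n d : ℕ} (T₀ : Set (Fin n → E d)) (S : Finset (Fin n)) :
    Set ((Fin n ⊕ ↥(Sᶜ)) → E d) :=
  {w | (fun i => w (Sum.inl i)) ∈ T₀ ∧
    Function.updateFinset (fun i => w (Sum.inl i)) Sᶜ (fun i => w (Sum.inr i)) ∈ T₀}

theorem encard_biUnion_le' {α β : Type} (s : Finset β) (f : β → Set α) :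
    (⋃ b ∈ s, f b).encard ≤ ∑ b ∈ s, (f b).encard := by
  classical
  induction s using Finset.induction_on with
  | empty => simp
  | insert a s ha ih =>
    rw [Finset.set_biUnion_insert, Finset.sum_insert ha]
    exact (Set.encard_union_le _ _).trans (by gcongr)

theorem toENNReal_sum {β : Type} (s : Finset β) (f : β → ℕ∞) :
    ((∑ b ∈ s, f b : ℕ∞) : ℝ≥0∞) = ∑ b ∈ s, (f b : ℝ≥0∞) := by
  classical
  induction s using Finset.induction_on with
  | empty => simp
  | insert a s ha ih => rw [Finset.sum_insert ha, Finset.sum_insert ha, ENat.toENNReal_add, ih]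

theorem cnt_sq_le {n d : ℕ} (Z : Set (E d)) (T₀ : Set (Fin n → E d))
    (hT : ∀ x ∈ T₀, ∀ y ∈ T₀, ∀ i j, i ≠ j → x i ≠ y j) :
    cnt Z T₀ ^ 2 ≤ ∑ S : Finset (Fin n), cnt Z (pairSet T₀ S) := by
  classical
  set X : Set (Fin n → E d) :=
    {x : Fin n → E d | Function.Injective x ∧ ∀ i, x i ∈ Z} ∩ T₀ with hX
  let P : Finset (Fin n) → Set ((Fin n → E d) × (Fin n → E d)) := fun S =>
    {p | p ∈ X ×ˢ X ∧ (Finset.univ.filter fun i => p.1 i = p.2 i) = S}
  have h1 : X ×ˢ X ⊆ ⋃ S ∈ (Finset.univ : Finset (Finset (Fin n))), P S := by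
    intro p hp
    simp only [Set.mem_iUnion]
    exact ⟨Finset.univ.filter fun i => p.1 i = p.2 i, Finset.mem_univ _, hp, rfl⟩
  have h2 : ∀ S : Finset (Fin n), (P S).encard ≤
      ({w : (Fin n ⊕ ↥(Sᶜ)) → E d | Function.Injective w ∧ ∀ i, w i ∈ Z} ∩ pairSet T₀ S).encard := by
    intro S
    have hmem : ∀ p : (Fin n → E d) × (Fin n → E d), p ∈ P S → ∀ i, i ∈ S ↔ p.1 i = p.2 i := by
      intro p hp i
      rw [← hp.2]; simp
    have hupd : ∀ p : (Fin n → E d) × (Fin n → E d), p ∈ P S →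
        Function.updateFinset p.1 Sᶜ (fun i => p.2 i) = p.2 := by
      intro p hp
      funext i
      unfold Function.updateFinset
      by_cases hi : i ∈ Sᶜ
      · simp [hi]
      · have hi' : i ∈ S := by simpa using hi
        simp only [hi, dif_neg, not_false_eq_true]
        exact (hmem p hp i).1 hi'
    refine Set.encard_le_encard_of_injOn
      (f := fun p : (Fin n → E d) × (Fin n → E d) => (Sum.elim p.1 (fun j : ↥(Sᶜ) => p.2 j))) ?_ ?_
    · intro p hp
      have hpX := hp.1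
      rw [Set.mem_prod] at hpX
      obtain ⟨⟨⟨hi1, hz1⟩, ht1⟩, ⟨⟨hi2, hz2⟩, ht2⟩⟩ := hpX
      refine ⟨⟨?_, ?_⟩, ?_, ?_⟩
      · have key : ∀ (i : Fin n) (j : ↥(Sᶜ)), p.1 i ≠ p.2 j := by
          intro i j
          by_cases hij : i = j
          · intro h
            have : (j : Fin n) ∈ S := (hmem p hp j).2 (by rw [← hij]; rw [← hij] at h; exact h)
            exact (Finset.mem_compl.1 j.2) this
          · exact hT _ ht1 _ ht2 _ _ hij
        intro a b hab
        rcases a with a | a <;> rcases b with b | b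
        · simp only [Sum.elim_inl] at hab
          rw [hi1 hab]
        · simp only [Sum.elim_inl, Sum.elim_inr] at hab
          exact absurd hab (key a b)
        · simp only [Sum.elim_inl, Sum.elim_inr] at hab
          exact absurd hab.symm (key b a)
        · simp only [Sum.elim_inr] at hab
          rw [Subtype.ext (hi2 hab)]
      · rintro (i | i)
        · exact hz1 i
        · exact hz2 i
      · exact ht1
      · show Function.updateFinset p.1 Sᶜ (fun i => p.2 i) ∈ T₀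
        rw [hupd p hp]; exact ht2
    · intro p hp q hq hpq
      have e1 : p.1 = q.1 := by
        funext i
        exact congrFun hpq (Sum.inl i)
      have e2 : (fun j : ↥(Sᶜ) => p.2 j) = (fun j : ↥(Sᶜ) => q.2 j) := by
        funext j
        exact congrFun hpq (Sum.inr j)
      refine Prod.ext e1 ?_
      rw [← hupd p hp, ← hupd q hq, e1, e2]
  have h3 : (X ×ˢ X).encard ≤ ∑ S : Finset (Fin n),
      ({w : (Fin n ⊕ ↥(Sᶜ)) → E d | Function.Injective w ∧ ∀ i, w i ∈ Z} ∩ pairSet T₀ S).encard :=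
    (Set.encard_le_encard h1).trans
      ((encard_biUnion_le' _ _).trans (Finset.sum_le_sum fun S _ => h2 S))
  rw [Set.encard_prod] at h3
  have h4 : ((X.encard * X.encard : ℕ∞) : ℝ≥0∞) ≤ ((∑ S : Finset (Fin n),
      ({w : (Fin n ⊕ ↥(Sᶜ)) → E d | Function.Injective w ∧ ∀ i, w i ∈ Z} ∩
        pairSet T₀ S).encard : ℕ∞) : ℝ≥0∞) := ENat.toENNReal_le.2 h3
  rw [ENat.toENNReal_mul, toENNReal_sum] at h4
  rw [sq]
  exact h4

theorem measurable_upd {n d : ℕ} (S : Finset (Fin n)) :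
    Measurable fun w : (Fin n ⊕ ↥(Sᶜ)) → E d =>
      Function.updateFinset (fun i => w (Sum.inl i)) Sᶜ (fun i => w (Sum.inr i)) := by
  rw [measurable_pi_iff]
  intro i
  unfold Function.updateFinset
  by_cases hi : i ∈ Sᶜ
  · simp only [hi, dif_pos]
    exact measurable_pi_apply _
  · simp only [hi, dif_neg, not_false_eq_true]
    exact measurable_pi_apply _

theorem measurableSet_pairSet {n d : ℕ} {T₀ : Set (Fin n → E d)} (hT : MeasurableSet T₀)
    (S : Finset (Fin n)) : MeasurableSet (pairSet T₀ S) := by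
  have h1 : Measurable fun w : (Fin n ⊕ ↥(Sᶜ)) → E d => (fun i => w (Sum.inl i)) := by
    rw [measurable_pi_iff]
    intro i
    exact measurable_pi_apply _
  exact (h1 hT).inter (measurable_upd S hT)

theorem volume_pairSet {n d : ℕ} {T₀ : Set (Fin n → E d)} (hT : MeasurableSet T₀)
    (S : Finset (Fin n)) : volume (pairSet T₀ S) =
      ∫⁻ x in T₀, (lmarginal (fun _ : Fin n => (volume : Measure (E d))) Sᶜ
        (T₀.indicator 1)) x := by
  have hmp := volume_measurePreserving_sumPiEquivProdPi (fun _ : Fin n ⊕ ↥(Sᶜ) => E d)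
  set e := MeasurableEquiv.sumPiEquivProdPi (fun _ : Fin n ⊕ ↥(Sᶜ) => E d) with he
  let B : Set ((Fin n → E d) × (↥(Sᶜ) → E d)) :=
    {p | p.1 ∈ T₀ ∧ Function.updateFinset p.1 Sᶜ p.2 ∈ T₀}
  have hB : e ⁻¹' B = pairSet T₀ S := rfl
  have hBm : MeasurableSet B := by
    have : e.symm ⁻¹' (pairSet T₀ S) = B := rfl
    rw [← this]
    exact e.symm.measurable (measurableSet_pairSet hT S)
  rw [← hB, hmp.measure_preimage hBm.nullMeasurableSet]
  have h2 : (volume : Measure ((Fin n → E d) × (↥(Sᶜ) → E d))) B =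
      ∫⁻ x, (volume : Measure (↥(Sᶜ) → E d)) (Prod.mk x ⁻¹' B) := by
    rw [Measure.volume_eq_prod, Measure.prod_apply hBm]
  rw [h2, ← lintegral_indicator hT]
  refine lintegral_congr fun x => ?_
  by_cases hx : x ∈ T₀
  · rw [Set.indicator_of_mem hx]
    unfold lmarginal
    have h3 : Prod.mk x ⁻¹' B = {y | Function.updateFinset x Sᶜ y ∈ T₀} := by
      ext y
      simp [B, hx]
    have hm : MeasurableSet {y : ↥(Sᶜ) → E d | Function.updateFinset x Sᶜ y ∈ T₀} := by
      rw [← h3]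
      exact measurable_prodMk_left hBm
    rw [h3, ← lintegral_indicator_one hm]
    rfl
  · rw [Set.indicator_of_notMem hx]
    have : Prod.mk x ⁻¹' B = ∅ := by
      ext y
      simp [B, hx]
    rw [this]; simp

theorem kappa_pos (d : ℕ) : 0 < kappa d := by
  unfold kappa
  refine ENNReal.toReal_pos ?_ ?_
  · exact (Metric.measure_ball_pos _ _ one_pos).ne'
  · exact measure_ball_lt_top.ne

theorem measurableSet_T {n d : ℕ} (G : Matrix (Fin n) (Fin n) ℝ) (δ : ℝ) :
    MeasurableSet (T G δ d) := by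
  have : T G δ d = ⋂ i, ⋂ j, {x : Fin n → E d | |inner ℝ (x i) (x j) - G i j| < δ} := by
    ext x; simp [T]
  rw [this]
  refine MeasurableSet.iInter fun i => MeasurableSet.iInter fun j => ?_
  refine IsOpen.measurableSet ?_
  refine isOpen_lt ?_ continuous_const
  fun_prop

/-- Cauchy-Schwarz: second moment bound. -/
theorem second_moment {Ω : Type} [MeasurableSpace Ω] (P : Measure Ω) [IsProbabilityMeasure P]
    (N : Ω → ℝ≥0∞) (hN : Measurable N) (μ R : ℝ≥0∞) (hμ0 : μ ≠ 0) (hμt : μ ≠ ⊤)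
    (h1 : ∫⁻ ω, N ω ∂P = μ) (h2 : ∫⁻ ω, N ω ^ 2 ∂P ≤ μ * μ + μ * R) :
    P {ω | N ω = 0} ≤ R / μ := by
  classical
  have hms : MeasurableSet {ω | N ω = 0} := hN (measurableSet_singleton 0)
  set A : Set Ω := {ω | N ω = 0}ᶜ with hA
  have hAm : MeasurableSet A := hms.compl
  have hCS : μ ≤ (∫⁻ ω, N ω ^ 2 ∂P) ^ (1 / 2 : ℝ) * (P A) ^ (1 / 2 : ℝ) := by
    have h := ENNReal.lintegral_mul_le_Lp_mul_Lq P (p := 2) (q := 2)
      (Real.HolderConjugate.two_two) (f := N) (g := A.indicator 1) hN.aemeasurable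
      ((measurable_one.indicator hAm).aemeasurable)
    have e1 : ∫⁻ a, (N * A.indicator (1 : Ω → ℝ≥0∞)) a ∂P = μ := by
      rw [← h1]
      refine lintegral_congr fun ω => ?_
      by_cases hω : ω ∈ A
      · simp [Set.indicator_of_mem hω]
      · have : N ω = 0 := by
          simpa [hA] using hω
        simp [this]
    have e2 : ∫⁻ a, (A.indicator (1 : Ω → ℝ≥0∞) a) ^ (2 : ℝ) ∂P = P A := by
      rw [← lintegral_indicator_one hAm]
      refine lintegral_congr fun ω => ?_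
      by_cases hω : ω ∈ A
      · simp [Set.indicator_of_mem hω]
      · simp [Set.indicator_of_notMem hω]
    have e3 : ∫⁻ a, N a ^ (2 : ℝ) ∂P = ∫⁻ ω, N ω ^ 2 ∂P := by
      refine lintegral_congr fun ω => ?_
      exact_mod_cast ENNReal.rpow_natCast (N ω) 2
    rw [e1, e2, e3] at h
    exact h
  have hCS2 : μ * μ ≤ (μ * μ + μ * R) * P A := by
    have h3 : μ ^ 2 ≤ ((∫⁻ ω, N ω ^ 2 ∂P) ^ (1 / 2 : ℝ) * (P A) ^ (1 / 2 : ℝ)) ^ 2 := by
      gcongr
    rw [mul_pow] at h3
    have e4 : ∀ a : ℝ≥0∞, (a ^ (1 / 2 : ℝ)) ^ 2 = a := by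
      intro a
      rw [← ENNReal.rpow_natCast, ← ENNReal.rpow_mul]
      norm_num
    rw [e4, e4, sq] at h3
    exact h3.trans (by gcongr)
  have hPA : P A = 1 - P {ω | N ω = 0} := by
    rw [hA, prob_compl_eq_one_sub hms]
  set p := P {ω | N ω = 0} with hp
  have hp1 : p ≤ 1 := prob_le_one
  have hsum : P A + p = 1 := by
    rw [hPA, tsub_add_cancel_of_le hp1]
  -- cancel μ
  have hC3 : μ ≤ (μ + R) * P A := by
    have : μ * μ ≤ μ * ((μ + R) * P A) := by
      calc μ * μ ≤ (μ * μ + μ * R) * P A := hCS2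
        _ = μ * ((μ + R) * P A) := by ring
    exact (ENNReal.mul_le_mul_iff_right hμ0 hμt).1 this
  have hC4 : μ + (μ + R) * p ≤ μ + R := by
    calc μ + (μ + R) * p ≤ (μ + R) * P A + (μ + R) * p := by gcongr
      _ = (μ + R) * (P A + p) := by ring
      _ = μ + R := by rw [hsum, mul_one]
  have hC5 : (μ + R) * p ≤ R := (ENNReal.add_le_add_iff_left hμt).1 hC4
  rw [ENNReal.le_div_iff_mul_le (Or.inl hμ0) (Or.inl hμt)]
  calc p * μ ≤ p * (μ + R) := by gcongr; exact le_self_add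
    _ = (μ + R) * p := by ring
    _ ≤ R := hC5

theorem exists_pos_le {ι : Type} [Finite ι] (f : ι → ℝ) (hf : ∀ i, 0 < f i) :
    ∃ c : ℝ, 0 < c ∧ ∀ i, c ≤ f i := by
  rcases isEmpty_or_nonempty ι with h | h
  · exact ⟨1, one_pos, fun i => h.elim i⟩
  · obtain ⟨i₀, hi₀⟩ := Finite.exists_min f
    exact ⟨f i₀, hf i₀, hi₀⟩

theorem D_univ {n : ℕ} (G : Matrix (Fin n) (Fin n) ℝ) : D G Finset.univ = G.det := by
  unfold D
  have := Matrix.det_submatrix_equiv_self (Equiv.subtypeUnivEquiv (fun i : Fin n => Finset.mem_univ i)) G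
  exact this

theorem D_empty {n : ℕ} (G : Matrix (Fin n) (Fin n) ℝ) : D G ∅ = 1 := by
  unfold D
  exact Matrix.det_isEmpty

theorem T_mono {n : ℕ} (G : Matrix (Fin n) (Fin n) ℝ) {δ δ' : ℝ} (h : δ' ≤ δ) (d : ℕ) :
    T G δ' d ⊆ T G δ d := fun _ hx i j => (hx i j).trans_le h

theorem T_ne {n d : ℕ} {G : Matrix (Fin n) (Fin n) ℝ} {δ : ℝ}
    (h : ∀ i j, i ≠ j → 2 * δ ≤ |G i i - G j j|) :
    ∀ x ∈ T G δ d, ∀ y ∈ T G δ d, ∀ i j, i ≠ j → x i ≠ y j := by
  intro x hx y hy i j hij hxy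
  have h1 := hx i i
  have h2 := hy j j
  rw [hxy] at h1
  have h3 := h i j hij
  have h4 : |G i i - G j j| < 2 * δ := by
    calc |G i i - G j j| = |(inner ℝ (y j) (y j) - G j j) - (inner ℝ (y j) (y j) - G i i)| := by
          congr 1; ring
      _ ≤ |inner ℝ (y j) (y j) - G j j| + |inner ℝ (y j) (y j) - G i i| := abs_sub _ _
      _ < 2 * δ := by linarith
  linarith

end Sec

open Sec in
/-- SECOND. -/
theorem second (hC : S_camp) (hU : S_vup) (hL : S_vlow) : S_second := by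
  classical
  intro n G hG hD hne δ hδ η hη
  have hDpos : ∀ S : Finset (Fin n), 0 < D G S := by
    intro S
    rcases S.eq_empty_or_nonempty with h | h
    · rw [h, D_empty]; exact one_pos
    · exact one_pos.trans (hD S h)
  set g := D G Finset.univ with hg
  have hg0 : 0 < g := hDpos _
  -- the ratio
  obtain ⟨c₀, hc₀, hc₀'⟩ := exists_pos_le
    (fun S : Finset (Fin n) => if S.Nonempty then 1 - 1 / D G S else 1) (by
      intro S
      by_cases h : S.Nonempty
      · simp only [h, if_true]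
        have := hD S h
        rw [sub_pos, div_lt_one (by linarith)]
        exact this
      · simp only [h, if_false]; exact one_pos)
  obtain ⟨c₁, hc₁, hc₁'⟩ := exists_pos_le
    (fun p : Fin n × Fin n => if p.1 = p.2 then 1 else |G p.1 p.1 - G p.2 p.2|) (by
      intro p
      by_cases h : p.1 = p.2
      · simp only [h, if_true]; exact one_pos
      · simp only [h, if_false]
        exact abs_pos.2 (sub_ne_zero.2 (hne _ _ h)))
  set r : ℝ := 1 - min c₀ (1 / 2) with hr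
  have hr0 : 0 < r := by
    have := min_le_right c₀ (1 / 2 : ℝ)
    rw [hr]; linarith
  have hr1 : r < 1 := by
    have : 0 < min c₀ (1 / 2 : ℝ) := lt_min hc₀ (by norm_num)
    rw [hr]; linarith
  have hrS : ∀ S : Finset (Fin n), S.Nonempty → 1 / D G S ≤ r := by
    intro S hS
    have h1 := hc₀' S
    simp only [hS, if_true] at h1
    have := min_le_left c₀ (1 / 2 : ℝ)
    rw [hr]; linarith
  set κ : ℝ := g * (1 - r) / 4 with hκ
  have hκ0 : 0 < κ := by
    have : 0 < 1 - r := by linarith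
    positivity
  set θ : ℝ := (3 + r) / 4 with hθ
  have hθ0 : 0 < θ := by rw [hθ]; linarith
  have hθ1 : θ < 1 := by rw [hθ]; linarith
  set q : ℝ := Real.sqrt θ with hq
  have hq0 : 0 ≤ q := Real.sqrt_nonneg _
  have hq1 : q < 1 := by
    rw [hq, Real.sqrt_lt' one_pos]; simpa using hθ1
  have hkey : ∀ S : Finset (Fin n), S.Nonempty → Real.sqrt (g / D G S + κ) ≤
      q * Real.sqrt (θ * g) := by
    intro S hS
    rw [hq, ← Real.sqrt_mul hθ0.le]
    apply Real.sqrt_le_sqrt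
    have h1 : g / D G S ≤ g * r := by
      have := mul_le_mul_of_nonneg_left (hrS S hS) hg0.le
      rwa [mul_one_div] at this
    have h2 : g * r + g * (1 - r) / 4 ≤ θ * (θ * g) := by
      rw [hθ]
      have : 0 ≤ g * ((1 - r) * (5 - r)) := by
        have : 0 ≤ 1 - r := by linarith
        have : 0 ≤ 5 - r := by linarith
        positivity
      nlinarith
    calc g / D G S + κ ≤ g * r + g * (1 - r) / 4 := by rw [hκ]; linarith
      _ ≤ _ := h2
  obtain ⟨δ₁, hδ₁, hU'⟩ := hU n G hG.posSemidef κ hκ0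
  set δ' : ℝ := min (min δ δ₁) (c₁ / 2) with hδ'
  have hδ'0 : 0 < δ' := lt_min (lt_min hδ hδ₁) (by linarith)
  have hδ'δ : δ' ≤ δ := (min_le_left _ _).trans (min_le_left _ _)
  have hδ'δ₁ : δ' ≤ δ₁ := (min_le_left _ _).trans (min_le_right _ _)
  have hδ'c : 2 * δ' ≤ c₁ := by
    have : δ' ≤ c₁ / 2 := min_le_right _ _
    linarith
  have hgap : ∀ i j, i ≠ j → 2 * δ' ≤ |G i i - G j j| := by
    intro i j hij
    have := hc₁' (i, j)
    simp only [hij, if_false] at this
    linarith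
  obtain ⟨d₁, hd₁⟩ := hL n G hG δ' hδ'0 θ hθ0 hθ1
  obtain ⟨d₂, hd₂⟩ : ∃ d₂ : ℕ, ∀ d ≥ d₂, 2 ^ n * q ^ d ≤ η := by
    have h1 : Filter.Tendsto (fun d : ℕ => (2 : ℝ) ^ n * q ^ d) Filter.atTop (nhds (2 ^ n * 0)) :=
      (tendsto_pow_atTop_nhds_zero_of_lt_one hq0 hq1).const_mul _
    rw [mul_zero] at h1
    have h2 := h1.eventually (ge_mem_nhds hη)
    rw [Filter.eventually_atTop] at h2
    exact h2
  refine ⟨max (max d₁ d₂) 1, ?_⟩
  intro d hd Ω _ P _ Z hZ
  have hdd₁ : d₁ ≤ d := (le_max_left _ _).trans ((le_max_left _ _).trans hd)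
  have hdd₂ : d₂ ≤ d := (le_max_right _ _).trans ((le_max_left _ _).trans hd)
  have hd1 : 1 ≤ d := (le_max_right _ _).trans hd
  have hk0 : 0 < kappa d := kappa_pos d
  set k := kappa d with hk
  set T₀ := T G δ' d with hT₀
  have hTm : MeasurableSet T₀ := measurableSet_T G δ'
  -- bounds of the marginals
  have hmarg : ∀ (S : Finset (Fin n)) (x : Fin n → E d),
      (lmarginal (fun _ : Fin n => (volume : Measure (E d))) Sᶜ (T₀.indicator 1)) x ≤
        ENNReal.ofReal (k ^ (Sᶜ.card) * (Real.sqrt (g / D G S + κ)) ^ d) := by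
    intro S x
    refine le_trans ?_ (hU' S (hDpos S) d x)
    refine lmarginal_mono ?_ x
    refine Set.indicator_le_indicator_of_subset (T_mono G hδ'δ₁ d) (fun _ => zero_le_one)
  have hlu : ∀ x : Fin n → E d,
      (lmarginal (fun _ : Fin n => (volume : Measure (E d))) (∅ : Finset (Fin n))ᶜ
        (T₀.indicator 1)) x = volume T₀ := by
    intro x
    rw [Finset.compl_empty, lmarginal_univ, ← volume_pi, lintegral_indicator_one hTm]
  have hvfin : volume T₀ ≠ ⊤ := by
    have h1 := hmarg ∅ 0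
    rw [hlu] at h1
    exact (h1.trans_lt ENNReal.ofReal_lt_top).ne
  -- first moment
  have hCT := hC Ω P d k⁻¹ Z hd1 (inv_pos.2 hk0) hZ (Fin n) T₀ hTm
  set μ : ℝ≥0∞ := ENNReal.ofReal (k⁻¹ ^ n) * volume T₀ with hμ
  have hm1 : ∫⁻ ω, cnt (Z ω) T₀ ∂P = μ := by
    rw [hCT.2, Fintype.card_fin]
  have hμt : μ ≠ ⊤ := ENNReal.mul_ne_top ENNReal.ofReal_ne_top hvfin
  have hμl : ENNReal.ofReal (Real.sqrt (θ * g) ^ d) ≤ μ := by
    have h1 := hd₁ d hdd₁
    rw [← D_univ] at h1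
    calc ENNReal.ofReal (Real.sqrt (θ * g) ^ d)
        = ENNReal.ofReal (k⁻¹ ^ n) * ENNReal.ofReal (k ^ n * Real.sqrt (θ * g) ^ d) := by
          rw [← ENNReal.ofReal_mul (by positivity), ← mul_assoc, ← mul_pow,
            inv_mul_cancel₀ hk0.ne', one_pow, one_mul]
      _ ≤ μ := by rw [hμ]; gcongr
  have hsθ : 0 < Real.sqrt (θ * g) := Real.sqrt_pos.2 (by positivity)
  have hμ0 : μ ≠ 0 := by
    have : 0 < ENNReal.ofReal (Real.sqrt (θ * g) ^ d) := ENNReal.ofReal_pos.2 (by positivity)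
    exact (this.trans_le hμl).ne'
  -- second moment
  have hcard : ∀ S : Finset (Fin n), Fintype.card (Fin n ⊕ ↥(Sᶜ)) = n + Sᶜ.card := by
    intro S
    rw [Fintype.card_sum, Fintype.card_fin, Fintype.card_coe]
  have hpair : ∀ S : Finset (Fin n), ∫⁻ ω, cnt (Z ω) (pairSet T₀ S) ∂P ≤
      μ * ENNReal.ofReal ((Real.sqrt (g / D G S + κ)) ^ d) := by
    intro S
    have h1 := (hC Ω P d k⁻¹ Z hd1 (inv_pos.2 hk0) hZ (Fin n ⊕ ↥(Sᶜ)) (pairSet T₀ S)
      (measurableSet_pairSet hTm S)).2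
    rw [h1, hcard, volume_pairSet hTm]
    have h2 : ∫⁻ x in T₀, (lmarginal (fun _ : Fin n => (volume : Measure (E d))) Sᶜ
        (T₀.indicator 1)) x ≤
        ENNReal.ofReal (k ^ (Sᶜ.card) * (Real.sqrt (g / D G S + κ)) ^ d) * volume T₀ := by
      calc _ ≤ ∫⁻ _ in T₀, ENNReal.ofReal (k ^ (Sᶜ.card) * (Real.sqrt (g / D G S + κ)) ^ d) :=
            lintegral_mono fun x => hmarg S x
        _ = _ := by rw [setLIntegral_const]
    calc ENNReal.ofReal (k⁻¹ ^ (n + Sᶜ.card)) * ∫⁻ x in T₀,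
          (lmarginal (fun _ : Fin n => (volume : Measure (E d))) Sᶜ (T₀.indicator 1)) x
        ≤ ENNReal.ofReal (k⁻¹ ^ (n + Sᶜ.card)) *
          (ENNReal.ofReal (k ^ (Sᶜ.card) * (Real.sqrt (g / D G S + κ)) ^ d) * volume T₀) := by
            gcongr
      _ = μ * ENNReal.ofReal ((Real.sqrt (g / D G S + κ)) ^ d) := by
          rw [hμ, ← mul_assoc, ← ENNReal.ofReal_mul (by positivity), pow_add]
          have e : k⁻¹ ^ n * k⁻¹ ^ (Sᶜ.card) * (k ^ (Sᶜ.card) * (Real.sqrt (g / D G S + κ)) ^ d) =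
              k⁻¹ ^ n * (Real.sqrt (g / D G S + κ)) ^ d := by
            have : k⁻¹ ^ (Sᶜ.card) * k ^ (Sᶜ.card) = 1 := by
              rw [← mul_pow, inv_mul_cancel₀ hk0.ne', one_pow]
            calc _ = k⁻¹ ^ n * (k⁻¹ ^ (Sᶜ.card) * k ^ (Sᶜ.card)) *
                (Real.sqrt (g / D G S + κ)) ^ d := by ring
              _ = _ := by rw [this, mul_one]
          rw [e, ENNReal.ofReal_mul (by positivity)]
          ring
  have hpair0 : ∫⁻ ω, cnt (Z ω) (pairSet T₀ ∅) ∂P ≤ μ * μ := by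
    have h1 := (hC Ω P d k⁻¹ Z hd1 (inv_pos.2 hk0) hZ (Fin n ⊕ ↥((∅ : Finset (Fin n))ᶜ))
      (pairSet T₀ ∅) (measurableSet_pairSet hTm ∅)).2
    rw [h1, hcard, volume_pairSet hTm]
    have h2 : ∫⁻ x in T₀, (lmarginal (fun _ : Fin n => (volume : Measure (E d)))
        (∅ : Finset (Fin n))ᶜ (T₀.indicator 1)) x = volume T₀ * volume T₀ := by
      calc _ = ∫⁻ _ in T₀, volume T₀ := lintegral_congr fun x => hlu x
        _ = _ := by rw [setLIntegral_const]
    rw [h2, Finset.compl_empty, Finset.card_univ, Fintype.card_fin, pow_add,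
      ENNReal.ofReal_mul (by positivity), hμ]
    apply le_of_eq
    ring
  set R : ℝ≥0∞ := ∑ S ∈ (Finset.univ : Finset (Finset (Fin n))).erase ∅,
    ENNReal.ofReal ((Real.sqrt (g / D G S + κ)) ^ d) with hR
  have hmeas : ∀ S : Finset (Fin n), Measurable fun ω => cnt (Z ω) (pairSet T₀ S) := fun S =>
    (hC Ω P d k⁻¹ Z hd1 (inv_pos.2 hk0) hZ (Fin n ⊕ ↥(Sᶜ)) (pairSet T₀ S)
      (measurableSet_pairSet hTm S)).1
  have hm2 : ∫⁻ ω, cnt (Z ω) T₀ ^ 2 ∂P ≤ μ * μ + μ * R := by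
    calc ∫⁻ ω, cnt (Z ω) T₀ ^ 2 ∂P
        ≤ ∫⁻ ω, ∑ S : Finset (Fin n), cnt (Z ω) (pairSet T₀ S) ∂P :=
          lintegral_mono fun ω => cnt_sq_le (Z ω) T₀ (T_ne hgap)
      _ = ∑ S : Finset (Fin n), ∫⁻ ω, cnt (Z ω) (pairSet T₀ S) ∂P :=
          lintegral_finsetSum _ fun S _ => hmeas S
      _ = ∫⁻ ω, cnt (Z ω) (pairSet T₀ ∅) ∂P +
          ∑ S ∈ (Finset.univ : Finset (Finset (Fin n))).erase ∅,
            ∫⁻ ω, cnt (Z ω) (pairSet T₀ S) ∂P :=
          (Finset.add_sum_erase _ _ (Finset.mem_univ _)).symm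
      _ ≤ μ * μ + ∑ S ∈ (Finset.univ : Finset (Finset (Fin n))).erase ∅,
          μ * ENNReal.ofReal ((Real.sqrt (g / D G S + κ)) ^ d) := by
          gcongr with S hS
          exact hpair S
      _ = μ * μ + μ * R := by rw [hR, Finset.mul_sum]
  have hmain := second_moment P (fun ω => cnt (Z ω) T₀) hCT.1 μ R hμ0 hμt hm1 hm2
  have hRle : R ≤ ENNReal.ofReal (2 ^ n * q ^ d) * μ := by
    have h1 : ∀ S ∈ (Finset.univ : Finset (Finset (Fin n))).erase ∅,
        ENNReal.ofReal ((Real.sqrt (g / D G S + κ)) ^ d) ≤ ENNReal.ofReal (q ^ d) * μ := by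
      intro S hS
      have hS' : S.Nonempty := Finset.nonempty_iff_ne_empty.2 (Finset.ne_of_mem_erase hS)
      calc ENNReal.ofReal ((Real.sqrt (g / D G S + κ)) ^ d)
          ≤ ENNReal.ofReal ((q * Real.sqrt (θ * g)) ^ d) :=
            ENNReal.ofReal_le_ofReal (pow_le_pow_left₀ (Real.sqrt_nonneg _) (hkey S hS') d)
        _ = ENNReal.ofReal (q ^ d) * ENNReal.ofReal (Real.sqrt (θ * g) ^ d) := by
            rw [mul_pow, ENNReal.ofReal_mul (by positivity)]
        _ ≤ ENNReal.ofReal (q ^ d) * μ := by gcongr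
    calc R ≤ ∑ S ∈ (Finset.univ : Finset (Finset (Fin n))).erase ∅,
          ENNReal.ofReal (q ^ d) * μ := Finset.sum_le_sum h1
      _ = (((Finset.univ : Finset (Finset (Fin n))).erase ∅).card : ℝ≥0∞) *
          (ENNReal.ofReal (q ^ d) * μ) := by rw [Finset.sum_const, nsmul_eq_mul]
      _ ≤ ((2 ^ n : ℕ) : ℝ≥0∞) * (ENNReal.ofReal (q ^ d) * μ) := by
          gcongr
          calc ((Finset.univ : Finset (Finset (Fin n))).erase ∅).card
              ≤ (Finset.univ : Finset (Finset (Fin n))).card := Finset.card_erase_le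
            _ = 2 ^ n := by rw [Finset.card_univ, Fintype.card_finset, Fintype.card_fin]
      _ = ENNReal.ofReal (2 ^ n * q ^ d) * μ := by
          rw [ENNReal.ofReal_mul (by positivity), ← mul_assoc]
          congr 2
          rw [← ENNReal.ofReal_natCast]
          push_cast
          rfl
  have hfin : P {ω | cnt (Z ω) T₀ = 0} ≤ ENNReal.ofReal η := by
    refine hmain.trans ?_
    refine (ENNReal.div_le_of_le_mul hRle).trans ?_
    exact ENNReal.ofReal_le_ofReal (hd₂ d hdd₂)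
  refine le_trans (measure_mono ?_) hfin
  intro ω hω
  simp only [Set.mem_ofPred_eq] at hω ⊢
  by_contra hne0
  apply hω
  unfold cnt at hne0
  have h1 : ({x : Fin n → E d | Function.Injective x ∧ ∀ i, x i ∈ Z ω} ∩ T₀).encard ≠ 0 := by
    intro h
    apply hne0
    rw [h]; simp
  rw [Set.encard_ne_zero] at h1
  obtain ⟨x, hx⟩ := h1
  exact ⟨x, hx.1.2, T_mono G hδ'δ d hx.2⟩

end Pool.Agent.Helper89.WD
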