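import Pool.Agent.Helper89.WD.Defs

/-!
# Width of the typical Poisson-Voronoi cell: the statements of the packages
-/

namespace Pool.Agent.Helper89.WD

open MeasureTheory Set
open scoped ENNReal

/-- Gram matrix. -/
noncomputable def gr {n d : ℕ} (x : Fin n → E d) : Matrix (Fin n) (Fin n) ℝ :=
  Matrix.of fun i j => inner ℝ (x i) (x j)

/-- Principal minor. -/
noncomputable def D {n : ℕ} (G : Matrix (Fin n) (Fin n) ℝ) (S : Finset (Fin n)) : ℝ :=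
  (G.submatrix (fun i : S => (i : Fin n)) (fun i : S => (i : Fin n))).det

/-- Tuples with Gram matrix near `G`. -/
def T {n : ℕ} (G : Matrix (Fin n) (Fin n) ℝ) (δ : ℝ) (d : ℕ) : Set (Fin n → E d) :=
  {x | ∀ i j, |inner ℝ (x i) (x j) - G i j| < δ}

/-- The squared norm of `∑ γ i • (2 / ‖z i‖ ^ 2) • z i` when `z` has Gram matrix `G`. -/
noncomputable def Q {n : ℕ} (G : Matrix (Fin n) (Fin n) ℝ) (γ : Fin n → ℝ) : ℝ :=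
  ∑ i, ∑ j, γ i * γ j * (4 * G i j / (G i i * G j j))

/-- Finite configurations of defect `ε` and value `v`. -/
def Cfg (ε v : ℝ) : Prop :=
  ∃ (n : ℕ) (G : Matrix (Fin n) (Fin n) ℝ) (α γ : Fin n → ℝ), G.PosSemidef ∧
    (∀ S : Finset (Fin n), 1 ≤ D G S) ∧ (∀ i, 0 ≤ α i ∧ α i ≤ γ i) ∧
    1 ≤ Q G α ∧ Q G γ ≤ ε ^ 2 ∧ ∑ i, γ i = v

/-- The number of injective tuples (index type `ι`) of points of `Z` which lie in `S`. -/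
noncomputable def cnt {d : ℕ} {ι : Type} (Z : Set (E d)) (S : Set (ι → E d)) : ℝ≥0∞ :=
  (({x : ι → E d | Function.Injective x ∧ ∀ i, x i ∈ Z} ∩ S).encard : ℝ≥0∞)

/-- CAMP. -/
def S_camp : Prop := ∀ (Ω : Type) [MeasurableSpace Ω] (P : Measure Ω) [IsProbabilityMeasure P]
  (d : ℕ) (lam : ℝ) (Z : Ω → Set (E d)), 1 ≤ d → 0 < lam → IsPoissonProcess P d lam Z →
  ∀ (ι : Type) [Fintype ι] (S : Set (ι → E d)), MeasurableSet S →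
    (Measurable fun ω => cnt (Z ω) S) ∧
    ∫⁻ ω, cnt (Z ω) S ∂P = ENNReal.ofReal (lam ^ Fintype.card ι) * volume S

/-- VUP. -/
def S_vup : Prop := ∀ (n : ℕ) (G : Matrix (Fin n) (Fin n) ℝ), G.PosSemidef → ∀ κ : ℝ, 0 < κ →
  ∃ δ : ℝ, 0 < δ ∧ ∀ S : Finset (Fin n), 0 < D G S → ∀ (d : ℕ) (x : Fin n → E d),
    (lmarginal (fun _ : Fin n => (volume : Measure (E d))) Sᶜ ((T G δ d).indicator 1)) x ≤
      ENNReal.ofReal (kappa d ^ (Sᶜ.card) * (Real.sqrt (D G Finset.univ / D G S + κ)) ^ d)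

/-- VLOW. -/
def S_vlow : Prop := ∀ (n : ℕ) (G : Matrix (Fin n) (Fin n) ℝ), G.PosDef → ∀ δ : ℝ, 0 < δ →
  ∀ θ : ℝ, 0 < θ → θ < 1 → ∃ d₀ : ℕ, ∀ d ≥ d₀,
    ENNReal.ofReal (kappa d ^ n * (Real.sqrt (θ * G.det)) ^ d) ≤ volume (T G δ d)

/-- VONE (uses VUP). -/
def S_vone : Prop := ∀ (n : ℕ) (R δ η : ℝ), 0 < δ → 0 < η → ∃ d₀ : ℕ, ∀ d ≥ d₀,
  volume {x : Fin n → E d | (∀ i, ‖x i‖ ≤ R) ∧ (gr x).det ≤ 1 - δ} ≤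
    ENNReal.ofReal (η * kappa d ^ n)

/-- FIRST (uses CAMP and VONE). -/
def S_first : Prop := ∀ (n : ℕ) (R δ η : ℝ), 0 < δ → 0 < η → ∃ d₀ : ℕ, ∀ d ≥ d₀,
  ∀ (Ω : Type) [MeasurableSpace Ω] (P : Measure Ω) [IsProbabilityMeasure P] (Z : Ω → Set (E d)),
  IsPoissonProcess P d (kappa d)⁻¹ Z →
    P {ω | ∃ x : Fin n → E d, Function.Injective x ∧ (∀ i, x i ∈ Z ω ∧ ‖x i‖ ≤ R) ∧
      (gr x).det < 1 - δ} ≤ ENNReal.ofReal η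

/-- SECOND (uses CAMP, VUP and VLOW). -/
def S_second : Prop := ∀ (n : ℕ) (G : Matrix (Fin n) (Fin n) ℝ), G.PosDef →
  (∀ S : Finset (Fin n), S.Nonempty → 1 < D G S) → (∀ i j, i ≠ j → G i i ≠ G j j) →
  ∀ δ : ℝ, 0 < δ → ∀ η : ℝ, 0 < η → ∃ d₀ : ℕ, ∀ d ≥ d₀,
  ∀ (Ω : Type) [MeasurableSpace Ω] (P : Measure Ω) [IsProbabilityMeasure P] (Z : Ω → Set (E d)),
  IsPoissonProcess P d (kappa d)⁻¹ Z →
    P {ω | ¬ ∃ x : Fin n → E d, (∀ i, x i ∈ Z ω) ∧ x ∈ T G δ d} ≤ ENNReal.ofReal η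

/-- OUT. -/
def S_out : Prop := ∀ η : ℝ, 0 < η → ∃ d₀ : ℕ, ∀ d ≥ d₀,
  ∀ (Ω : Type) [MeasurableSpace Ω] (P : Measure Ω) [IsProbabilityMeasure P] (Z : Ω → Set (E d)),
  IsPoissonProcess P d (kappa d)⁻¹ Z →
    P {ω | ¬ cell (Z ω) ⊆ Metric.closedBall 0 4} ≤ ENNReal.ofReal η

/-- LOW (deterministic). -/
def S_low : Prop := ∀ ε : ℝ, 0 < ε → ∃ (N : ℕ) (R δ : ℝ), 0 < δ ∧ δ < 1 ∧
  ∀ (d : ℕ), 1 ≤ d → ∀ Z : Set (E d), cell Z ⊆ Metric.closedBall 0 4 →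
  (∀ n ≤ N, ∀ x : Fin n → E d, Function.Injective x → (∀ i, x i ∈ Z ∧ ‖x i‖ ≤ R) →
    1 - δ ≤ (gr x).det) →
  ∃ v : ℝ, Cfg ε v ∧ v ≤ width (cell Z) + ε

/-- UPG (deterministic). -/
def S_upg : Prop := ∀ (n : ℕ) (G : Matrix (Fin n) (Fin n) ℝ) (α γ : Fin n → ℝ) (ε η : ℝ),
  0 < ε → 0 < η → (∀ i, 1 ≤ G i i) → (∀ i, 0 ≤ α i ∧ α i ≤ γ i) → 1 ≤ Q G α → Q G γ ≤ ε ^ 2 →
  ∃ δ : ℝ, 0 < δ ∧ ∀ (d : ℕ) (Z : Set (E d)), cell Z ⊆ Metric.closedBall 0 4 →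
    (∃ x : Fin n → E d, (∀ i, x i ∈ Z) ∧ x ∈ T G δ d) →
    width (cell Z) ≤ ∑ i, γ i + 4 * ε + η

/-- PERT (deterministic). -/
def S_pert : Prop := ∀ ε v η : ℝ, 0 < ε → 0 < η → Cfg ε v →
  ∃ (n : ℕ) (G : Matrix (Fin n) (Fin n) ℝ) (α γ : Fin n → ℝ), G.PosDef ∧
    (∀ S : Finset (Fin n), S.Nonempty → 1 < D G S) ∧ (∀ i j, i ≠ j → G i i ≠ G j j) ∧
    (∀ i, 0 ≤ α i ∧ α i ≤ γ i) ∧ 1 ≤ Q G α ∧ Q G γ ≤ (2 * ε) ^ 2 ∧ ∑ i, γ i ≤ v + η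

/-- SCALE. -/
def S_scale : Prop := ∀ (Ω : Type) [MeasurableSpace Ω] (P : Measure Ω) (d : ℕ) (lam : ℝ)
  (Z : Ω → Set (E d)), 1 ≤ d → 0 < lam → IsPoissonProcess P d lam Z →
  ∃ Z' : Ω → Set (E d), IsPoissonProcess P d (kappa d)⁻¹ Z' ∧
    ∀ ω, W d lam (Z ω) = width (cell (Z' ω))

/-- The theorem. -/
def S_final : Prop := ∃ c : ℝ, ∀ (Ω : ℕ → Type) (_ : ∀ d, MeasurableSpace (Ω d))
  (P : ∀ d, Measure (Ω d)) (_ : ∀ d, IsProbabilityMeasure (P d)) (lam : ℕ → ℝ)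
  (Z : ∀ d, Ω d → Set (E d)),
  (∀ d, 1 ≤ d → 0 < lam d) → (∀ d, 1 ≤ d → IsPoissonProcess (P d) d (lam d) (Z d)) →
  ∀ ε : ℝ, 0 < ε →
    Filter.Tendsto (fun d => P d {ω | ε < |W d (lam d) (Z d ω) - c|}) Filter.atTop (nhds 0)

end Pool.Agent.Helper89.WD
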