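import Pool.Agent.Helper89.WD.Stm

namespace Pool.Agent.Helper89.WD

/-- LOW-1 (greedy Maurey lemma). LOW-2 is `S_l1 → S_low`. -/
def S_l1 : Prop := ∀ (d : ℕ) (Z : Set (E d)), cell Z ⊆ Metric.closedBall 0 4 →
  (∀ z ∈ Z, 1 / 2 ≤ ‖z‖) → ∀ u : E d, ‖u‖ = 1 → ∀ m : ℕ, ∃ y : Fin m → E d,
    (∀ k, y k = 0 ∨ ∃ z ∈ Z, y k = (2 / ‖z‖ ^ 2) • z) ∧
    ‖∑ k, (sSup ((fun x => inner ℝ u x) '' cell Z) • y k - u)‖ ^ 2 ≤ 290 * m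

end Pool.Agent.Helper89.WD
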