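import Pool.Agent.Helper89.WD.Stm

/-!
# Width of the typical Poisson-Voronoi cell: package UPG
-/

namespace Pool.Agent.Helper89.WD

open MeasureTheory Set
open scoped ENNReal

namespace UPG

lemma zero_mem {d : ℕ} (Z : Set (E d)) : (0 : E d) ∈ cell Z := by
  intro z _
  simp

lemma widthDir_nonneg {d : ℕ} {K : Set (E d)} (hK : K ⊆ Metric.closedBall 0 4) (h0 : (0 : E d) ∈ K)
    {u : E d} (hu : ‖u‖ = 1) : 0 ≤ widthDir u K := by
  have hb : ∀ x ∈ K, |inner ℝ u x| ≤ 4 := by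
    intro x hx
    have h1 := hK hx
    rw [Metric.mem_closedBall, dist_zero_right] at h1
    calc |inner ℝ u x| ≤ ‖u‖ * ‖x‖ := abs_real_inner_le_norm u x
      _ ≤ 4 := by rw [hu, one_mul]; exact h1
  have hz : (0 : ℝ) ∈ ((fun x => inner ℝ u x) '' K) := ⟨0, h0, by simp⟩
  have ha : BddAbove ((fun x => inner ℝ u x) '' K) := by
    refine ⟨4, ?_⟩
    rintro _ ⟨x, hx, rfl⟩
    exact (abs_le.1 (hb x hx)).2
  have hbb : BddBelow ((fun x => inner ℝ u x) '' K) := by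
    refine ⟨-4, ?_⟩
    rintro _ ⟨x, hx, rfl⟩
    exact (abs_le.1 (hb x hx)).1
  have h3 : 0 ≤ sSup ((fun x => inner ℝ u x) '' K) := le_csSup ha hz
  have h4 : sInf ((fun x => inner ℝ u x) '' K) ≤ 0 := csInf_le hbb hz
  unfold widthDir
  linarith

/-- The width is at most the width in a direction. -/
lemma width_le {d : ℕ} {K : Set (E d)} (hK : K ⊆ Metric.closedBall 0 4) (h0 : (0 : E d) ∈ K)
    {u : E d} (hu : ‖u‖ = 1) : width K ≤ widthDir u K := by
  refine csInf_le ⟨0, ?_⟩ ⟨u, hu, rfl⟩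
  rintro w ⟨v, hv, rfl⟩
  exact widthDir_nonneg hK h0 hv

/-- The squared norm of a combination of the inverted points. -/
lemma norm_sq {n d : ℕ} (x : Fin n → E d) (γ : Fin n → ℝ) :
    ‖∑ i, γ i • ((2 / ‖x i‖ ^ 2) • x i)‖ ^ 2 = Q (gr x) γ := by
  rw [← real_inner_self_eq_norm_sq, sum_inner]
  unfold Q gr
  refine Finset.sum_congr rfl fun i _ => ?_
  rw [inner_sum]
  refine Finset.sum_congr rfl fun j _ => ?_
  rw [inner_smul_left, inner_smul_right, inner_smul_left, inner_smul_right]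
  simp only [Matrix.of_apply, real_inner_self_eq_norm_sq, RCLike.conj_to_real]
  ring

/-- A direction in which the cell is narrow. -/
lemma dir {n d : ℕ} {Z : Set (E d)} (hZ : cell Z ⊆ Metric.closedBall 0 4) (x : Fin n → E d)
    (hx : ∀ i, x i ∈ Z) (hx0 : ∀ i, 0 < ‖x i‖) (α γ : Fin n → ℝ) (h : ∀ i, 0 ≤ α i ∧ α i ≤ γ i)
    (hα : 0 < Q (gr x) α) :
    width (cell Z) ≤ (∑ i, γ i + 4 * Real.sqrt (Q (gr x) γ)) / Real.sqrt (Q (gr x) α) := by
  obtain ⟨A, hA⟩ : ∃ A : E d, A = ∑ i, α i • ((2 / ‖x i‖ ^ 2) • x i) := ⟨_, rfl⟩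
  obtain ⟨C, hC⟩ : ∃ C : E d, C = ∑ i, γ i • ((2 / ‖x i‖ ^ 2) • x i) := ⟨_, rfl⟩
  have hAn : Real.sqrt (Q (gr x) α) = ‖A‖ := by
    rw [← norm_sq, ← hA]; exact Real.sqrt_sq (norm_nonneg _)
  have hCn : Real.sqrt (Q (gr x) γ) = ‖C‖ := by
    rw [← norm_sq, ← hC]; exact Real.sqrt_sq (norm_nonneg _)
  have hA0 : 0 < ‖A‖ := by rw [← hAn]; exact Real.sqrt_pos.2 hα
  rw [hAn, hCn]
  have hin : ∀ v ∈ cell Z, ∀ i, inner ℝ ((2 / ‖x i‖ ^ 2) • x i) v ≤ 1 := by
    intro v hv i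
    have h1 := hv (x i) (hx i)
    have h2 : ‖v‖ ^ 2 ≤ ‖v - x i‖ ^ 2 := by gcongr
    rw [norm_sub_sq_real] at h2
    rw [real_inner_smul_left, real_inner_comm, div_mul_eq_mul_div, div_le_one (by
      have := hx0 i; positivity)]
    linarith
  have hAv : ∀ v ∈ cell Z, inner ℝ A v ≤ ∑ i, α i := by
    intro v hv
    rw [hA, sum_inner]
    refine Finset.sum_le_sum fun i _ => ?_
    rw [real_inner_smul_left]
    exact mul_le_of_le_one_right (h i).1 (hin v hv i)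
  have hBv : ∀ v ∈ cell Z, inner ℝ (C - A) v ≤ ∑ i, (γ i - α i) := by
    intro v hv
    rw [hA, hC, ← Finset.sum_sub_distrib, sum_inner]
    refine Finset.sum_le_sum fun i _ => ?_
    rw [← sub_smul, real_inner_smul_left]
    exact mul_le_of_le_one_right (by linarith [(h i).2]) (hin v hv i)
  have hCv : ∀ v ∈ cell Z, |inner ℝ C v| ≤ 4 * ‖C‖ := by
    intro v hv
    have h1 := hZ hv
    rw [Metric.mem_closedBall, dist_zero_right] at h1
    calc |inner ℝ C v| ≤ ‖C‖ * ‖v‖ := abs_real_inner_le_norm C v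
      _ ≤ ‖C‖ * 4 := by gcongr
      _ = 4 * ‖C‖ := mul_comm _ _
  have hlow : ∀ v ∈ cell Z, -(∑ i, (γ i - α i) + 4 * ‖C‖) ≤ inner ℝ A v := by
    intro v hv
    have h1 := hBv v hv
    rw [inner_sub_left] at h1
    have h2 := (abs_le.1 (hCv v hv)).1
    linarith
  have hu : ‖(‖A‖⁻¹ • A)‖ = 1 := by
    rw [norm_smul, norm_inv, norm_norm]; exact inv_mul_cancel₀ hA0.ne'
  refine (width_le hZ (zero_mem Z) hu).trans ?_
  have hne : ((fun v => inner ℝ (‖A‖⁻¹ • A) v) '' cell Z).Nonempty := ⟨_, 0, zero_mem Z, rfl⟩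
  have h1 : sSup ((fun v => inner ℝ (‖A‖⁻¹ • A) v) '' cell Z) ≤ (∑ i, α i) / ‖A‖ := by
    refine csSup_le hne ?_
    rintro _ ⟨v, hv, rfl⟩
    show inner ℝ (‖A‖⁻¹ • A) v ≤ _
    rw [real_inner_smul_left, inv_mul_eq_div]
    have := hAv v hv
    gcongr
  have h2 : -(∑ i, (γ i - α i) + 4 * ‖C‖) / ‖A‖ ≤
      sInf ((fun v => inner ℝ (‖A‖⁻¹ • A) v) '' cell Z) := by
    refine le_csInf hne ?_
    rintro _ ⟨v, hv, rfl⟩
    show _ ≤ inner ℝ (‖A‖⁻¹ • A) v
    rw [real_inner_smul_left, inv_mul_eq_div]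
    have := hlow v hv
    gcongr
  have h3 : (∑ i, γ i + 4 * ‖C‖) / ‖A‖ = (∑ i, α i) / ‖A‖ -
      (-(∑ i, (γ i - α i) + 4 * ‖C‖) / ‖A‖) := by
    rw [Finset.sum_sub_distrib]; ring
  rw [h3]
  unfold widthDir
  linarith

end UPG

open UPG in
theorem upg : S_upg := by
  intro n G α γ ε η hε hη hG h hα hγ
  have hQc : ∀ c : Fin n → ℝ, ContinuousAt (fun H : Fin n → Fin n → ℝ => Q (Matrix.of H) c)
      (fun i j => G i j) := by
    intro c
    unfold Q
    refine tendsto_finsetSum _ fun i _ => tendsto_finsetSum _ fun j _ => ?_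
    have hc : ∀ i j : Fin n, ContinuousAt (fun H : Fin n → Fin n → ℝ => H i j)
        (fun i j => G i j) := fun i j => (continuous_apply_apply i j).continuousAt
    refine ContinuousAt.mul continuousAt_const (ContinuousAt.div (continuousAt_const.mul (hc i j))
      ((hc i i).mul (hc j j)) ?_)
    have h1 := hG i
    have h2 := hG j
    have : 0 < G i i * G j j := mul_pos (by linarith) (by linarith)
    exact this.ne'
  have hα1 : (1 : ℝ) ≤ Real.sqrt (Q G α) := by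
    rw [show (1 : ℝ) = Real.sqrt 1 by simp]; exact Real.sqrt_le_sqrt hα
  have hγ1 : Real.sqrt (Q G γ) ≤ ε := by
    rw [show ε = Real.sqrt (ε ^ 2) from (Real.sqrt_sq hε.le).symm]; exact Real.sqrt_le_sqrt hγ
  have hφ : ContinuousAt (fun H : Fin n → Fin n → ℝ =>
      (∑ i, γ i + 4 * Real.sqrt (Q (Matrix.of H) γ)) / Real.sqrt (Q (Matrix.of H) α))
      (fun i j => G i j) := by
    refine ContinuousAt.div (continuousAt_const.add (continuousAt_const.mul (hQc γ).sqrt))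
      (hQc α).sqrt ?_
    have : (0 : ℝ) < Real.sqrt (Q G α) := by linarith
    exact this.ne'
  have hγ0 : 0 ≤ ∑ i, γ i := Finset.sum_nonneg fun i _ => (h i).1.trans (h i).2
  have hval : (∑ i, γ i + 4 * Real.sqrt (Q G γ)) / Real.sqrt (Q G α) < ∑ i, γ i + 4 * ε + η := by
    have h1 : (∑ i, γ i + 4 * Real.sqrt (Q G γ)) / Real.sqrt (Q G α) ≤
        ∑ i, γ i + 4 * Real.sqrt (Q G γ) := div_le_self (by positivity) hα1
    linarith
  have e1 : ∀ᶠ H in nhds (fun i j => G i j), (∑ i, γ i + 4 * Real.sqrt (Q (Matrix.of H) γ)) /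
      Real.sqrt (Q (Matrix.of H) α) < ∑ i, γ i + 4 * ε + η := hφ.eventually_lt_const hval
  have e2 : ∀ᶠ H in nhds (fun i j => G i j), 0 < Q (Matrix.of H) α :=
    (hQc α).eventually_const_lt (by
      have : (0 : ℝ) < Q G α := by linarith
      exact this)
  have e3 : ∀ᶠ H : Fin n → Fin n → ℝ in nhds (fun i j => G i j), ∀ i, 0 < H i i := by
    rw [Filter.eventually_all]
    intro i
    have hc : ContinuousAt (fun H : Fin n → Fin n → ℝ => H i i) (fun i j => G i j) :=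
      (continuous_apply_apply i i).continuousAt
    exact hc.eventually_const_lt (by have := hG i; linarith)
  obtain ⟨δ, hδ, hball⟩ := Metric.eventually_nhds_iff.1 (e1.and (e2.and e3))
  refine ⟨δ, hδ, ?_⟩
  intro d Z hZ hx
  obtain ⟨x, hxZ, hxT⟩ := hx
  have hd : dist (fun i j => gr x i j) (fun i j => G i j) < δ := by
    rw [dist_pi_lt_iff hδ]
    intro i
    rw [dist_pi_lt_iff hδ]
    intro j
    rw [Real.dist_eq]
    exact hxT i j
  obtain ⟨f1, f2, f3⟩ := hball hd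
  have f1' : (∑ i, γ i + 4 * Real.sqrt (Q (gr x) γ)) /
      Real.sqrt (Q (gr x) α) < ∑ i, γ i + 4 * ε + η := f1
  refine (dir hZ x hxZ ?_ α γ h f2).trans f1'.le
  intro i
  have h1 : 0 < inner ℝ (x i) (x i) := f3 i
  rw [real_inner_self_eq_norm_sq] at h1
  refine norm_pos_iff.2 fun h0 => ?_
  rw [h0] at h1
  simp at h1

end Pool.Agent.Helper89.WD
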