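import Pool.Agent.Helper89.WD.Stm

/-!
# VLOW: lower bound of the volume of the tuples with Gram matrix near `G`
-/

set_option autoImplicit false

namespace Pool.Agent.Helper89.WD

open MeasureTheory Set
open scoped ENNReal

namespace VLow

theorem kappa_nonneg (d : ℕ) : 0 ≤ kappa d := ENNReal.toReal_nonneg

theorem vol_cb (d : ℕ) (a : E d) {r : ℝ} (hr : 0 ≤ r) :
    volume (Metric.closedBall a r) = ENNReal.ofReal (kappa d * r ^ d) := by
  rw [Measure.addHaar_closedBall _ _ hr, finrank_euclideanSpace_fin]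
  unfold kappa
  rw [ENNReal.ofReal_mul ENNReal.toReal_nonneg, ENNReal.ofReal_toReal measure_ball_lt_top.ne,
    mul_comm]

theorem slab_sub {d : ℕ} {ρ τ M : ℝ} (hM : 0 < M) (hτ : 0 < τ) (y : E d) (hy : ‖y‖ ≤ M) :
    ∃ a : E d, {v : E d | ‖v‖ ≤ ρ ∧ τ ≤ inner ℝ v y} ⊆
      Metric.closedBall a (Real.sqrt (ρ ^ 2 - (τ / M) ^ 2)) := by
  by_cases h0 : y = 0
  · refine ⟨0, fun v hv => ?_⟩
    have := hv.2
    rw [h0, inner_zero_right] at this
    linarith
  · have hy0 : 0 < ‖y‖ := norm_pos_iff.2 h0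
    refine ⟨(τ / ‖y‖ ^ 2) • y, fun v hv => ?_⟩
    obtain ⟨h1, h2⟩ := hv
    rw [Metric.mem_closedBall, dist_eq_norm]
    refine Real.le_sqrt_of_sq_le ?_
    rw [norm_sub_sq_real, inner_smul_right, norm_smul, Real.norm_of_nonneg (by positivity)]
    have h3 : τ / ‖y‖ ^ 2 * τ ≤ τ / ‖y‖ ^ 2 * inner ℝ v y :=
      mul_le_mul_of_nonneg_left h2 (by positivity)
    have h4 : ‖v‖ ^ 2 ≤ ρ ^ 2 := pow_le_pow_left₀ (norm_nonneg _) h1 2
    have h5 : (τ / M) ^ 2 ≤ τ / ‖y‖ ^ 2 * τ := by
      have e : τ / ‖y‖ ^ 2 * τ = (τ / ‖y‖) ^ 2 := by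
        field_simp
      rw [e]
      exact pow_le_pow_left₀ (by positivity) (div_le_div_of_nonneg_left hτ.le hy0 hy) 2
    have h6 : (τ / ‖y‖ ^ 2 * ‖y‖) ^ 2 = τ / ‖y‖ ^ 2 * τ := by
      field_simp
    rw [h6]
    linarith

theorem fibre {n : ℕ} {ρ τ M : ℝ} (hρ : 0 < ρ) (hτ : 0 < τ) (hM : 0 < M) :
    ∃ d₀ : ℕ, ∀ d ≥ d₀, ∀ y : Fin n → E d, (∀ j, ‖y j‖ ≤ M) →
    ENNReal.ofReal (1 / 2 * (kappa d * ρ ^ d)) ≤
      volume {v : E d | ‖v‖ ≤ ρ ∧ ρ ^ 2 - τ < ‖v‖ ^ 2 ∧ ∀ j, |inner ℝ v (y j)| < τ} := by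
  set μ := min τ ((τ / M) ^ 2) with hμ
  have hμ0 : 0 < μ := lt_min hτ (by positivity)
  set r := Real.sqrt (ρ ^ 2 - μ) with hr
  have hr0 : 0 ≤ r := Real.sqrt_nonneg _
  have hrρ : r < ρ := by
    rw [hr, Real.sqrt_lt' hρ]
    linarith
  have hq0 : 0 ≤ r / ρ := by positivity
  have hq1 : r / ρ < 1 := (div_lt_one hρ).2 hrρ
  have hlim := (tendsto_pow_atTop_nhds_zero_of_lt_one hq0 hq1).const_mul (1 + 2 * (n : ℝ))
  rw [mul_zero] at hlim
  obtain ⟨d₀, hd₀⟩ := Filter.eventually_atTop.1 (hlim.eventually_lt_const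
    (show (0 : ℝ) < 1 / 2 by norm_num))
  refine ⟨d₀, fun d hd y hy => ?_⟩
  have hsmall : (1 + 2 * (n : ℝ)) * (kappa d * r ^ d) ≤ 1 / 2 * (kappa d * ρ ^ d) := by
    have h1 := (hd₀ d hd).le
    rw [div_pow] at h1
    have hρd : 0 < ρ ^ d := by positivity
    have h2 : (1 + 2 * (n : ℝ)) * r ^ d ≤ 1 / 2 * ρ ^ d := by
      have h3 := mul_le_mul_of_nonneg_right h1 hρd.le
      have h4 : (1 + 2 * (n : ℝ)) * (r ^ d / ρ ^ d) * ρ ^ d = (1 + 2 * (n : ℝ)) * r ^ d := by
        field_simp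
      rwa [h4] at h3
    nlinarith [kappa_nonneg d]
  set good := {v : E d | ‖v‖ ≤ ρ ∧ ρ ^ 2 - τ < ‖v‖ ^ 2 ∧ ∀ j, |inner ℝ v (y j)| < τ} with hgood
  let B : Fin n → Set (E d) := fun j => {v : E d | ‖v‖ ≤ ρ ∧ τ ≤ inner ℝ v (y j)}
  let B' : Fin n → Set (E d) := fun j => {v : E d | ‖v‖ ≤ ρ ∧ τ ≤ inner ℝ v (-y j)}
  have hcover : Metric.closedBall (0 : E d) ρ ⊆
      good ∪ (Metric.closedBall (0 : E d) r ∪ ⋃ j, (B j ∪ B' j)) := by
    intro v hv
    rw [Metric.mem_closedBall, dist_zero_right] at hv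
    by_cases h1 : ρ ^ 2 - τ < ‖v‖ ^ 2
    · by_cases h2 : ∀ j, |inner ℝ v (y j)| < τ
      · exact Or.inl ⟨hv, h1, h2⟩
      · push Not at h2
        obtain ⟨j, hj⟩ := h2
        refine Or.inr (Or.inr (mem_iUnion.2 ⟨j, ?_⟩))
        rcases le_abs.1 hj with h3 | h3
        · exact Or.inl ⟨hv, h3⟩
        · refine Or.inr ⟨hv, ?_⟩
          rw [inner_neg_right]
          exact h3
    · push Not at h1
      refine Or.inr (Or.inl ?_)
      rw [Metric.mem_closedBall, dist_zero_right]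
      refine Real.le_sqrt_of_sq_le (h1.trans ?_)
      have := min_le_left τ ((τ / M) ^ 2)
      linarith
  have hball : ∀ y' : E d, ‖y'‖ ≤ M →
      volume {v : E d | ‖v‖ ≤ ρ ∧ τ ≤ inner ℝ v y'} ≤ ENNReal.ofReal (kappa d * r ^ d) := by
    intro y' hy'
    obtain ⟨a, ha⟩ := slab_sub (ρ := ρ) hM hτ y' hy'
    refine (measure_mono ha).trans ?_
    rw [vol_cb d a (Real.sqrt_nonneg _)]
    refine ENNReal.ofReal_le_ofReal (mul_le_mul_of_nonneg_left ?_ (kappa_nonneg d))
    refine pow_le_pow_left₀ (Real.sqrt_nonneg _) (Real.sqrt_le_sqrt ?_) d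
    have := min_le_right τ ((τ / M) ^ 2)
    linarith
  have hbad : volume (Metric.closedBall (0 : E d) r ∪ ⋃ j, (B j ∪ B' j)) ≤
      ENNReal.ofReal (1 / 2 * (kappa d * ρ ^ d)) := by
    refine (measure_union_le _ _).trans ?_
    have h1 : volume (⋃ j, (B j ∪ B' j)) ≤ ∑ _j : Fin n, 2 * ENNReal.ofReal (kappa d * r ^ d) := by
      refine (measure_iUnion_fintype_le _ _).trans (Finset.sum_le_sum fun j _ => ?_)
      refine (measure_union_le _ _).trans ?_
      rw [two_mul]
      exact add_le_add (hball (y j) (hy j)) (hball (-y j) (by rw [norm_neg]; exact hy j))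
    rw [Finset.sum_const, Finset.card_univ, Fintype.card_fin, nsmul_eq_mul] at h1
    rw [vol_cb d 0 hr0]
    refine (add_le_add le_rfl h1).trans ?_
    refine le_trans (le_of_eq ?_) (ENNReal.ofReal_le_ofReal hsmall)
    rw [ENNReal.ofReal_mul (p := 1 + 2 * (n : ℝ)) (by positivity),
      ENNReal.ofReal_add (by norm_num) (by positivity), ENNReal.ofReal_one,
      ENNReal.ofReal_mul (p := 2) (by norm_num), ENNReal.ofReal_natCast]
    simp only [ENNReal.ofReal_ofNat]
    ring
  have htot : ENNReal.ofReal (1 / 2 * (kappa d * ρ ^ d)) +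
      ENNReal.ofReal (1 / 2 * (kappa d * ρ ^ d)) ≤
      volume good + ENNReal.ofReal (1 / 2 * (kappa d * ρ ^ d)) := by
    have hk : 0 ≤ kappa d * ρ ^ d := mul_nonneg (kappa_nonneg d) (by positivity)
    rw [← ENNReal.ofReal_add (by linarith) (by linarith)]
    have e : 1 / 2 * (kappa d * ρ ^ d) + 1 / 2 * (kappa d * ρ ^ d) = kappa d * ρ ^ d := by ring
    rw [e, ← vol_cb d 0 hρ.le]
    exact ((measure_mono hcover).trans (measure_union_le _ _)).trans (add_le_add le_rfl hbad)
  exact (ENNReal.add_le_add_iff_right ENNReal.ofReal_ne_top).1 htot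

theorem measurableSet_T {n d : ℕ} (G : Matrix (Fin n) (Fin n) ℝ) (δ : ℝ) :
    MeasurableSet (T G δ d) := by
  have h : T G δ d = ⋂ i, ⋂ j, {x | |inner ℝ (x i) (x j) - G i j| < δ} := by
    ext x
    simp [T]
  rw [h]
  refine MeasurableSet.iInter fun i => MeasurableSet.iInter fun j => ?_
  refine measurableSet_lt ?_ measurable_const
  fun_prop

theorem mem_T_cons {n d : ℕ} {G : Matrix (Fin (n + 1)) (Fin (n + 1)) ℝ}
    (hs : ∀ i j, G i j = G j i) {c : Fin n → ℝ}
    (hc : ∀ i, ∑ j, c j * G (Fin.succ j) (Fin.succ i) = G (Fin.succ i) 0) {ρ2 τ δ' δ : ℝ}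
    (hρ2 : ρ2 = G 0 0 - ∑ j, c j * G (Fin.succ j) 0) {y : Fin n → E d}
    (hy : y ∈ T (G.submatrix Fin.succ Fin.succ) δ' d) {v : E d} (hv1 : ‖v‖ ^ 2 ≤ ρ2)
    (hv2 : ρ2 - τ < ‖v‖ ^ 2) (hv3 : ∀ j, |inner ℝ v (y j)| < τ)
    (hδ : δ' ≤ δ) (hδ1 : (∑ j, |c j|) * δ' + τ ≤ δ)
    (hδ2 : (∑ j, |c j|) ^ 2 * δ' + 2 * (∑ j, |c j|) * τ + τ ≤ δ) :
    (Fin.cons ((∑ j, c j • y j) + v) y : Fin (n + 1) → E d) ∈ T G δ d := by
  have hyy : ∀ i j, |inner ℝ (y i) (y j) - G (Fin.succ i) (Fin.succ j)| < δ' := hy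
  have h0s : ∀ i : Fin n, |inner ℝ ((∑ j, c j • y j) + v) (y i) - G 0 (Fin.succ i)| < δ := by
    intro i
    have e1 : inner ℝ ((∑ j, c j • y j) + v) (y i) - G 0 (Fin.succ i) =
        (∑ j, c j * (inner ℝ (y j) (y i) - G (Fin.succ j) (Fin.succ i))) + inner ℝ v (y i) := by
      rw [hs 0 (Fin.succ i), ← hc i, inner_add_left, sum_inner]
      simp only [inner_smul_left, conj_trivial, mul_sub, Finset.sum_sub_distrib]
      ring
    rw [e1]
    have h1 : |∑ j, c j * (inner ℝ (y j) (y i) - G (Fin.succ j) (Fin.succ i))| ≤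
        (∑ j, |c j|) * δ' := by
      refine (Finset.abs_sum_le_sum_abs _ _).trans ?_
      rw [Finset.sum_mul]
      refine Finset.sum_le_sum fun j _ => ?_
      rw [abs_mul]
      exact mul_le_mul_of_nonneg_left (hyy j i).le (abs_nonneg _)
    have h2 := abs_add_le (∑ j, c j * (inner ℝ (y j) (y i) - G (Fin.succ j) (Fin.succ i)))
      (inner ℝ v (y i))
    have h3 := hv3 i
    linarith
  intro i j
  refine Fin.cases ?_ (fun i => ?_) i
  · refine Fin.cases ?_ (fun j => ?_) j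
    · rw [Fin.cons_zero]
      set w : E d := ∑ j, c j • y j with hw
      have e1 : inner ℝ (w + v) (w + v) - G 0 0 =
          (∑ i, ∑ j, c i * c j * (inner ℝ (y i) (y j) - G (Fin.succ i) (Fin.succ j))) +
            2 * (∑ j, c j * inner ℝ v (y j)) + (‖v‖ ^ 2 - ρ2) := by
        have e2 : inner ℝ (w + v) (w + v) = inner ℝ w w + 2 * inner ℝ v w + ‖v‖ ^ 2 := by
          rw [inner_add_left, inner_add_right, inner_add_right, real_inner_self_eq_norm_sq v,
            real_inner_comm w v]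
          ring
        have e3 : inner ℝ v w = ∑ j, c j * inner ℝ v (y j) := by
          rw [hw, inner_sum]
          simp only [inner_smul_right]
        have e4 : inner ℝ w w = ∑ i, ∑ j, c i * c j * inner ℝ (y i) (y j) := by
          rw [hw, sum_inner]
          refine Finset.sum_congr rfl fun i _ => ?_
          rw [inner_sum]
          refine Finset.sum_congr rfl fun j _ => ?_
          rw [inner_smul_left, inner_smul_right, conj_trivial]
          ring
        have e5 : ∑ i, ∑ j, c i * c j * G (Fin.succ i) (Fin.succ j) =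
            ∑ j, c j * G (Fin.succ j) 0 := by
          rw [Finset.sum_comm]
          refine Finset.sum_congr rfl fun j _ => ?_
          rw [← hc j, Finset.mul_sum]
          refine Finset.sum_congr rfl fun i _ => ?_
          ring
        rw [e2, e3, e4, hρ2, ← e5]
        simp only [mul_sub, Finset.sum_sub_distrib]
        ring
      rw [e1]
      have h1 : |∑ i, ∑ j, c i * c j * (inner ℝ (y i) (y j) - G (Fin.succ i) (Fin.succ j))| ≤
          (∑ j, |c j|) ^ 2 * δ' := by
        refine (Finset.abs_sum_le_sum_abs _ _).trans ?_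
        rw [sq, Finset.sum_mul, Finset.sum_mul]
        refine Finset.sum_le_sum fun i _ => ?_
        refine (Finset.abs_sum_le_sum_abs _ _).trans ?_
        rw [Finset.mul_sum, Finset.sum_mul]
        refine Finset.sum_le_sum fun j _ => ?_
        rw [abs_mul, abs_mul]
        exact mul_le_mul_of_nonneg_left (hyy i j).le (by positivity)
      have h2 : |2 * (∑ j, c j * inner ℝ v (y j))| ≤ 2 * (∑ j, |c j|) * τ := by
        rw [abs_mul, abs_of_pos (by norm_num : (0 : ℝ) < 2), mul_assoc]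
        refine mul_le_mul_of_nonneg_left ?_ (by norm_num)
        refine (Finset.abs_sum_le_sum_abs _ _).trans ?_
        rw [Finset.sum_mul]
        refine Finset.sum_le_sum fun j _ => ?_
        rw [abs_mul]
        exact mul_le_mul_of_nonneg_left (hv3 j).le (abs_nonneg _)
      have h3 : |‖v‖ ^ 2 - ρ2| < τ := by
        rw [abs_lt]
        constructor
        · linarith
        · linarith
      have h4 := abs_add_three
        (∑ i, ∑ j, c i * c j * (inner ℝ (y i) (y j) - G (Fin.succ i) (Fin.succ j)))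
        (2 * (∑ j, c j * inner ℝ v (y j))) (‖v‖ ^ 2 - ρ2)
      linarith
    · rw [Fin.cons_zero, Fin.cons_succ]
      exact h0s j
  · refine Fin.cases ?_ (fun j => ?_) j
    · rw [Fin.cons_zero, Fin.cons_succ, real_inner_comm, hs]
      exact h0s i
    · rw [Fin.cons_succ, Fin.cons_succ]
      exact (hyy i j).trans_le hδ

/-- The Schur complement. -/
theorem schur {n : ℕ} {G : Matrix (Fin (n + 1)) (Fin (n + 1)) ℝ} (hG : G.PosDef) :
    ∃ c : Fin n → ℝ, (∀ i, ∑ j, c j * G (Fin.succ j) (Fin.succ i) = G (Fin.succ i) 0) ∧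
      (G 0 0 - ∑ j, c j * G (Fin.succ j) 0) * (G.submatrix Fin.succ Fin.succ).det = G.det := by
  set G' := G.submatrix Fin.succ Fin.succ with hG'
  have hs : ∀ i j, G i j = G j i := fun i j => by
    have := hG.isHermitian.apply i j
    simpa using this.symm
  have hp : G'.PosDef := hG.submatrix (Fin.succ_injective n)
  have hdet : IsUnit G'.det := isUnit_iff_ne_zero.2 hp.det_pos.ne'
  set c := G'⁻¹.mulVec (fun i => G (Fin.succ i) 0) with hc
  have h1 : G'.mulVec c = fun i => G (Fin.succ i) 0 := by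
    rw [hc, Matrix.mulVec_mulVec, Matrix.mul_nonsing_inv _ hdet, Matrix.one_mulVec]
  have h2 : ∀ i, ∑ j, c j * G (Fin.succ j) (Fin.succ i) = G (Fin.succ i) 0 := by
    intro i
    have := congrFun h1 i
    rw [← this]
    show _ = ∑ j, G' i j * c j
    refine Finset.sum_congr rfl fun j _ => ?_
    rw [hs]
    show c j * G (Fin.succ i) (Fin.succ j) = G (Fin.succ i) (Fin.succ j) * c j
    ring
  refine ⟨c, h2, ?_⟩
  have h3 := Matrix.det_updateCol_sum G 0 (Fin.cons 1 fun j => -c j : Fin (n + 1) → ℝ)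
  rw [Fin.cons_zero, one_smul] at h3
  rw [← h3, Matrix.det_succ_column_zero, Fin.sum_univ_succ]
  have h4 : ∑ i : Fin n, (-1 : ℝ) ^ ((Fin.succ i : Fin (n + 1)) : ℕ) *
      (G.updateCol 0 fun k => ∑ i, (Fin.cons 1 fun j => -c j : Fin (n + 1) → ℝ) i • G k i)
        (Fin.succ i) 0 *
      ((G.updateCol 0 fun k => ∑ i, (Fin.cons 1 fun j => -c j : Fin (n + 1) → ℝ) i • G k i).submatrix
        (Fin.succ i).succAbove Fin.succ).det = 0 := by
    refine Finset.sum_eq_zero fun i _ => ?_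
    have h5 : (G.updateCol 0 fun k => ∑ i, (Fin.cons 1 fun j => -c j : Fin (n + 1) → ℝ) i • G k i)
        (Fin.succ i) 0 = 0 := by
      rw [Matrix.updateCol_self, Fin.sum_univ_succ]
      simp only [Fin.cons_zero, Fin.cons_succ, smul_eq_mul, one_mul, neg_mul,
        Finset.sum_neg_distrib]
      rw [← h2 i]
      have : ∑ x, c x * G (Fin.succ i) (Fin.succ x) = ∑ j, c j * G (Fin.succ j) (Fin.succ i) :=
        Finset.sum_congr rfl fun j _ => by rw [hs (Fin.succ i)]
      rw [this]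
      ring
    rw [h5, mul_zero, zero_mul]
  rw [h4, add_zero]
  have h6 : (G.updateCol 0 fun k => ∑ i, (Fin.cons 1 fun j => -c j : Fin (n + 1) → ℝ) i • G k i)
      0 0 = G 0 0 - ∑ j, c j * G (Fin.succ j) 0 := by
    rw [Matrix.updateCol_self, Fin.sum_univ_succ]
    simp only [Fin.cons_zero, Fin.cons_succ, smul_eq_mul, one_mul, neg_mul,
      Finset.sum_neg_distrib]
    rw [sub_eq_add_neg]
    congr 2
    exact Finset.sum_congr rfl fun j _ => by rw [hs 0]
  have h7 : ((G.updateCol 0 fun k => ∑ i, (Fin.cons 1 fun j => -c j : Fin (n + 1) → ℝ) i •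
      G k i).submatrix (Fin.succAbove 0) Fin.succ) = G' := by
    ext i j
    rw [Matrix.submatrix_apply, Matrix.updateCol_ne (Fin.succ_ne_zero j), Fin.succAbove_zero]
    rfl
  rw [h6, h7]
  simp

theorem vol_step {n d : ℕ} (G : Matrix (Fin (n + 1)) (Fin (n + 1)) ℝ) (δ : ℝ)
    {A : Set (Fin n → E d)} (hA : MeasurableSet A) {C : ℝ≥0∞}
    (h : ∀ y ∈ A, C ≤ volume {a : E d | (Fin.cons a y : Fin (n + 1) → E d) ∈ T G δ d}) :
    C * volume A ≤ volume (T G δ d) := by
  have mp := volume_preserving_piFinSuccAbove (fun _ : Fin (n + 1) => E d) 0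
  have h1 := (mp.symm _).measure_preimage_equiv (T G δ d)
  rw [← h1, Measure.volume_eq_prod, Measure.prod_apply_symm
    ((MeasurableEquiv.measurable _) (measurableSet_T G δ))]
  calc C * volume A = ∫⁻ _ in A, C := by rw [setLIntegral_const]
    _ ≤ ∫⁻ y in A, volume {a : E d | (Fin.cons a y : Fin (n + 1) → E d) ∈ T G δ d} :=
        setLIntegral_mono' hA h
    _ ≤ ∫⁻ y, volume {a : E d | (Fin.cons a y : Fin (n + 1) → E d) ∈ T G δ d} :=
        setLIntegral_le_lintegral _ _
    _ = _ := by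
        refine lintegral_congr fun y => ?_
        congr 1
        ext a
        have e : (MeasurableEquiv.piFinSuccAbove (fun _ : Fin (n + 1) => E d) 0).symm (a, y) =
            (Fin.cons a y : Fin (n + 1) → E d) := by
          rw [← Fin.insertNth_zero']
          rfl
        show (Fin.cons a y : Fin (n + 1) → E d) ∈ T G δ d ↔
          (MeasurableEquiv.piFinSuccAbove (fun _ : Fin (n + 1) => E d) 0).symm (a, y) ∈ T G δ d
        rw [e]

end VLow

open VLow

theorem vlow : S_vlow := by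
  intro n
  induction n with
  | zero =>
    intro G _ δ _ θ hθ0 hθ1
    refine ⟨0, fun d _ => ?_⟩
    have hT : T G δ d = univ := by
      ext x
      simp only [T, Set.mem_ofPred_eq, mem_univ, iff_true]
      exact fun i => i.elim0
    have hv : volume (univ : Set (Fin 0 → E d)) = 1 := by
      rw [volume_pi, Measure.pi_empty_univ]
    rw [hT, hv, pow_zero, one_mul, Matrix.det_fin_zero, mul_one, ← ENNReal.ofReal_one]
    refine ENNReal.ofReal_le_ofReal (pow_le_one₀ (Real.sqrt_nonneg _) ?_)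
    rw [show (1 : ℝ) = Real.sqrt 1 by simp]
    exact Real.sqrt_le_sqrt hθ1.le
  | succ n ih =>
    intro G hG δ hδ θ hθ0 hθ1
    have hs : ∀ i j, G i j = G j i := fun i j => by
      have := hG.isHermitian.apply i j
      simpa using this.symm
    set G' := G.submatrix Fin.succ Fin.succ with hG'
    have hp : G'.PosDef := hG.submatrix (Fin.succ_injective n)
    obtain ⟨c, hc, hdet⟩ := schur hG
    set ρ2 := G 0 0 - ∑ j, c j * G (Fin.succ j) 0 with hρ2
    rw [← hG'] at hdet
    have hρ2pos : 0 < ρ2 := by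
      have h1 := hG.det_pos
      rw [← hdet] at h1
      exact pos_of_mul_pos_left h1 hp.det_pos.le
    set ρ := Real.sqrt ρ2 with hρ
    have hρ0 : 0 < ρ := Real.sqrt_pos.2 hρ2pos
    have hρsq : ρ ^ 2 = ρ2 := Real.sq_sqrt hρ2pos.le
    set C := ∑ j, |c j| with hC
    have hC0 : 0 ≤ C := Finset.sum_nonneg fun j _ => abs_nonneg _
    set τ := δ / (4 * (C + 1) ^ 2) with hτ
    have hτ0 : 0 < τ := by positivity
    have hτ1 : τ * (4 * (C + 1) ^ 2) = δ := by
      rw [hτ]
      field_simp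
    have hk0 : 0 ≤ τ * C := mul_nonneg hτ0.le hC0
    have hk0' : 0 ≤ τ * C ^ 2 := mul_nonneg hτ0.le (sq_nonneg C)
    have hk1 : τ ≤ δ := by rw [← hτ1]; nlinarith
    have hk2 : C * τ + τ ≤ δ := by rw [← hτ1]; nlinarith
    have hk3 : C ^ 2 * τ + 2 * C * τ + τ ≤ δ := by rw [← hτ1]; nlinarith
    set M := 1 + (∑ j, |G' j j|) + τ with hM
    have hS0 : 0 ≤ ∑ j, |G' j j| := Finset.sum_nonneg fun j _ => abs_nonneg _
    have hM1 : 1 ≤ M := by linarith
    have hθ' : θ < (1 + θ) / 2 := by linarith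
    set θ' := (1 + θ) / 2 with hθ'def
    have hθ'0 : 0 < θ' := by linarith
    have hθ'1 : θ' < 1 := by rw [hθ'def]; linarith
    obtain ⟨d₁, hd₁⟩ := ih G' hp τ hτ0 θ' hθ'0 hθ'1
    obtain ⟨d₂, hd₂⟩ := fibre (n := n) (ρ := ρ) (τ := τ) (M := M) hρ0 hτ0 (by linarith)
    -- the last limit
    set s := Real.sqrt (θ * G.det) with hsdef
    set s' := Real.sqrt (θ' * G.det) with hs'def
    have hdpos := hG.det_pos
    have hs0 : 0 ≤ s := Real.sqrt_nonneg _
    have hs'0 : 0 < s' := Real.sqrt_pos.2 (by positivity)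
    have hss' : s < s' := Real.sqrt_lt_sqrt (by positivity)
      (mul_lt_mul_of_pos_right hθ' hdpos)
    have hlim := tendsto_pow_atTop_nhds_zero_of_lt_one (div_nonneg hs0 hs'0.le)
      ((div_lt_one hs'0).2 hss')
    obtain ⟨d₃, hd₃⟩ := Filter.eventually_atTop.1 (hlim.eventually_lt_const
      (show (0 : ℝ) < 1 / 2 by norm_num))
    refine ⟨max d₁ (max d₂ d₃), fun d hd => ?_⟩
    have hdd1 := hd₁ d ((le_max_left _ _).trans hd)
    have hdd2 := hd₂ d (((le_max_left _ _).trans (le_max_right _ _)).trans hd)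
    have hdd3 := hd₃ d (((le_max_right _ _).trans (le_max_right _ _)).trans hd)
    have hstep := vol_step (d := d) G δ (measurableSet_T G' τ)
      (C := ENNReal.ofReal (1 / 2 * (kappa d * ρ ^ d))) (by
        intro y hy
        have hyM : ∀ j, ‖y j‖ ≤ M := by
          intro j
          have h1 : |inner ℝ (y j) (y j) - G' j j| < τ := hy j j
          rw [real_inner_self_eq_norm_sq] at h1
          have h2 := (abs_lt.1 h1).2
          have h3 : |G' j j| ≤ ∑ j, |G' j j| :=
            Finset.single_le_sum (f := fun j => |G' j j|) (fun j _ => abs_nonneg _)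
              (Finset.mem_univ j)
          have h4 := le_abs_self (G' j j)
          refine le_of_sq_le_sq ?_ (by linarith)
          nlinarith
        refine (hdd2 y hyM).trans ?_
        have h5 := measure_preimage_add (volume : Measure (E d)) (-(∑ j, c j • y j))
          {v : E d | ‖v‖ ≤ ρ ∧ ρ ^ 2 - τ < ‖v‖ ^ 2 ∧ ∀ j, |inner ℝ v (y j)| < τ}
        rw [← h5]
        refine measure_mono fun a ha => ?_
        obtain ⟨h6, h7, h8⟩ := ha
        have h9 := mem_T_cons hs hc hρ2 hy (v := -(∑ j, c j • y j) + a) (τ := τ) (δ := δ)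
          (by
            rw [← hρsq]
            exact pow_le_pow_left₀ (norm_nonneg _) h6 2)
          (by rw [← hρsq]; exact h7) h8 hk1 hk2 hk3
        rw [add_neg_cancel_left] at h9
        exact h9)
    refine le_trans ?_ hstep
    refine le_trans ?_ (mul_le_mul_right hdd1 _)
    rw [← ENNReal.ofReal_mul (by have := kappa_nonneg d; positivity)]
    refine ENNReal.ofReal_le_ofReal ?_
    have hsm : s' = Real.sqrt (θ' * G'.det) * ρ := by
      rw [hs'def, hρ, ← Real.sqrt_mul (by have := hp.det_pos; positivity), ← hdet]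
      congr 1
      ring
    have hpow : s ^ d ≤ 1 / 2 * s' ^ d := by
      rw [div_pow] at hdd3
      have h10 : 0 < s' ^ d := by positivity
      rw [div_lt_iff₀ h10] at hdd3
      exact hdd3.le
    have hkn : 0 ≤ kappa d ^ (n + 1) := pow_nonneg (kappa_nonneg d) _
    calc kappa d ^ (n + 1) * s ^ d ≤ kappa d ^ (n + 1) * (1 / 2 * s' ^ d) :=
          mul_le_mul_of_nonneg_left hpow hkn
      _ = 1 / 2 * (kappa d * ρ ^ d) * (kappa d ^ n * Real.sqrt (θ' * G'.det) ^ d) := by
          rw [hsm, mul_pow, pow_succ]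
          ring

end Pool.Agent.Helper89.WD
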