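import Pool.Agent.Helper89.WD.Stm

/-!
# WD: package VONE
-/

set_option autoImplicit false

namespace Pool.Agent.Helper89.WD

open MeasureTheory Set Filter Topology
open scoped ENNReal

namespace Vone

lemma D_univ {n : ℕ} (G : Matrix (Fin n) (Fin n) ℝ) : D G Finset.univ = G.det := by
  have h := Matrix.det_submatrix_equiv_self
    (Equiv.subtypeUnivEquiv (p := fun i : Fin n => i ∈ Finset.univ) (fun i => Finset.mem_univ i)) G
  exact h

lemma D_empty {n : ℕ} (G : Matrix (Fin n) (Fin n) ℝ) : D G ∅ = 1 := by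
  unfold D
  exact Matrix.det_isEmpty

/-- the compact set of matrices -/
def KG (n : ℕ) (R δ : ℝ) : Set (Fin n → Fin n → ℝ) :=
  {G | (∀ i j, G i j = G j i) ∧ (∀ w : Fin n → ℝ, 0 ≤ ∑ i, ∑ j, w i * w j * G i j) ∧
    (∀ i j, G i j ∈ Set.Icc (-(R ^ 2)) (R ^ 2)) ∧ (Matrix.of G).det ≤ 1 - δ}

lemma isCompact_KG (n : ℕ) (R δ : ℝ) : IsCompact (KG n R δ) := by
  have h1 : IsCompact (Set.pi Set.univ fun _ : Fin n => Set.pi Set.univ fun _ : Fin n =>
      Set.Icc (-(R ^ 2)) (R ^ 2)) :=
    isCompact_univ_pi fun _ => isCompact_univ_pi fun _ => isCompact_Icc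
  refine h1.of_isClosed_subset ?_ ?_
  · have h2 : KG n R δ = (⋂ i, ⋂ j, {G : Fin n → Fin n → ℝ | G i j = G j i}) ∩
        ((⋂ w : Fin n → ℝ, {G : Fin n → Fin n → ℝ | 0 ≤ ∑ i, ∑ j, w i * w j * G i j}) ∩
        ((⋂ i, ⋂ j, {G : Fin n → Fin n → ℝ | G i j ∈ Set.Icc (-(R ^ 2)) (R ^ 2)}) ∩
        {G : Fin n → Fin n → ℝ | (Matrix.of G).det ≤ 1 - δ})) := by
      ext G
      simp only [KG, Set.mem_ofPred_eq, Set.mem_inter_iff, Set.mem_iInter]
    rw [h2]
    refine IsClosed.inter ?_ (IsClosed.inter ?_ (IsClosed.inter ?_ ?_))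
    · refine isClosed_iInter fun i => isClosed_iInter fun j => isClosed_eq ?_ ?_ <;> fun_prop
    · refine isClosed_iInter fun w => isClosed_le ?_ ?_ <;> fun_prop
    · refine isClosed_iInter fun i => isClosed_iInter fun j => IsClosed.preimage ?_ isClosed_Icc
      fun_prop
    · refine isClosed_le ?_ continuous_const
      refine Continuous.matrix_det ?_
      exact continuous_id
  · intro G hG i _ j _
    exact hG.2.2.1 i j

lemma pos_KG {n : ℕ} {R δ : ℝ} {G : Fin n → Fin n → ℝ} (h : G ∈ KG n R δ) :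
    (Matrix.of G).PosSemidef := by
  refine Matrix.PosSemidef.of_dotProduct_mulVec_nonneg ?_ ?_
  · ext i j
    simp only [Matrix.conjTranspose_apply, Matrix.of_apply, star_trivial]
    exact h.1 j i
  · intro w
    have h1 := h.2.1 w
    have h2 : star w ⬝ᵥ (Matrix.of G).mulVec w = ∑ i, ∑ j, w i * w j * G i j := by
      simp only [dotProduct, Matrix.mulVec, Pi.star_apply, star_trivial, Matrix.of_apply]
      refine Finset.sum_congr rfl fun i _ => ?_
      rw [Finset.mul_sum]
      refine Finset.sum_congr rfl fun j _ => ?_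
      ring
    rw [h2]
    exact h1

lemma gr_mem {n d : ℕ} {R δ : ℝ} (x : Fin n → E d) (hx : ∀ i, ‖x i‖ ≤ R)
    (hdet : (gr x).det ≤ 1 - δ) : (fun i j => inner ℝ (x i) (x j)) ∈ KG n R δ := by
  refine ⟨fun i j => real_inner_comm _ _, fun w => ?_, fun i j => ?_, hdet⟩
  · have h2 : ‖∑ i, w i • x i‖ ^ 2 = ∑ i, ∑ j, w i * w j * inner ℝ (x i) (x j) := by
      rw [← real_inner_self_eq_norm_sq, sum_inner]
      refine Finset.sum_congr rfl fun i _ => ?_
      rw [inner_sum]
      refine Finset.sum_congr rfl fun j _ => ?_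
      rw [real_inner_smul_left, real_inner_smul_right]
      ring
    rw [← h2]
    positivity
  · have h1 := abs_real_inner_le_norm (x i) (x j)
    have h2 : ‖x i‖ * ‖x j‖ ≤ R ^ 2 := by
      rw [pow_two]
      exact mul_le_mul (hx i) (hx j) (norm_nonneg _) ((norm_nonneg _).trans (hx i))
    exact abs_le.1 (h1.trans h2)

end Vone

open Vone

theorem vone (hU : S_vup) : S_vone := by
  intro n R δ η hδ hη
  set q : ℝ := Real.sqrt (1 - δ / 2) with hq
  have hq0 : 0 ≤ q := Real.sqrt_nonneg _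
  have hq1 : q < 1 := by
    rw [hq, Real.sqrt_lt' one_pos]
    linarith
  have h1 : ∀ G : Fin n → Fin n → ℝ, ∃ ε : ℝ, 0 < ε ∧ (G ∈ KG n R δ → ∀ d : ℕ,
      volume (T (Matrix.of G) ε d) ≤ ENNReal.ofReal (kappa d ^ n * q ^ d)) := by
    intro G
    by_cases hG : G ∈ KG n R δ
    · obtain ⟨ε, hε, h2⟩ := hU n (Matrix.of G) (pos_KG hG) (δ / 2) (by positivity)
      refine ⟨ε, hε, fun _ d => ?_⟩
      have h3 := h2 ∅ (by rw [D_empty]; exact one_pos) d 0
      rw [Finset.compl_empty, lmarginal_univ, D_univ, D_empty, div_one, Finset.card_univ,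
        Fintype.card_fin] at h3
      have hmeas : MeasurableSet (T (Matrix.of G) ε d) := by
        have h : T (Matrix.of G) ε d = ⋂ i, ⋂ j,
            {x : Fin n → E d | |inner ℝ (x i) (x j) - G i j| < ε} := by
          ext x
          simp [T]
        rw [h]
        refine MeasurableSet.iInter fun i => MeasurableSet.iInter fun j => ?_
        refine (isOpen_lt ?_ continuous_const).measurableSet
        fun_prop
      rw [lintegral_indicator_one hmeas] at h3
      refine h3.trans (ENNReal.ofReal_le_ofReal ?_)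
      have hk : 0 ≤ kappa d := ENNReal.toReal_nonneg
      refine mul_le_mul_of_nonneg_left ?_ (by positivity)
      refine pow_le_pow_left₀ (Real.sqrt_nonneg _) ?_ d
      apply Real.sqrt_le_sqrt
      have := hG.2.2.2
      linarith
    · exact ⟨1, one_pos, fun h => absurd h hG⟩
  choose ε hε hvol using h1
  obtain ⟨t, htK, htc⟩ := (isCompact_KG n R δ).elim_nhds_subcover
    (fun G => {G' : Fin n → Fin n → ℝ | ∀ i j, |G' i j - G i j| < ε G}) (by
      intro G _
      have h2 : {G' : Fin n → Fin n → ℝ | ∀ i j, |G' i j - G i j| < ε G} =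
          ⋂ i, ⋂ j, {G' : Fin n → Fin n → ℝ | |G' i j - G i j| < ε G} := by
        ext G'
        simp only [Set.mem_ofPred_eq, Set.mem_iInter]
      rw [h2]
      refine IsOpen.mem_nhds ?_ ?_
      · refine isOpen_iInter_of_finite fun i => isOpen_iInter_of_finite fun j => ?_
        exact isOpen_lt (by fun_prop) continuous_const
      · simp only [Set.mem_iInter, Set.mem_ofPred_eq, sub_self, abs_zero]
        exact fun _ _ => hε G)
  have hlim : Tendsto (fun d : ℕ => (t.card : ℝ) * q ^ d) atTop (𝓝 (t.card * 0)) :=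
    (tendsto_pow_atTop_nhds_zero_of_lt_one hq0 hq1).const_mul _
  rw [mul_zero] at hlim
  obtain ⟨d₀, hd₀⟩ := (eventually_atTop.1 (hlim.eventually (gt_mem_nhds hη)))
  refine ⟨d₀, fun d hd => ?_⟩
  have hsub : {x : Fin n → E d | (∀ i, ‖x i‖ ≤ R) ∧ (gr x).det ≤ 1 - δ} ⊆
      ⋃ G ∈ t, T (Matrix.of G) (ε G) d := by
    rintro x ⟨hx, hdet⟩
    have h3 := htc (gr_mem x hx hdet)
    simp only [Set.mem_iUnion, Set.mem_ofPred_eq, exists_prop] at h3
    obtain ⟨G, hG, h4⟩ := h3
    simp only [Set.mem_iUnion, exists_prop]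
    exact ⟨G, hG, h4⟩
  refine (measure_mono hsub).trans ((measure_biUnion_finset_le _ _).trans ?_)
  have hk : 0 ≤ kappa d := ENNReal.toReal_nonneg
  calc ∑ G ∈ t, volume (T (Matrix.of G) (ε G) d)
      ≤ ∑ G ∈ t, ENNReal.ofReal (kappa d ^ n * q ^ d) :=
        Finset.sum_le_sum fun G hG => hvol G (htK G hG) d
    _ = ENNReal.ofReal (t.card * (kappa d ^ n * q ^ d)) := by
        rw [Finset.sum_const, nsmul_eq_mul, ENNReal.ofReal_mul (Nat.cast_nonneg _),
          ENNReal.ofReal_natCast]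
    _ ≤ ENNReal.ofReal (η * kappa d ^ n) := by
        apply ENNReal.ofReal_le_ofReal
        have h5 := (hd₀ d hd).le
        have h6 := mul_le_mul_of_nonneg_right h5 (pow_nonneg hk n)
        calc (t.card : ℝ) * (kappa d ^ n * q ^ d) = t.card * q ^ d * kappa d ^ n := by ring
          _ ≤ η * kappa d ^ n := h6

end Pool.Agent.Helper89.WD
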