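import Pool.Agent.Helper89.WD.Stm

/-!
# WD: package VUP (volume upper bound for tuples with given Gram matrix)
-/

set_option autoImplicit false

namespace Pool.Agent.Helper89.WD

open MeasureTheory Set
open scoped ENNReal

/-- the marginal function -/
noncomputable def Fm {n : ℕ} (G : Matrix (Fin n) (Fin n) ℝ) (δ : ℝ) (d : ℕ) (S : Finset (Fin n))
    (x : Fin n → E d) : ℝ≥0∞ :=
  (lmarginal (fun _ : Fin n => (volume : Measure (E d))) Sᶜ ((T G δ d).indicator 1)) x

lemma measurableSet_T {n : ℕ} (G : Matrix (Fin n) (Fin n) ℝ) (δ : ℝ) (d : ℕ) :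
    MeasurableSet (T G δ d) := by
  have h : T G δ d = ⋂ i, ⋂ j, {x : Fin n → E d | |inner ℝ (x i) (x j) - G i j| < δ} := by
    ext x
    simp [T]
  rw [h]
  refine MeasurableSet.iInter fun i => MeasurableSet.iInter fun j => ?_
  refine (isOpen_lt ?_ continuous_const).measurableSet
  fun_prop

lemma Fm_ne_zero {n d : ℕ} (G : Matrix (Fin n) (Fin n) ℝ) (δ : ℝ) (S : Finset (Fin n))
    (y : Fin n → E d) (h : Fm G δ d S y ≠ 0) :
    ∀ i ∈ S, ∀ j ∈ S, |inner ℝ (y i) (y j) - G i j| < δ := by
  intro i hi j hj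
  by_contra hc
  apply h
  unfold Fm lmarginal
  have h1 : ∀ z, (T G δ d).indicator (1 : (Fin n → E d) → ℝ≥0∞)
      (Function.updateFinset y Sᶜ z) = 0 := by
    intro z
    apply Set.indicator_of_notMem
    intro hT
    apply hc
    have h2 := hT i j
    have hi' : Function.updateFinset y Sᶜ z i = y i := by simp [Function.updateFinset, hi]
    have hj' : Function.updateFinset y Sᶜ z j = y j := by simp [Function.updateFinset, hj]
    rwa [hi', hj'] at h2
  simp [h1]

lemma vol_closedBall (d : ℕ) (a : E d) (r : ℝ) (hr : 0 ≤ r) :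
    volume (Metric.closedBall a r) = ENNReal.ofReal (kappa d * r ^ d) := by
  rw [Measure.addHaar_closedBall volume a hr]
  unfold kappa
  rw [finrank_euclideanSpace_fin, mul_comm, ENNReal.ofReal_mul ENNReal.toReal_nonneg,
    ENNReal.ofReal_toReal]
  exact (measure_ball_lt_top).ne

lemma kappa_nonneg (d : ℕ) : 0 ≤ kappa d := ENNReal.toReal_nonneg

lemma Fm_step {n d : ℕ} (G : Matrix (Fin n) (Fin n) ℝ) (δ : ℝ) (S : Finset (Fin n)) (k : Fin n)
    (hk : k ∉ S) (x : Fin n → E d) (B : ℝ≥0∞) (hB : ∀ y, Fm G δ d (insert k S) y ≤ B)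
    (a : E d) (r : ℝ) (hr : 0 ≤ r)
    (h : ∀ v : E d, (∀ i ∈ insert k S, ∀ j ∈ insert k S,
      |inner ℝ (Function.update x k v i) (Function.update x k v j) - G i j| < δ) →
        ‖v - a‖ ≤ r) :
    Fm G δ d S x ≤ B * ENNReal.ofReal (kappa d * r ^ d) := by
  have hS : Sᶜ = insert k (insert k S)ᶜ := by
    ext i
    simp only [Finset.mem_compl, Finset.mem_insert]
    by_cases hi : i = k
    · subst hi
      simp [hk]
    · simp [hi]
  have h1 : k ∉ (insert k S)ᶜ := by simp
  unfold Fm
  rw [hS, lmarginal_insert _ ((measurable_one).indicator (measurableSet_T G δ d)) h1]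
  calc ∫⁻ v, (lmarginal (fun _ : Fin n => (volume : Measure (E d))) (insert k S)ᶜ
        ((T G δ d).indicator 1)) (Function.update x k v)
      ≤ ∫⁻ v, (Metric.closedBall a r).indicator (fun _ => B) v := by
        refine lintegral_mono fun v => ?_
        by_cases hv : v ∈ Metric.closedBall a r
        · rw [Set.indicator_of_mem hv]
          exact hB _
        · rw [Set.indicator_of_notMem hv]
          have h2 : Fm G δ d (insert k S) (Function.update x k v) = 0 := by
            by_contra h3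
            apply hv
            rw [mem_closedBall_iff_norm]
            exact h v (Fm_ne_zero G δ _ _ h3)
          exact h2.le
    _ = B * volume (Metric.closedBall a r) := by
        rw [lintegral_indicator_const Metric.isClosed_closedBall.measurableSet]
    _ = _ := by rw [vol_closedBall d a r hr]

lemma D_nonneg {n : ℕ} {G : Matrix (Fin n) (Fin n) ℝ} (hG : G.PosSemidef)
    (S : Finset (Fin n)) : 0 ≤ D G S := (hG.submatrix _).det_nonneg

/-- crude bound -/
lemma Fm_crude {n : ℕ} (G : Matrix (Fin n) (Fin n) ℝ) (hG : G.PosSemidef) :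
    ∃ M : ℝ, 1 ≤ M ∧ ∀ δ : ℝ, 0 < δ → δ ≤ 1 → ∀ (d m : ℕ) (S : Finset (Fin n)), Sᶜ.card = m →
      ∀ x : Fin n → E d, Fm G δ d S x ≤ ENNReal.ofReal (kappa d ^ m * (M ^ m) ^ d) := by
  have hGii : ∀ i, 0 ≤ G i i := fun i => hG.diag_nonneg
  have hM2 : ∀ i, G i i + 1 ≤ ((∑ j, G j j) + 1) := fun i => by
    have := Finset.single_le_sum (f := fun j => G j j) (fun j _ => hGii j) (Finset.mem_univ i)
    linarith
  have hs : (0 : ℝ) ≤ ∑ j, G j j := Finset.sum_nonneg fun j _ => hGii j
  refine ⟨Real.sqrt ((∑ j, G j j) + 1), ?_, ?_⟩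
  · rw [Real.one_le_sqrt]
    linarith
  intro δ hδ hδ1 d m
  induction m with
  | zero =>
    intro S hS x
    have h1 : Sᶜ = ∅ := Finset.card_eq_zero.1 hS
    unfold Fm
    rw [h1, lmarginal_empty]
    simp only [pow_zero, one_pow, mul_one, ENNReal.ofReal_one]
    by_cases hx : x ∈ T G δ d
    · rw [Set.indicator_of_mem hx]
      rfl
    · rw [Set.indicator_of_notMem hx]
      exact zero_le_one
  | succ m ih =>
    intro S hS x
    obtain ⟨k, hk⟩ : (Sᶜ).Nonempty := by
      rw [← Finset.card_pos, hS]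
      omega
    rw [Finset.mem_compl] at hk
    have hc : ((insert k S)ᶜ).card = m := by
      have h2 : (insert k S)ᶜ = Sᶜ.erase k := by
        ext i
        simp only [Finset.mem_compl, Finset.mem_insert, Finset.mem_erase]
        tauto
      rw [h2, Finset.card_erase_of_mem (by simpa using hk), hS]
      rfl
    have h3 := Fm_step G δ S k hk x _ (ih _ hc) 0 (Real.sqrt ((∑ j, G j j) + 1))
      (Real.sqrt_nonneg _) (by
        intro v hv
        have h4 := hv k (Finset.mem_insert_self _ _) k (Finset.mem_insert_self _ _)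
        rw [Function.update_self, real_inner_self_eq_norm_sq] at h4
        rw [sub_zero]
        apply Real.le_sqrt_of_sq_le
        have h5 := (abs_lt.1 h4).2
        have h6 := hM2 k
        linarith)
    refine h3.trans (le_of_eq ?_)
    rw [← ENNReal.ofReal_mul (by have := kappa_nonneg d; positivity)]
    congr 1
    rw [mul_mul_mul_comm, ← pow_succ, ← mul_pow, ← pow_succ]

/-- Schur complement -/
lemma schur {n : ℕ} (G : Matrix (Fin n) (Fin n) ℝ) (S : Finset (Fin n)) (k : Fin n)
    (hk : k ∉ S) (hD : 0 < D G S) :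
    ∃ c : Fin n → ℝ, c k = 1 ∧ ∑ i ∈ insert k S, ∑ j ∈ insert k S, c i * c j * G i j =
      D G (insert k S) / D G S := by
  classical
  set M : Matrix S S ℝ := G.submatrix (fun i : S => (i : Fin n)) (fun i : S => (i : Fin n))
    with hM
  have hdet : M.det = D G S := rfl
  have hu : IsUnit M.det := by rw [hdet]; exact hD.ne'.isUnit
  set b : S → ℝ := fun i => G i k with hb
  set w : S → ℝ := M⁻¹.mulVec b with hw
  have hMw : M.mulVec w = b := by
    rw [hw, Matrix.mulVec_mulVec, Matrix.mul_nonsing_inv _ hu, Matrix.one_mulVec]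
  set c : Fin n → ℝ := fun i => if i = k then 1 else if h : i ∈ S then - w ⟨i, h⟩ else 0 with hc
  have hck : c k = 1 := by simp [hc]
  have hcS : ∀ i : S, c i = - w i := by
    intro i
    have h1 : (i : Fin n) ≠ k := fun h => hk (h ▸ i.2)
    simp [hc, h1]
  have hsumS : ∀ f : Fin n → ℝ, ∑ j ∈ S, c j * f j = - ∑ j : S, f j * w j := by
    intro f
    rw [← Finset.sum_coe_sort S, ← Finset.sum_neg_distrib]
    refine Finset.sum_congr rfl fun j _ => ?_
    rw [hcS j]
    ring
  have hrow : ∀ i ∈ S, ∑ j ∈ insert k S, c j * G i j = 0 := by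
    intro i hi
    rw [Finset.sum_insert hk, hck, hsumS]
    have h1 := congrFun hMw ⟨i, hi⟩
    have h2 : (M.mulVec w) ⟨i, hi⟩ = ∑ j : S, G i j * w j := rfl
    rw [h2] at h1
    rw [h1]
    simp [hb]
  refine ⟨c, hck, ?_⟩
  have h3 : ∑ i ∈ insert k S, ∑ j ∈ insert k S, c i * c j * G i j =
      ∑ i ∈ insert k S, c i * ∑ j ∈ insert k S, c j * G i j := by
    refine Finset.sum_congr rfl fun i _ => ?_
    rw [Finset.mul_sum]
    refine Finset.sum_congr rfl fun j _ => ?_
    ring
  rw [h3, Finset.sum_insert hk]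
  have h4 : ∑ i ∈ S, c i * ∑ j ∈ insert k S, c j * G i j = 0 := by
    refine Finset.sum_eq_zero fun i hi => ?_
    rw [hrow i hi, mul_zero]
  rw [h4, add_zero, hck, one_mul, Finset.sum_insert hk, hck, hsumS, one_mul]
  -- the determinant
  set e : S ⊕ Unit ≃ {i // i ∈ insert k S} := Equiv.ofBijective
    (Sum.elim (fun i => ⟨i, Finset.mem_insert_of_mem i.2⟩) fun _ => ⟨k, Finset.mem_insert_self k S⟩)
    (by
      constructor
      · rintro (i | i) (j | j) h
        · simp only [Sum.elim_inl, Subtype.mk.injEq] at h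
          rw [Subtype.ext h]
        · simp only [Sum.elim_inl, Sum.elim_inr, Subtype.mk.injEq] at h
          exact absurd (h ▸ i.2) hk
        · simp only [Sum.elim_inl, Sum.elim_inr, Subtype.mk.injEq] at h
          exact absurd (h ▸ j.2) hk
        · rfl
      · rintro ⟨i, hi⟩
        rcases Finset.mem_insert.1 hi with h | h
        · exact ⟨Sum.inr (), Subtype.ext h.symm⟩
        · exact ⟨Sum.inl ⟨i, h⟩, rfl⟩) with he
  have h5 : D G (insert k S) = (Matrix.fromBlocks M (Matrix.of fun i (_ : Unit) => b i)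
      (Matrix.of fun (_ : Unit) (j : S) => G k j) (Matrix.of fun (_ _ : Unit) => G k k)).det := by
    unfold D
    rw [← Matrix.det_submatrix_equiv_self e]
    congr 1
    ext (i | i) (j | j) <;> rfl
  let hinv : Invertible M := Matrix.invertibleOfIsUnitDet M hu
  rw [h5, Matrix.det_fromBlocks₁₁, hdet, mul_div_cancel_left₀ _ hD.ne',
    Matrix.invOf_eq_nonsing_inv, Matrix.mul_assoc, Matrix.det_unique, sub_eq_add_neg]
  rfl

lemma norm_step {n d : ℕ} (G : Matrix (Fin n) (Fin n) ℝ) (δ : ℝ) (hδ : 0 < δ)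
    (S : Finset (Fin n)) (k : Fin n) (hk : k ∉ S) (c : Fin n → ℝ) (hck : c k = 1) (ρ : ℝ)
    (hc : ∑ i ∈ insert k S, ∑ j ∈ insert k S, c i * c j * G i j = ρ) (x : Fin n → E d) (v : E d)
    (hv : ∀ i ∈ insert k S, ∀ j ∈ insert k S,
      |inner ℝ (Function.update x k v i) (Function.update x k v j) - G i j| < δ) :
    ‖v - (- ∑ i ∈ S, c i • x i)‖ ^ 2 ≤ ρ + (∑ i, |c i|) ^ 2 * δ := by
  set y := Function.update x k v with hy
  have h1 : v - (- ∑ i ∈ S, c i • x i) = ∑ i ∈ insert k S, c i • y i := by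
    rw [Finset.sum_insert hk, hck, one_smul, sub_neg_eq_add]
    congr 1
    · simp [hy]
    · refine Finset.sum_congr rfl fun i hi => ?_
      have h2 : i ≠ k := fun h => hk (h ▸ hi)
      rw [hy, Function.update_of_ne h2]
  have h2 : ‖∑ i ∈ insert k S, c i • y i‖ ^ 2 =
      ∑ i ∈ insert k S, ∑ j ∈ insert k S, c i * c j * inner ℝ (y i) (y j) := by
    rw [← real_inner_self_eq_norm_sq, sum_inner]
    refine Finset.sum_congr rfl fun i _ => ?_
    rw [inner_sum]
    refine Finset.sum_congr rfl fun j _ => ?_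
    rw [real_inner_smul_left, real_inner_smul_right]
    ring
  have h3 : ∑ i ∈ insert k S, ∑ j ∈ insert k S, c i * c j * inner ℝ (y i) (y j) - ρ ≤
      ∑ i ∈ insert k S, ∑ j ∈ insert k S, |c i| * |c j| * δ := by
    rw [← hc, ← Finset.sum_sub_distrib]
    refine Finset.sum_le_sum fun i hi => ?_
    rw [← Finset.sum_sub_distrib]
    refine Finset.sum_le_sum fun j hj => ?_
    rw [← mul_sub]
    refine (le_abs_self _).trans ?_
    rw [abs_mul, abs_mul]
    exact mul_le_mul_of_nonneg_left (hv i hi j hj).le (by positivity)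
  have h4 : ∑ i ∈ insert k S, ∑ j ∈ insert k S, |c i| * |c j| * δ =
      (∑ i ∈ insert k S, |c i|) ^ 2 * δ := by
    rw [pow_two, Finset.sum_mul_sum, Finset.sum_mul]
    refine Finset.sum_congr rfl fun i _ => ?_
    rw [Finset.sum_mul]
  have h5 : (∑ i ∈ insert k S, |c i|) ^ 2 ≤ (∑ i, |c i|) ^ 2 := by
    refine pow_le_pow_left₀ (Finset.sum_nonneg fun _ _ => abs_nonneg _) ?_ 2
    exact Finset.sum_le_sum_of_subset_of_nonneg (Finset.subset_univ _)
      (fun _ _ _ => abs_nonneg _)
  have h6 := mul_le_mul_of_nonneg_right h5 hδ.le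
  rw [h1, h2]
  linarith

lemma Fm_fine {n : ℕ} (G : Matrix (Fin n) (Fin n) ℝ) (hG : G.PosSemidef) (m : ℕ) :
    ∀ S : Finset (Fin n), Sᶜ.card = m → 0 < D G S → ∀ κ : ℝ, 0 < κ → ∃ δ₀ : ℝ, 0 < δ₀ ∧
      ∀ δ : ℝ, 0 < δ → δ ≤ δ₀ → ∀ (d : ℕ) (x : Fin n → E d), Fm G δ d S x ≤
        ENNReal.ofReal (kappa d ^ m * (Real.sqrt (D G Finset.univ / D G S + κ)) ^ d) := by
  induction m with
  | zero =>
    intro S hS hD κ hκ
    refine ⟨1, one_pos, ?_⟩
    intro δ _ _ d x
    have h1 : Sᶜ = ∅ := Finset.card_eq_zero.1 hS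
    have h2 : S = Finset.univ := by
      rwa [Finset.compl_eq_empty_iff] at h1
    have h3 : Fm G δ d S x ≤ 1 := by
      unfold Fm
      rw [h1, lmarginal_empty]
      by_cases hx : x ∈ T G δ d
      · rw [Set.indicator_of_mem hx]
        rfl
      · rw [Set.indicator_of_notMem hx]
        exact zero_le_one
    refine h3.trans ?_
    rw [ENNReal.one_le_ofReal, pow_zero, one_mul]
    apply one_le_pow₀
    rw [Real.one_le_sqrt, ← h2, div_self hD.ne']
    linarith
  | succ m ih =>
    intro S hS hD κ hκ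
    obtain ⟨k, hk⟩ : (Sᶜ).Nonempty := by
      rw [← Finset.card_pos, hS]
      omega
    rw [Finset.mem_compl] at hk
    have hcard : ((insert k S)ᶜ).card = m := by
      have h2 : (insert k S)ᶜ = Sᶜ.erase k := by
        ext i
        simp only [Finset.mem_compl, Finset.mem_insert, Finset.mem_erase]
        tauto
      rw [h2, Finset.card_erase_of_mem (by simpa using hk), hS]
      rfl
    obtain ⟨c, hck, hc⟩ := schur G S k hk hD
    set ρ : ℝ := D G (insert k S) / D G S with hρ
    set C : ℝ := (∑ i, |c i|) ^ 2 with hC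
    have hC0 : 0 ≤ C := by positivity
    have hρ0 : 0 ≤ ρ := div_nonneg (D_nonneg hG _) hD.le
    have hU0 : 0 ≤ D G Finset.univ := D_nonneg hG _
    have hstep : ∀ (δ : ℝ), 0 < δ → ∀ (d : ℕ) (B : ℝ) (_ : 0 ≤ B),
        (∀ y, Fm G δ d (insert k S) y ≤ ENNReal.ofReal (kappa d ^ m * B ^ d)) →
        B * Real.sqrt (ρ + C * δ) ≤ Real.sqrt (D G Finset.univ / D G S + κ) →
        ∀ x, Fm G δ d S x ≤ ENNReal.ofReal
          (kappa d ^ (m + 1) * (Real.sqrt (D G Finset.univ / D G S + κ)) ^ d) := by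
      intro δ hδ d B hB0 hB hle x
      have h3 := Fm_step G δ S k hk x _ hB (- ∑ i ∈ S, c i • x i) (Real.sqrt (ρ + C * δ))
        (Real.sqrt_nonneg _) (by
          intro v hv
          apply Real.le_sqrt_of_sq_le
          exact norm_step G δ hδ S k hk c hck ρ hc x v hv)
      refine h3.trans ?_
      have hk0 := kappa_nonneg d
      rw [← ENNReal.ofReal_mul (by positivity)]
      apply ENNReal.ofReal_le_ofReal
      rw [mul_mul_mul_comm, ← pow_succ, ← mul_pow]
      exact mul_le_mul_of_nonneg_left (pow_le_pow_left₀ (by positivity) hle d) (by positivity)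
    rcases (D_nonneg hG (insert k S)).eq_or_lt with h0 | hpos
    · -- singular case
      obtain ⟨M, hM1, hM⟩ := Fm_crude G hG
      have hρz : ρ = 0 := by rw [hρ, ← h0, zero_div]
      refine ⟨min 1 (κ / ((M ^ m) ^ 2 * C + 1)), lt_min one_pos (by positivity), ?_⟩
      intro δ hδ hδ1 d x
      refine hstep δ hδ d (M ^ m) (by positivity)
        (fun y => hM δ hδ (hδ1.trans (min_le_left _ _)) d m _ hcard y) ?_ x
      rw [hρz, zero_add]
      apply Real.le_sqrt_of_sq_le
      rw [mul_pow, Real.sq_sqrt (by positivity)]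
      have h5 : δ * ((M ^ m) ^ 2 * C + 1) ≤ κ := by
        rw [← le_div_iff₀ (by positivity)]
        exact hδ1.trans (min_le_right _ _)
      have h6 : 0 ≤ D G Finset.univ / D G S := div_nonneg hU0 hD.le
      nlinarith
    · -- nonsingular case
      set a : ℝ := D G Finset.univ / D G (insert k S) with ha
      have ha0 : 0 ≤ a := div_nonneg hU0 hpos.le
      have haρ : a * ρ = D G Finset.univ / D G S := by
        rw [ha, hρ]
        field_simp
      obtain ⟨δ₁, hδ₁, h1⟩ := ih (insert k S) hcard hpos (κ / (2 * (ρ + 1))) (by positivity)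
      refine ⟨min δ₁ (min 1 (κ / (2 * (a + 1))) / (C + 1)), lt_min hδ₁ (by positivity), ?_⟩
      intro δ hδ hδ1 d x
      refine hstep δ hδ d (Real.sqrt (a + κ / (2 * (ρ + 1)))) (Real.sqrt_nonneg _)
        (fun y => h1 δ hδ (hδ1.trans (min_le_left _ _)) d y) ?_ x
      have h5 : δ * (C + 1) ≤ min 1 (κ / (2 * (a + 1))) := by
        rw [← le_div_iff₀ (by positivity)]
        exact hδ1.trans (min_le_right _ _)
      have h6 : δ * (C + 1) ≤ 1 := h5.trans (min_le_left _ _)
      have h7 : δ * (C + 1) ≤ κ / (2 * (a + 1)) := h5.trans (min_le_right _ _)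
      have hCδ : C * δ ≤ δ * (C + 1) := by nlinarith
      have hCδ0 : 0 ≤ C * δ := by positivity
      rw [← Real.sqrt_mul (by positivity)]
      apply Real.sqrt_le_sqrt
      have h8 : κ / (2 * (ρ + 1)) * (ρ + C * δ) ≤ κ / 2 := by
        have h9 : ρ + C * δ ≤ ρ + 1 := by linarith
        have h10 : κ / (2 * (ρ + 1)) * (ρ + 1) = κ / 2 := by
          field_simp
        rw [← h10]
        exact mul_le_mul_of_nonneg_left h9 (by positivity)
      have h9 : a * (C * δ) ≤ κ / 2 := by
        have h10 : C * δ ≤ κ / (2 * (a + 1)) := hCδ.trans h7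
        have h11 : (a + 1) * (κ / (2 * (a + 1))) = κ / 2 := by
          field_simp
        have h12 : (a + 1) * (C * δ) ≤ κ / 2 := by
          rw [← h11]
          exact mul_le_mul_of_nonneg_left h10 (by positivity)
        nlinarith
      have h10 : (a + κ / (2 * (ρ + 1))) * (ρ + C * δ) =
          a * ρ + a * (C * δ) + κ / (2 * (ρ + 1)) * (ρ + C * δ) := by ring
      rw [h10, haρ]
      linarith

theorem vup : S_vup := by
  intro n G hG κ hκ
  have h1 : ∀ S : Finset (Fin n), ∃ δ₀ : ℝ, 0 < δ₀ ∧ (0 < D G S →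
      ∀ δ : ℝ, 0 < δ → δ ≤ δ₀ → ∀ (d : ℕ) (x : Fin n → E d), Fm G δ d S x ≤
        ENNReal.ofReal (kappa d ^ Sᶜ.card *
          (Real.sqrt (D G Finset.univ / D G S + κ)) ^ d)) := by
    intro S
    by_cases hD : 0 < D G S
    · obtain ⟨δ₀, h2, h3⟩ := Fm_fine G hG _ S rfl hD κ hκ
      exact ⟨δ₀, h2, fun _ => h3⟩
    · exact ⟨1, one_pos, fun h => absurd h hD⟩
  choose f hf0 hf using h1
  refine ⟨Finset.univ.inf' ⟨∅, Finset.mem_univ _⟩ f, ?_, ?_⟩
  · rw [Finset.lt_inf'_iff]
    intro S _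
    exact hf0 S
  · intro S hS d x
    refine hf S hS _ ?_ (Finset.inf'_le _ (Finset.mem_univ S)) d x
    rw [Finset.lt_inf'_iff]
    intro S _
    exact hf0 S

end Pool.Agent.Helper89.WD
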